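import Mathlib

/-!
The reaction term.
-/

set_option autoImplicit false

open Set Filter Topology
open scoped NNReal ENNReal

namespace Pool.Agent.Lib.MP_1dc5fb

/-- the amplitude factor of the reaction -/
noncomputable def amp (s : ℝ) : ℝ := 1 / 20 + 22 * Real.exp (-(400000 * (s - 19 / 20) ^ 2))

/-- the reaction -/
noncomputable def fr (s : ℝ) : ℝ := s * (1 - s) * amp s

lemma amp_pos (s : ℝ) : 0 < amp s := by
  unfold amp
  have := Real.exp_pos (-(400000 * (s - 19 / 20) ^ 2))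
  positivity

lemma amp_ge (s : ℝ) : 1 / 20 ≤ amp s := by
  unfold amp
  have := Real.exp_pos (-(400000 * (s - 19 / 20) ^ 2))
  linarith

lemma contDiff_amp {n : WithTop ℕ∞} : ContDiff ℝ n amp := by
  unfold amp; fun_prop

lemma contDiff_fr {n : WithTop ℕ∞} : ContDiff ℝ n fr := by
  have := contDiff_amp (n := n)
  unfold fr; fun_prop

lemma fr_zero : fr 0 = 0 := by simp [fr]
lemma fr_one : fr 1 = 0 := by simp [fr]

lemma fr_pos {s : ℝ} (hs : s ∈ Ioo (0 : ℝ) 1) : 0 < fr s := by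
  have h1 := hs.1
  have h2 : 0 < 1 - s := by linarith [hs.2]
  have := amp_pos s
  unfold fr; positivity

lemma deriv_fr_zero : 0 < deriv fr 0 := by
  have ha : DifferentiableAt ℝ amp 0 := (contDiff_amp (n := 1)).differentiable (by norm_num) 0
  have h : HasDerivAt (fun s => s * (1 - s) * amp s)
      ((1 * (1 - 0) + 0 * (-1)) * amp 0 + 0 * (1 - 0) * deriv amp 0) 0 :=
    ((hasDerivAt_id (0 : ℝ)).mul ((hasDerivAt_id (0 : ℝ)).const_sub 1)).mul ha.hasDerivAt
  have h2 : deriv fr 0 = amp 0 := by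
    refine (h.deriv.trans ?_)
    ring
  rw [h2]; exact amp_pos 0

lemma deriv_fr_one : deriv fr 1 < 0 := by
  have ha : DifferentiableAt ℝ amp 1 := (contDiff_amp (n := 1)).differentiable (by norm_num) 1
  have h : HasDerivAt (fun s => s * (1 - s) * amp s)
      ((1 * (1 - 1) + 1 * (-1)) * amp 1 + 1 * (1 - 1) * deriv amp 1) 1 :=
    ((hasDerivAt_id (1 : ℝ)).mul ((hasDerivAt_id (1 : ℝ)).const_sub 1)).mul ha.hasDerivAt
  have h2 : deriv fr 1 = -amp 1 := by
    refine (h.deriv.trans ?_)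
    ring
  rw [h2]; linarith [amp_pos 1]

lemma holder_fr : ∃ C γ : ℝ≥0, 0 < γ ∧ γ < 1 ∧ HolderOnWith C γ (deriv fr) (Icc (0 : ℝ) 1) := by
  have h2 : ContDiff ℝ 1 (deriv fr) := by
    have : ContDiff ℝ (1 + 1) fr := contDiff_fr
    exact this.deriv'
  obtain ⟨K, hK⟩ := (h2.contDiffOn (s := Icc (0 : ℝ) 1)).exists_lipschitzOnWith one_ne_zero
    (convex_Icc 0 1) isCompact_Icc
  have hH : HolderOnWith K 1 (deriv fr) (Icc (0 : ℝ) 1) := holderOnWith_one.2 hK
  refine ⟨_, 1 / 2, by norm_num, ?_, hH.of_le (D := 1) (s := 1 / 2) ?_ ?_⟩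
  · exact NNReal.half_lt_self one_ne_zero
  · intro x hx y hy
    rw [edist_dist, Real.dist_eq]
    rw [show ((1 : ℝ≥0) : ℝ≥0∞) = ENNReal.ofReal 1 by simp]
    refine ENNReal.ofReal_le_ofReal (abs_le.2 ⟨?_, ?_⟩)
    · linarith [hx.1, hy.2]
    · linarith [hx.2, hy.1]
  · exact (NNReal.half_lt_self one_ne_zero).le

/-- the truncated reaction -/
noncomputable def fc (s : ℝ) : ℝ := fr (max 0 (min s 1))

lemma clamp_mem (s : ℝ) : max 0 (min s 1) ∈ Icc (0 : ℝ) 1 :=
  ⟨le_max_left _ _, max_le zero_le_one (min_le_right _ _)⟩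

lemma fc_eq {s : ℝ} (h0 : 0 ≤ s) (h1 : s ≤ 1) : fc s = fr s := by
  unfold fc; rw [min_eq_left h1, max_eq_right h0]

lemma fc_of_ge {s : ℝ} (h1 : 1 ≤ s) : fc s = 0 := by
  unfold fc; rw [min_eq_right h1, max_eq_right zero_le_one, fr_one]

lemma fc_nonneg (s : ℝ) : 0 ≤ fc s := by
  unfold fc
  have h := clamp_mem s
  have := amp_pos (max 0 (min s 1))
  have h2 : 0 ≤ 1 - max 0 (min s 1) := by linarith [h.2]
  have h1 := h.1
  unfold fr
  positivity

lemma continuous_fr : Continuous fr := (contDiff_fr (n := 1)).continuous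

lemma continuous_fc : Continuous fc := by
  have := continuous_fr
  unfold fc; fun_prop

lemma lip_fc : ∃ L : ℝ, 0 ≤ L ∧ ∀ s t, |fc s - fc t| ≤ L * |s - t| := by
  obtain ⟨K, hK⟩ := ((contDiff_fr (n := 1)).contDiffOn (s := Icc (0 : ℝ) 1)).exists_lipschitzOnWith
    one_ne_zero (convex_Icc 0 1) isCompact_Icc
  refine ⟨K, K.2, fun s t => ?_⟩
  have h1 := hK.dist_le_mul _ (clamp_mem s) _ (clamp_mem t)
  rw [Real.dist_eq, Real.dist_eq] at h1
  refine h1.trans (mul_le_mul_of_nonneg_left ?_ K.2)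
  have e1 : |max 0 (min s 1) - max 0 (min t 1)| ≤ |min s 1 - min t 1| := by
    have := abs_max_sub_max_le_abs (min s 1) (min t 1) 0
    rwa [max_comm (min s 1) 0, max_comm (min t 1) 0] at this
  refine e1.trans ?_
  have := abs_min_sub_min_le_max s 1 t 1
  simpa using this

lemma bdd_fc : ∃ C : ℝ, ∀ s, |fc s| ≤ C := by
  obtain ⟨C, hC⟩ := (isCompact_Icc (a := (0 : ℝ)) (b := 1)).exists_bound_of_continuousOn
    continuous_fr.continuousOn
  exact ⟨C, fun s => hC _ (clamp_mem s)⟩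

/-- off the window the reaction is small -/
lemma fc_off {s : ℝ} (h0 : 0 ≤ s) (h : 1 / 200 ≤ |s - 19 / 20|) : fc s ≤ 51 / 1000 * s := by
  rcases le_total s 1 with h1 | h1
  · rw [fc_eq h0 h1]
    have e1 : amp s ≤ 51 / 1000 := by
      have e2 : (1 / 200 : ℝ) ^ 2 ≤ (s - 19 / 20) ^ 2 := by
        rw [← sq_abs (s - 19 / 20)]
        exact pow_le_pow_left₀ (by norm_num) h 2
      have e3 : Real.exp (-(400000 * (s - 19 / 20) ^ 2)) ≤ Real.exp (-10) := by
        apply Real.exp_le_exp.2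
        nlinarith
      have e4 : Real.exp (-10) ≤ 1 / 22000 := by
        rw [Real.exp_neg, ← one_div]
        refine one_div_le_one_div_of_le (by norm_num) ?_
        have h5 := Real.exp_one_gt_d9
        have h6 : Real.exp 10 = Real.exp 1 ^ 10 := by
          rw [← Real.exp_nat_mul]; norm_num
        rw [h6]
        calc (22000 : ℝ) ≤ 2.7182818283 ^ 10 := by norm_num
          _ ≤ Real.exp 1 ^ 10 := pow_le_pow_left₀ (by norm_num) h5.le 10
      unfold amp
      linarith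
    have e2 : s * (1 - s) ≤ s := by nlinarith
    have e3 : 0 ≤ s * (1 - s) := mul_nonneg h0 (by linarith)
    calc fr s = s * (1 - s) * amp s := rfl
      _ ≤ s * (1 - s) * (51 / 1000) := mul_le_mul_of_nonneg_left e1 e3
      _ ≤ s * (51 / 1000) := mul_le_mul_of_nonneg_right e2 (by norm_num)
      _ = 51 / 1000 * s := by ring
  · rw [fc_of_ge h1]; positivity

/-- in the window the reaction is bounded by `1.147` -/
lemma fc_window {s : ℝ} (h : |s - 19 / 20| ≤ 1 / 200) : fc s ≤ 1147 / 1000 := by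
  obtain ⟨h1, h2⟩ := abs_le.1 h
  rw [fc_eq (by linarith) (by linarith)]
  have e1 : amp s ≤ 2205 / 100 := by
    unfold amp
    have : Real.exp (-(400000 * (s - 19 / 20) ^ 2)) ≤ 1 := by
      rw [Real.exp_le_one_iff]
      have := sq_nonneg (s - 19 / 20)
      linarith
    linarith
  have e2 : s * (1 - s) ≤ 52 / 1000 := by nlinarith
  have e3 : 0 ≤ s * (1 - s) := mul_nonneg (by linarith) (by linarith)
  calc fr s = s * (1 - s) * amp s := rfl
    _ ≤ s * (1 - s) * (2205 / 100) := mul_le_mul_of_nonneg_left e1 e3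
    _ ≤ 52 / 1000 * (2205 / 100) := mul_le_mul_of_nonneg_right e2 (by norm_num)
    _ ≤ 1147 / 1000 := by norm_num

/-- near the centre of the window the reaction is at least `1.04` -/
lemma fc_core {s : ℝ} (h : |s - 19 / 20| ≤ 1 / 10000) : 104 / 100 ≤ fc s := by
  obtain ⟨h1, h2⟩ := abs_le.1 h
  rw [fc_eq (by linarith) (by linarith)]
  have e1 : 2196 / 100 ≤ amp s := by
    unfold amp
    have e2 : (s - 19 / 20) ^ 2 ≤ (1 / 10000 : ℝ) ^ 2 := by
      rw [← sq_abs (s - 19 / 20)]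
      exact pow_le_pow_left₀ (abs_nonneg _) h 2
    have := Real.add_one_le_exp (-(400000 * (s - 19 / 20) ^ 2))
    nlinarith
  have e2 : 474 / 10000 ≤ s * (1 - s) := by nlinarith
  calc (104 / 100 : ℝ) ≤ 474 / 10000 * (2196 / 100) := by norm_num
    _ ≤ s * (1 - s) * (2196 / 100) := mul_le_mul_of_nonneg_right e2 (by norm_num)
    _ ≤ s * (1 - s) * amp s := mul_le_mul_of_nonneg_left e1 (by linarith)
    _ = fr s := rfl

/-- lower bound near zero -/
lemma fc_low {s : ℝ} (h0 : 0 ≤ s) (h1 : s ≤ 1 / 2) : 1 / 40 * s ≤ fc s := by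
  rw [fc_eq h0 (by linarith)]
  have e1 := amp_ge s
  have e2 : s / 2 ≤ s * (1 - s) := by nlinarith
  calc 1 / 40 * s = s / 2 * (1 / 20) := by ring
    _ ≤ s * (1 - s) * (1 / 20) := mul_le_mul_of_nonneg_right e2 (by norm_num)
    _ ≤ s * (1 - s) * amp s := mul_le_mul_of_nonneg_left e1 (by nlinarith)
    _ = fr s := rfl

end Pool.Agent.Lib.MP_1dc5fb
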