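import Mathlib

/-!
A trigonometric inequality.
-/

set_option autoImplicit false

open Set

namespace Pool.Agent.Lib.MP_1dc5fb

lemma half_angle {t : ℝ} (h0 : 0 ≤ t) (h1 : t ≤ Real.pi / 4) :
    0 ≤ 4 / Real.pi * t * Real.cos t - Real.sin t := by
  have hpi := Real.pi_pos
  have hpi4 := Real.pi_lt_four
  have hc : ConcaveOn ℝ (Icc 0 (Real.pi / 4))
      (fun t => 4 / Real.pi * t * Real.cos t - Real.sin t) := by
    refine concaveOn_of_hasDerivWithinAt2_nonpos (convex_Icc _ _)
      (f' := fun t => (4 / Real.pi * 1 * Real.cos t + 4 / Real.pi * t * (-Real.sin t)) - Real.cos t)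
      (f'' := fun t => (4 / Real.pi * 1 * (-Real.sin t) + (4 / Real.pi * 1 * (-Real.sin t) +
        4 / Real.pi * t * (-Real.cos t))) - (-Real.sin t))
      (by fun_prop) ?_ ?_ ?_
    · intro x _
      exact ((((hasDerivAt_id x).const_mul (4 / Real.pi)).mul (Real.hasDerivAt_cos x)).sub
        (Real.hasDerivAt_sin x)).hasDerivWithinAt
    · intro x _
      exact ((((Real.hasDerivAt_cos x).const_mul (4 / Real.pi * 1)).add
        (((hasDerivAt_id x).const_mul (4 / Real.pi)).mul (Real.hasDerivAt_sin x).neg)).sub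
        (Real.hasDerivAt_cos x)).hasDerivWithinAt
    · intro x hx
      rw [interior_Icc] at hx
      have hs : 0 ≤ Real.sin x := Real.sin_nonneg_of_nonneg_of_le_pi hx.1.le (by linarith [hx.2])
      have hco : 0 ≤ Real.cos x := Real.cos_nonneg_of_neg_pi_div_two_le_of_le
        (by linarith [hx.1]) (by linarith [hx.2])
      have h4 : 1 ≤ 4 / Real.pi := (one_le_div hpi).2 hpi4.le
      have h5 : 0 ≤ 4 / Real.pi * x * Real.cos x := by
        have := hx.1.le
        positivity
      nlinarith
  have hcos : Real.cos (Real.pi / 4) = Real.sin (Real.pi / 4) := by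
    rw [Real.cos_pi_div_four, Real.sin_pi_div_four]
  have hm0 : (0 : ℝ) ∈ Icc 0 (Real.pi / 4) := ⟨le_rfl, by positivity⟩
  have hm1 : Real.pi / 4 ∈ Icc 0 (Real.pi / 4) := ⟨by positivity, le_rfl⟩
  have ha : 0 ≤ 1 - 4 / Real.pi * t := by
    have : 4 / Real.pi * t ≤ 4 / Real.pi * (Real.pi / 4) :=
      mul_le_mul_of_nonneg_left h1 (by positivity)
    have e2 : 4 / Real.pi * (Real.pi / 4) = 1 := by field_simp
    linarith
  have hb : 0 ≤ 4 / Real.pi * t := by positivity
  have h := hc.2 hm0 hm1 ha hb (by ring)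
  · have e1 : (1 - 4 / Real.pi * t) • (0 : ℝ) + (4 / Real.pi * t) • (Real.pi / 4) = t := by
      simp only [smul_eq_mul]
      field_simp
      ring
    rw [e1] at h
    simp only [smul_eq_mul] at h
    rw [hcos] at h
    have e2 : 4 / Real.pi * (Real.pi / 4) = 1 := by field_simp
    rw [e2] at h
    simpa using h

lemma trig_ineq {τ : ℝ} (h : |τ| ≤ Real.pi / 2) :
    1 ≤ 2 / Real.pi * (τ * Real.sin τ) + Real.cos τ := by
  have key : ∀ s : ℝ, 0 ≤ s → s ≤ Real.pi / 2 →
      1 ≤ 2 / Real.pi * (s * Real.sin s) + Real.cos s := by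
    intro s h0 h1
    have hpi := Real.pi_pos
    have hh := half_angle (t := s / 2) (by positivity) (by linarith)
    have hs : 0 ≤ Real.sin (s / 2) := Real.sin_nonneg_of_nonneg_of_le_pi (by positivity)
      (by linarith)
    have e1 : Real.sin s = 2 * Real.sin (s / 2) * Real.cos (s / 2) := by
      rw [← Real.sin_two_mul]; congr 1; ring
    have e2 : Real.cos s = 1 - 2 * Real.sin (s / 2) ^ 2 := by
      have h3 := Real.cos_sq_add_sin_sq (s / 2)
      have h4 : Real.cos s = Real.cos (2 * (s / 2)) := by congr 1; ring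
      rw [h4, Real.cos_two_mul]
      linarith
    rw [e1, e2]
    have h5 := mul_nonneg hs hh
    have e3 : 2 / Real.pi * (s * (2 * Real.sin (s / 2) * Real.cos (s / 2))) +
        (1 - 2 * Real.sin (s / 2) ^ 2) = 1 + 2 * (Real.sin (s / 2) *
        (4 / Real.pi * (s / 2) * Real.cos (s / 2) - Real.sin (s / 2))) := by
      field_simp
      ring
    rw [e3]
    linarith
  rcases le_total 0 τ with h0 | h0
  · rw [abs_of_nonneg h0] at h
    exact key τ h0 h
  · rw [abs_of_nonpos h0] at h
    have := key (-τ) (by linarith) h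
    rw [Real.sin_neg, Real.cos_neg] at this
    rwa [neg_mul_neg] at this

end Pool.Agent.Lib.MP_1dc5fb
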