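import Pool.Agent.Lib.MP_1dc5fb_an.Coord
import Pool.Agent.Lib.MP_1dc5fb_an.Reaction
import Pool.Agent.Lib.MP_1dc5fb_an.Trig

/-!
The supersolution which is small near the origin.
-/

set_option autoImplicit false

open MeasureTheory Set Filter Topology

namespace Pool.Agent.Lib.MP_1dc5fb

/-- the small parameter -/
noncomputable def pc : ℝ := 1 / 1000000
/-- logarithm of the outer radius -/
noncomputable def L1 : ℝ := Real.log (pc / 200)
/-- depth of the pole below the half plane -/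
noncomputable def pe : ℝ := Real.exp (L1 - 30 / pc)
/-- the weight of the equation -/
noncomputable def Pf (z : ℝ × ℝ) : ℝ := 1 + 2 * pc * u2 pe z + pc ^ 2 / rr pe z
/-- the boundary coefficient -/
noncomputable def bet (x : ℝ) : ℝ := Real.pi * pc / 2 * Real.sqrt (Pf (x, 0))

lemma pc_pos : 0 < pc := by unfold pc; norm_num
lemma pe_pos : 0 < pe := Real.exp_pos _

lemma Pf_ge_one {z : ℝ × ℝ} (hz : z ∈ Hbar) : 1 ≤ Pf z := by
  have h1 := u2_pos pe_pos hz
  have h2 := rr_pos pe_pos hz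
  have h3 := pc_pos
  unfold Pf
  have : 0 ≤ 2 * pc * u2 pe z := by positivity
  have : 0 ≤ pc ^ 2 / rr pe z := by positivity
  linarith

/-- numerical core of the interior inequality -/
lemma core_lt {E Θ : ℝ} (h0 : 0 < E) (h1 : E < 1) (hT1 : Θ ≤ 1) (hT0 : 1 - 2 / 10 ^ 12 ≤ Θ) :
    1010025 / 1000000 * fc ((1 + 1 / 10 ^ 11 - (99 / 100 + 1 / 10 ^ 11) * (1 - E) ^ 3) * Θ) ≤
      3 * (99 / 100 + 1 / 10 ^ 11) * (81 / 100) * (E * (1 - E) * (3 * E - 1)) * Θ +
        95 / 100 * (1 + 1 / 10 ^ 11 - (99 / 100 + 1 / 10 ^ 11) * (1 - E) ^ 3) := by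
  have hT : 0 < Θ := by
    have : (0 : ℝ) < 1 - 2 / 10 ^ 12 := by norm_num
    linarith
  set ω : ℝ := 99 / 100 + 1 / 10 ^ 11 with hω
  have hω1 : 99 / 100 ≤ ω := by rw [hω]; norm_num
  have hω2 : ω ≤ 9901 / 10000 := by rw [hω]; norm_num
  have ha : (1 + 1 / 10 ^ 11 : ℝ) = ω + 1 / 100 := by rw [hω]; norm_num
  rw [ha]
  clear_value ω
  obtain ⟨D, hD⟩ : ∃ D, D = 1 - E := ⟨_, rfl⟩
  rw [← hD]
  have hD0 : 0 < D := by linarith
  have hD1 : D < 1 := by linarith
  have hD3 : D ^ 3 ≤ 1 := pow_le_one₀ hD0.le hD1.le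
  have hD3' : 0 < D ^ 3 := by positivity
  obtain ⟨W, hW⟩ : ∃ W, W = ω + 1 / 100 - ω * D ^ 3 := ⟨_, rfl⟩
  rw [← hW]
  have hWpos : 0 < W := by
    have : ω * D ^ 3 ≤ ω * 1 := mul_le_mul_of_nonneg_left hD3 (by linarith)
    linarith
  have hs0 : 0 ≤ W * Θ := by positivity
  by_cases hwin : 1 / 200 ≤ |W * Θ - 19 / 20|
  · have hf := fc_off hs0 hwin
    have hWT : W * Θ ≤ W := by nlinarith
    have key : 0 ≤ 3 * ω * (81 / 100) * (E * D * (3 * E - 1)) * Θ + 898 / 1000 * W := by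
      by_cases h3 : 0 ≤ 3 * E - 1
      · positivity
      · push Not at h3
        have e1 : E * D * (3 * E - 1) ≤ 0 :=
          mul_nonpos_of_nonneg_of_nonpos (by positivity) h3.le
        have e2 : 3 * ω * (81 / 100) * (E * D * (3 * E - 1)) ≤
            3 * ω * (81 / 100) * (E * D * (3 * E - 1)) * Θ := by
          have : 3 * ω * (81 / 100) * (E * D * (3 * E - 1)) ≤ 0 :=
            mul_nonpos_of_nonneg_of_nonpos (by positivity) e1
          nlinarith
        have e3 : 3 * ω * (81 / 100) * (E * D * (3 * E - 1)) + 898 / 1000 * W =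
            898 / 100000 + ω * (264 / 1000 * E + 7026 / 1000 * E ^ 2 - 6392 / 1000 * E ^ 3) := by
          rw [hW, hD]; ring
        have e4 : 0 ≤ 264 / 1000 * E + 7026 / 1000 * E ^ 2 - 6392 / 1000 * E ^ 3 := by
          have : E ^ 3 ≤ E ^ 2 := by nlinarith [sq_nonneg E]
          nlinarith [sq_nonneg E]
        have e5 : 0 ≤ ω * (264 / 1000 * E + 7026 / 1000 * E ^ 2 - 6392 / 1000 * E ^ 3) :=
          mul_nonneg (by linarith) e4
        linarith
    nlinarith
  · push Not at hwin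
    have hf := fc_window hwin.le
    obtain ⟨w1, w2⟩ := abs_lt.1 hwin
    have hTs : 1 / Θ ≤ 1 + 3 / 10 ^ 12 := by
      rw [div_le_iff₀ hT]
      have : (1 : ℝ) ≤ (1 + 3 / 10 ^ 12) * (1 - 2 / 10 ^ 12) := by norm_num
      nlinarith
    have hW1 : 945 / 1000 ≤ W := by nlinarith
    have hW2 : W ≤ 9551 / 10000 := by
      have : W = (W * Θ) * (1 / Θ) := by field_simp
      rw [this]
      have h5 : W * Θ ≤ 955 / 1000 := by linarith
      calc W * Θ * (1 / Θ) ≤ 955 / 1000 * (1 + 3 / 10 ^ 12) :=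
            mul_le_mul h5 hTs (by positivity) (by norm_num)
        _ ≤ 9551 / 10000 := by norm_num
    have hωD1 : 449 / 10000 ≤ ω * D ^ 3 := by rw [hW] at hW2; linarith
    have hωD2 : ω * D ^ 3 ≤ 552 / 10000 := by rw [hW] at hW1; linarith
    have hDl : 35 / 100 ≤ D := by
      by_contra hcon
      push Not at hcon
      have : D ^ 3 ≤ (35 / 100) ^ 3 := pow_le_pow_left₀ hD0.le hcon.le 3
      have h6 : ω * D ^ 3 ≤ 9901 / 10000 * (35 / 100) ^ 3 :=
        mul_le_mul hω2 this hD3'.le (by norm_num)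
      have h7 : (9901 / 10000 * (35 / 100) ^ 3 : ℝ) < 449 / 10000 := by norm_num
      linarith
    have hDu : D ≤ 39 / 100 := by
      by_contra hcon
      push Not at hcon
      have : (39 / 100) ^ 3 ≤ D ^ 3 := pow_le_pow_left₀ (by norm_num) hcon.le 3
      have h6 : 99 / 100 * (39 / 100) ^ 3 ≤ ω * D ^ 3 :=
        mul_le_mul hω1 this (by norm_num) (by linarith)
      have h7 : (552 / 10000 : ℝ) < 99 / 100 * (39 / 100) ^ 3 := by norm_num
      linarith
    have hE1 : 61 / 100 ≤ E := by linarith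
    have hE2 : 83 / 100 ≤ 3 * E - 1 := by linarith
    have p1 : 61 / 100 * (35 / 100) ≤ E * D := mul_le_mul hE1 hDl (by norm_num) h0.le
    have p2 : 61 / 100 * (35 / 100) * (83 / 100) ≤ E * D * (3 * E - 1) :=
      mul_le_mul p1 hE2 (by norm_num) (by positivity)
    have p3 : 3 * (99 / 100) * (81 / 100) ≤ 3 * ω * (81 / 100) := by linarith
    have p4 : 3 * (99 / 100) * (81 / 100) * (61 / 100 * (35 / 100) * (83 / 100)) ≤
        3 * ω * (81 / 100) * (E * D * (3 * E - 1)) :=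
      mul_le_mul p3 p2 (by norm_num) (by positivity)
    have p5 : (9 / 10 : ℝ) ≤ Θ := by
      have : (9 / 10 : ℝ) ≤ 1 - 2 / 10 ^ 12 := by norm_num
      linarith
    have p6 : 3 * (99 / 100) * (81 / 100) * (61 / 100 * (35 / 100) * (83 / 100)) * (9 / 10) ≤
        3 * ω * (81 / 100) * (E * D * (3 * E - 1)) * Θ :=
      mul_le_mul p4 p5 (by norm_num) (by positivity)
    have p7 : (1010025 / 1000000 * (1147 / 1000) : ℝ) ≤
        3 * (99 / 100) * (81 / 100) * (61 / 100 * (35 / 100) * (83 / 100)) * (9 / 10) +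
          95 / 100 * (945 / 1000) := by norm_num
    linarith

/-- the profile -/
noncomputable def gW (t : ℝ) : ℝ :=
  1 + 1 / 10 ^ 11 - (99 / 100 + 1 / 10 ^ 11) * (max (1 - Real.exp (9 / 10 * pc * (t - L1))) 0) ^ 3
/-- first derivative of the profile -/
noncomputable def gW' (t : ℝ) : ℝ :=
  3 * (99 / 100 + 1 / 10 ^ 11) * (9 / 10 * pc) *
    ((max (1 - Real.exp (9 / 10 * pc * (t - L1))) 0) ^ 2 * Real.exp (9 / 10 * pc * (t - L1)))
/-- second derivative of the profile -/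
noncomputable def gW'' (t : ℝ) : ℝ :=
  3 * (99 / 100 + 1 / 10 ^ 11) * (9 / 10 * pc) *
    ((2 * (max (1 - Real.exp (9 / 10 * pc * (t - L1))) 0) *
      (-(Real.exp (9 / 10 * pc * (t - L1)) * (9 / 10 * pc)))) *
        Real.exp (9 / 10 * pc * (t - L1)) +
    (max (1 - Real.exp (9 / 10 * pc * (t - L1))) 0) ^ 2 *
      (Real.exp (9 / 10 * pc * (t - L1)) * (9 / 10 * pc)))

lemma hasDerivAt_E (t : ℝ) : HasDerivAt (fun t => Real.exp (9 / 10 * pc * (t - L1)))
    (Real.exp (9 / 10 * pc * (t - L1)) * (9 / 10 * pc)) t := by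
  have h := ((hasDerivAt_id t).sub_const L1).const_mul (9 / 10 * pc)
  exact h.exp.congr_deriv (by simp)

lemma hasDerivAt_1E (t : ℝ) : HasDerivAt (fun t => 1 - Real.exp (9 / 10 * pc * (t - L1)))
    (-(Real.exp (9 / 10 * pc * (t - L1)) * (9 / 10 * pc))) t :=
  (hasDerivAt_E t).const_sub 1

lemma hasDerivAt_gW (t : ℝ) : HasDerivAt gW (gW' t) t := by
  have h := (((hasDerivAt_pos_pow 1 _).comp t (hasDerivAt_1E t)).const_mul
    (99 / 100 + 1 / 10 ^ 11)).const_sub (1 + 1 / 10 ^ 11)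
  refine h.congr_deriv ?_
  unfold gW'
  push_cast
  ring

lemma hasDerivAt_gW' (t : ℝ) : HasDerivAt gW' (gW'' t) t := by
  have h := ((((hasDerivAt_pos_pow 0 _).comp t (hasDerivAt_1E t)).mul (hasDerivAt_E t)).const_mul
    (3 * (99 / 100 + 1 / 10 ^ 11) * (9 / 10 * pc)))
  refine h.congr_deriv ?_
  unfold gW''
  simp only [Function.comp_apply]
  push_cast
  ring

lemma continuous_gW'' : Continuous gW'' := by unfold gW''; fun_prop

/-- the angular factor -/
noncomputable def gT (t : ℝ) : ℝ := 1 - 95 / 100 * pc ^ 2 * t ^ 2 / 2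

lemma hasDerivAt_gT (t : ℝ) : HasDerivAt gT (-(95 / 100 * pc ^ 2 * t)) t := by
  have h := ((((hasDerivAt_id t).pow 2).const_mul (95 / 100 * pc ^ 2)).div_const 2).const_sub 1
  refine h.congr_deriv ?_
  simp
  ring

lemma hasDerivAt_gT' (t : ℝ) :
    HasDerivAt (fun t => -(95 / 100 * pc ^ 2 * t)) (-(95 / 100 * pc ^ 2)) t := by
  have h := ((hasDerivAt_id t).const_mul (95 / 100 * pc ^ 2)).neg
  exact h.congr_deriv (by simp)

/-- the supersolution -/
noncomputable def St (z : ℝ × ℝ) : ℝ := gW (lam pe z) * gT (tau pe z)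

lemma gT_bounds {t : ℝ} (h : |t| ≤ Real.pi / 2) : 1 - 2 / 10 ^ 12 ≤ gT t ∧ gT t ≤ 1 := by
  have h1 : t ^ 2 ≤ 4 := by
    have h2 : |t| ≤ 2 := h.trans (by linarith [Real.pi_le_four])
    rw [← sq_abs]
    calc |t| ^ 2 ≤ 2 ^ 2 := pow_le_pow_left₀ (abs_nonneg _) h2 2
      _ = 4 := by norm_num
  have h2 := sq_nonneg t
  unfold gT pc
  constructor <;> nlinarith

lemma gW_ge (t : ℝ) : 1 / 100 ≤ gW t := by
  unfold gW
  have h0 : 0 < Real.exp (9 / 10 * pc * (t - L1)) := Real.exp_pos _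
  have : (max (1 - Real.exp (9 / 10 * pc * (t - L1))) 0) ^ 3 ≤ 1 :=
    pow_le_one₀ (le_max_right _ _) (max_le (by linarith) zero_le_one)
  nlinarith

lemma gW_of_ge {t : ℝ} (h : L1 ≤ t) : gW t = 1 + 1 / 10 ^ 11 := by
  unfold gW
  have : 1 ≤ Real.exp (9 / 10 * pc * (t - L1)) := by
    rw [Real.one_le_exp_iff]
    have := pc_pos
    have : 0 ≤ t - L1 := by linarith
    positivity
  rw [max_eq_right (by linarith)]
  norm_num

lemma exp_L1 : Real.exp L1 = pc / 200 := Real.exp_log (by have := pc_pos; positivity)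

lemma St_ge_one {z : ℝ × ℝ} (h : L1 ≤ lam pe z) : 1 ≤ St z := by
  unfold St
  rw [gW_of_ge h]
  have h2 := gT_bounds (tau_abs (ε := pe) z).le
  have : (1 : ℝ) ≤ (1 + 1 / 10 ^ 11) * (1 - 2 / 10 ^ 12) := by norm_num
  have h3 : (1 + 1 / 10 ^ 11 : ℝ) * (1 - 2 / 10 ^ 12) ≤ (1 + 1 / 10 ^ 11) * gT (tau pe z) :=
    mul_le_mul_of_nonneg_left h2.1 (by norm_num)
  linarith

lemma St_nonneg (z : ℝ × ℝ) : 0 ≤ St z := by
  unfold St
  have h1 := gW_ge (lam pe z)
  have h2 := gT_bounds (tau_abs (ε := pe) z).le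
  have : (0 : ℝ) ≤ 1 - 2 / 10 ^ 12 := by norm_num
  exact mul_nonneg (by linarith) (by linarith)

lemma exp_lam_pos (z : ℝ × ℝ) : 0 < Real.exp (lam pe z) := Real.exp_pos _

lemma Y_le_exp {z : ℝ × ℝ} (hz : z ∈ Hbar) : z.2 + pe ≤ Real.exp (lam pe z) := by
  have h1 := exp_lam_sq pe_pos hz
  have h2 : (z.2 + pe) ^ 2 ≤ Real.exp (lam pe z) ^ 2 := by
    rw [h1]; unfold rr; nlinarith [sq_nonneg z.1]
  exact (abs_le_of_sq_le_sq' h2 (Real.exp_pos _).le).2

lemma abs_x_le_exp {z : ℝ × ℝ} (hz : z ∈ Hbar) : |z.1| ≤ Real.exp (lam pe z) := by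
  have h1 := exp_lam_sq pe_pos hz
  have h2 : z.1 ^ 2 ≤ Real.exp (lam pe z) ^ 2 := by
    rw [h1]; unfold rr; nlinarith [sq_nonneg (z.2 + pe)]
  exact abs_le_of_sq_le_sq h2 (Real.exp_pos _).le

lemma lam_ge {z : ℝ × ℝ} (hz : z ∈ Hbar) : L1 - 30 / pc ≤ lam pe z := by
  have h1 : pe ≤ Real.exp (lam pe z) := by
    have := Y_le_exp hz
    have h0 : 0 ≤ z.2 := hz
    linarith
  unfold pe at h1
  exact Real.exp_le_exp.1 h1

lemma St_interior {z : ℝ × ℝ} (hz : z ∈ Hbar) :
    Pf z * fc (St z) ≤ -(gW'' (lam pe z) * gT (tau pe z) -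
      gW (lam pe z) * (95 / 100 * pc ^ 2)) * (1 / rr pe z) := by
  have hrr := rr_pos pe_pos hz
  have hT := gT_bounds (tau_abs (ε := pe) z).le
  have hc := pc_pos
  have hWpos : 0 < gW (lam pe z) := by linarith [gW_ge (lam pe z)]
  rcases le_or_gt L1 (lam pe z) with h | h
  · rw [fc_of_ge (St_ge_one h), mul_zero]
    have e1 : 1 ≤ Real.exp (9 / 10 * pc * (lam pe z - L1)) := by
      rw [Real.one_le_exp_iff]
      have : 0 ≤ lam pe z - L1 := by linarith
      positivity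
    have e2 : gW'' (lam pe z) = 0 := by
      unfold gW''
      rw [max_eq_right (by linarith : 1 - Real.exp (9 / 10 * pc * (lam pe z - L1)) ≤ 0)]
      simp
    rw [e2]
    have : 0 ≤ gW (lam pe z) * (95 / 100 * pc ^ 2) * (1 / rr pe z) := by positivity
    linarith
  · set E := Real.exp (9 / 10 * pc * (lam pe z - L1)) with hE
    have hE0 : 0 < E := Real.exp_pos _
    have hE1 : E < 1 := by
      rw [hE, Real.exp_lt_one_iff]
      have : lam pe z - L1 < 0 := by linarith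
      exact mul_neg_of_pos_of_neg (by positivity) this
    have hmax : max (1 - E) 0 = 1 - E := max_eq_left (by linarith)
    have hcore := core_lt hE0 hE1 hT.2 hT.1
    have hgW : gW (lam pe z) = 1 + 1 / 10 ^ 11 - (99 / 100 + 1 / 10 ^ 11) * (1 - E) ^ 3 := by
      unfold gW; rw [← hE, hmax]
    rw [← hgW] at hcore
    have hgW'' : -(gW'' (lam pe z)) = pc ^ 2 * (3 * (99 / 100 + 1 / 10 ^ 11) * (81 / 100) *
        (E * (1 - E) * (3 * E - 1))) := by
      unfold gW''; rw [← hE, hmax]; ring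
    have hSt : St z = gW (lam pe z) * gT (tau pe z) := rfl
    rw [← hSt] at hcore
    -- the weight
    have hPf : Pf z * rr pe z ≤ 1010025 / 1000000 * pc ^ 2 := by
      have h1 : Real.exp (lam pe z) ≤ pc / 200 := by
        rw [← exp_L1]; exact Real.exp_le_exp.2 h.le
      have h2 := exp_lam_sq pe_pos hz
      have h3 := Y_le_exp hz
      have h4 : Pf z * rr pe z = rr pe z + 2 * pc * (z.2 + pe) + pc ^ 2 := by
        unfold Pf u2; field_simp
      rw [h4, ← h2]
      have h5 : Real.exp (lam pe z) ^ 2 ≤ (pc / 200) ^ 2 :=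
        pow_le_pow_left₀ (Real.exp_pos _).le h1 2
      nlinarith
    have hfc := fc_nonneg (St z)
    have step : Pf z * fc (St z) * rr pe z ≤ -(gW'' (lam pe z) * gT (tau pe z) -
        gW (lam pe z) * (95 / 100 * pc ^ 2)) := by
      have e1 : Pf z * fc (St z) * rr pe z = (Pf z * rr pe z) * fc (St z) := by ring
      have e2 : -(gW'' (lam pe z) * gT (tau pe z) - gW (lam pe z) * (95 / 100 * pc ^ 2)) =
          pc ^ 2 * (3 * (99 / 100 + 1 / 10 ^ 11) * (81 / 100) * (E * (1 - E) * (3 * E - 1)) *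
            gT (tau pe z) + 95 / 100 * gW (lam pe z)) := by
        have : -(gW'' (lam pe z) * gT (tau pe z) - gW (lam pe z) * (95 / 100 * pc ^ 2)) =
          -(gW'' (lam pe z)) * gT (tau pe z) + gW (lam pe z) * (95 / 100 * pc ^ 2) := by ring
        rw [this, hgW'']; ring
      rw [e1, e2]
      calc (Pf z * rr pe z) * fc (St z) ≤ 1010025 / 1000000 * pc ^ 2 * fc (St z) :=
            mul_le_mul_of_nonneg_right hPf hfc
        _ = pc ^ 2 * (1010025 / 1000000 * fc (St z)) := by ring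
        _ ≤ _ := mul_le_mul_of_nonneg_left hcore (by positivity)
    rw [mul_one_div, le_div_iff₀ hrr]
    exact step

lemma sqrt_Pf_ge {z : ℝ × ℝ} (hz : z ∈ Hbar) :
    pc / Real.exp (lam pe z) ≤ Real.sqrt (Pf z) := by
  apply Real.le_sqrt_of_sq_le
  have h1 := u2_pos pe_pos hz
  have hc := pc_pos
  rw [div_pow, exp_lam_sq pe_pos hz]
  unfold Pf
  have : 0 ≤ 2 * pc * u2 pe z := by positivity
  linarith

lemma exp27 : (10000000000 : ℝ) ≤ Real.exp 27 := by
  have h5 := Real.exp_one_gt_d9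
  have h6 : Real.exp 27 = Real.exp 1 ^ 27 := by
    rw [← Real.exp_nat_mul]; norm_num
  rw [h6]
  calc (10000000000 : ℝ) ≤ 2.7 ^ 27 := by norm_num
    _ ≤ Real.exp 1 ^ 27 := pow_le_pow_left₀ (by norm_num) (by linarith) 27

lemma St_boundary (x : ℝ) :
    gW' (lam pe (x, 0)) * u2 pe (x, 0) * gT (tau pe (x, 0)) +
      gW (lam pe (x, 0)) * (-(95 / 100 * pc ^ 2 * tau pe (x, 0)) * -(u1 pe (x, 0))) ≤
      bet x * St (x, 0) := by
  have hz : ((x, 0) : ℝ × ℝ) ∈ Hbar := le_refl (0 : ℝ)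
  have hrr := rr_pos pe_pos hz
  have hT := gT_bounds (tau_abs (ε := pe) (x, 0)).le
  have hc := pc_pos
  have hW1 := gW_ge (lam pe (x, 0))
  have hsq := exp_lam_sq pe_pos hz
  have hlam := lam_ge hz
  set z : ℝ × ℝ := (x, 0) with hzdef
  set r := Real.exp (lam pe z) with hr
  have hr0 : 0 < r := Real.exp_pos _
  set W := gW (lam pe z)
  set Θ := gT (tau pe z)
  have hpi := Real.pi_gt_three
  -- the first term
  have t1 : gW' (lam pe z) * u2 pe z * Θ ≤ 27 / 10 * pc * Real.exp (-27) / r := by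
    have hE0 : 0 < Real.exp (9 / 10 * pc * (lam pe z - L1)) := Real.exp_pos _
    have a1 : gW' (lam pe z) ≤ 27 / 10 * pc * Real.exp (9 / 10 * pc * (lam pe z - L1)) := by
      unfold gW'
      have : (max (1 - Real.exp (9 / 10 * pc * (lam pe z - L1))) 0) ^ 2 ≤ 1 :=
        pow_le_one₀ (le_max_right _ _) (max_le (by linarith) zero_le_one)
      have h2 : (max (1 - Real.exp (9 / 10 * pc * (lam pe z - L1))) 0) ^ 2 *
          Real.exp (9 / 10 * pc * (lam pe z - L1)) ≤
          1 * Real.exp (9 / 10 * pc * (lam pe z - L1)) := mul_le_mul_of_nonneg_right this hE0.le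
      calc 3 * (99 / 100 + 1 / 10 ^ 11) * (9 / 10 * pc) *
            ((max (1 - Real.exp (9 / 10 * pc * (lam pe z - L1))) 0) ^ 2 *
              Real.exp (9 / 10 * pc * (lam pe z - L1)))
          ≤ 3 * (99 / 100 + 1 / 10 ^ 11) * (9 / 10 * pc) *
            (1 * Real.exp (9 / 10 * pc * (lam pe z - L1))) :=
            mul_le_mul_of_nonneg_left h2 (by positivity)
        _ ≤ 3 * 1 * (9 / 10 * pc) * (1 * Real.exp (9 / 10 * pc * (lam pe z - L1))) := by
            gcongr; norm_num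
        _ = _ := by ring
    have a0 : 0 ≤ gW' (lam pe z) := by unfold gW'; positivity
    have a2 : u2 pe z = pe / r / r := by
      unfold u2
      rw [← hsq, hzdef]
      simp only [zero_add]
      rw [sq, div_div]
    have a3 : Real.exp (9 / 10 * pc * (lam pe z - L1)) * (pe / r) ≤ Real.exp (-27) := by
      rw [hr]
      unfold pe
      rw [← Real.exp_sub, ← Real.exp_add]
      apply Real.exp_le_exp.2
      have h1 : 0 ≤ lam pe z - L1 + 30 / pc := by linarith
      have h2 : 9 / 10 * pc * (30 / pc) = 27 := by field_simp; norm_num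
      have h3 : 0 ≤ 1 - 9 / 10 * pc := by unfold pc; norm_num
      change 9 / 10 * pc * (lam pe z - L1) + (L1 - 30 / pc - lam pe z) ≤ -27
      nlinarith [mul_nonneg h3 h1]
    have hu2 : 0 ≤ u2 pe z := (u2_pos pe_pos hz).le
    calc gW' (lam pe z) * u2 pe z * Θ ≤ gW' (lam pe z) * u2 pe z * 1 :=
          mul_le_mul_of_nonneg_left hT.2 (by positivity)
      _ = gW' (lam pe z) * u2 pe z := mul_one _
      _ ≤ 27 / 10 * pc * Real.exp (9 / 10 * pc * (lam pe z - L1)) * u2 pe z :=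
          mul_le_mul_of_nonneg_right a1 hu2
      _ = 27 / 10 * pc * (Real.exp (9 / 10 * pc * (lam pe z - L1)) * (pe / r)) / r := by
          rw [a2]; ring
      _ ≤ 27 / 10 * pc * Real.exp (-27) / r := by gcongr
  -- the second term
  have t2 : W * (-(95 / 100 * pc ^ 2 * tau pe z) * -(u1 pe z)) ≤
      W * (95 / 100 * pc ^ 2 * (Real.pi / 2)) / r := by
    have a1 : tau pe z * u1 pe z ≤ Real.pi / 2 / r := by
      have b1 : |tau pe z| ≤ Real.pi / 2 := (tau_abs z).le
      have b2 : |u1 pe z| ≤ 1 / r := by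
        unfold u1
        rw [abs_div, abs_of_pos hrr, ← hsq, sq, div_mul_eq_div_div]
        have := abs_x_le_exp hz
        have h3 : |z.1| / r ≤ 1 := (div_le_one hr0).2 this
        gcongr
      calc tau pe z * u1 pe z ≤ |tau pe z * u1 pe z| := le_abs_self _
        _ = |tau pe z| * |u1 pe z| := abs_mul _ _
        _ ≤ Real.pi / 2 * (1 / r) := mul_le_mul b1 b2 (abs_nonneg _) (by positivity)
        _ = Real.pi / 2 / r := by ring
    calc W * (-(95 / 100 * pc ^ 2 * tau pe z) * -(u1 pe z)) =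
          W * (95 / 100 * pc ^ 2) * (tau pe z * u1 pe z) := by ring
      _ ≤ W * (95 / 100 * pc ^ 2) * (Real.pi / 2 / r) :=
          mul_le_mul_of_nonneg_left a1 (by positivity)
      _ = _ := by ring
  -- the right-hand side
  have t3 : Real.pi * pc ^ 2 / 2 * (W * Θ) / r ≤ bet x * St z := by
    have a1 := sqrt_Pf_ge hz
    have : 0 ≤ W * Θ := St_nonneg z
    calc Real.pi * pc ^ 2 / 2 * (W * Θ) / r = Real.pi * pc / 2 * (pc / r) * (W * Θ) := by ring
      _ ≤ Real.pi * pc / 2 * Real.sqrt (Pf z) * (W * Θ) := by gcongr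
      _ = bet x * St z := rfl
  -- comparison
  have t4 : 27 / 10 * pc * Real.exp (-27) + W * (95 / 100 * pc ^ 2 * (Real.pi / 2)) ≤
      Real.pi * pc ^ 2 / 2 * (W * Θ) := by
    have a1 : Real.exp (-27) ≤ 1 / 10000000000 := by
      rw [Real.exp_neg, ← one_div]
      exact one_div_le_one_div_of_le (by norm_num) exp27
    have a2 : 27 / 10 * Real.exp (-27) ≤ pc * ((Real.pi / 2) * (W * (Θ - 95 / 100))) := by
      have h5 : (4 / 100 : ℝ) ≤ Θ - 95 / 100 := by
        have : (99 / 100 : ℝ) ≤ 1 - 2 / 10 ^ 12 := by norm_num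
        linarith [hT.1]
      have h6 : 1 / 100 * (4 / 100) ≤ W * (Θ - 95 / 100) :=
        mul_le_mul hW1 h5 (by norm_num) (by linarith)
      have h7 : 3 / 2 * (1 / 100 * (4 / 100)) ≤ (Real.pi / 2) * (W * (Θ - 95 / 100)) :=
        mul_le_mul (by linarith) h6 (by norm_num) (by positivity)
      have h8 : pc * (3 / 2 * (1 / 100 * (4 / 100))) ≤
          pc * ((Real.pi / 2) * (W * (Θ - 95 / 100))) := mul_le_mul_of_nonneg_left h7 hc.le
      have h9 : (27 / 10 * (1 / 10000000000) : ℝ) ≤ pc * (3 / 2 * (1 / 100 * (4 / 100))) := by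
        unfold pc; norm_num
      linarith
    have a3 := mul_le_mul_of_nonneg_left a2 hc.le
    nlinarith
  calc gW' (lam pe z) * u2 pe z * Θ + W * (-(95 / 100 * pc ^ 2 * tau pe z) * -(u1 pe z))
      ≤ 27 / 10 * pc * Real.exp (-27) / r + W * (95 / 100 * pc ^ 2 * (Real.pi / 2)) / r :=
        add_le_add t1 t2
    _ = (27 / 10 * pc * Real.exp (-27) + W * (95 / 100 * pc ^ 2 * (Real.pi / 2))) / r := by ring
    _ ≤ Real.pi * pc ^ 2 / 2 * (W * Θ) / r := by gcongr
    _ ≤ bet x * St z := t3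

/-- `St` is a supersolution -/
theorem St_super : ∃ Sx Sy Sxx Syy : ℝ × ℝ → ℝ, C2bar St Sx Sy Sxx Syy ∧
    (∀ z ∈ Hset, Pf z * fc (St z) ≤ -(Sxx z + Syy z)) ∧
    ∀ x, Sy (x, 0) ≤ bet x * St (x, 0) := by
  have hL := (c2_lam pe_pos).comp hasDerivAt_gW hasDerivAt_gW' continuous_gW''
  have hT := (c2_tau pe_pos).comp hasDerivAt_gT hasDerivAt_gT' continuous_const
  refine ⟨_, _, _, _, hL.mul hT, fun z hz => ?_, fun x => ?_⟩
  · have hzb := Hset_subset_Hbar hz
    refine (St_interior hzb).trans (le_of_eq ?_)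
    rw [← u_sq pe_pos hzb]
    ring
  · refine (le_of_eq ?_).trans (St_boundary x)
    ring

end Pool.Agent.Lib.MP_1dc5fb
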