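import Pool.Agent.Lib.MP_1dc5fb_an.Barrier1

/-!
Two subsolutions.
-/

set_option autoImplicit false

open MeasureTheory Set Filter Topology
open scoped BoundedContinuousFunction

namespace Pool.Agent.Lib.MP_1dc5fb

/-- angular part of the subsolution -/
noncomputable def h2 (t : ℝ) : ℝ := 19 / 20 - 9785 / 10000 * pc ^ 2 * t ^ 2 / 2
/-- a constant -/
noncomputable def kap : ℝ := Real.pi / 2 * (9785 / 10000) * pc ^ 2
/-- radial part of the subsolution -/
noncomputable def h3 (t : ℝ) : ℝ := -(kap / 2 * Real.log (1 + 4 * pc ^ 2 * Real.exp (-(2 * t))))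
/-- derivative of the radial part -/
noncomputable def h3' (t : ℝ) : ℝ := kap * (4 * pc ^ 2) / (Real.exp (2 * t) + 4 * pc ^ 2)
/-- second derivative of the radial part -/
noncomputable def h3'' (t : ℝ) : ℝ :=
  -(kap * (4 * pc ^ 2) * (Real.exp (2 * t) * 2)) / (Real.exp (2 * t) + 4 * pc ^ 2) ^ 2
/-- vertical part of the subsolution -/
noncomputable def h4 (t : ℝ) : ℝ := 3 * pc * (1 - Real.exp (-t))

lemma kap_pos : 0 < kap := by
  have := pc_pos
  have := Real.pi_pos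
  unfold kap; positivity

lemma hasDerivAt_h2 (t : ℝ) : HasDerivAt h2 (-(9785 / 10000 * pc ^ 2 * t)) t := by
  have h := ((((hasDerivAt_id t).pow 2).const_mul (9785 / 10000 * pc ^ 2)).div_const 2).const_sub
    (19 / 20)
  refine h.congr_deriv ?_
  simp
  ring

lemma hasDerivAt_h2' (t : ℝ) :
    HasDerivAt (fun t => -(9785 / 10000 * pc ^ 2 * t)) (-(9785 / 10000 * pc ^ 2)) t := by
  have h := ((hasDerivAt_id t).const_mul (9785 / 10000 * pc ^ 2)).neg
  exact h.congr_deriv (by simp)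

lemma hasDerivAt_h3 (t : ℝ) : HasDerivAt h3 (h3' t) t := by
  have hc := pc_pos
  have e1 : HasDerivAt (fun t : ℝ => Real.exp (-(2 * t))) (Real.exp (-(2 * t)) * (-2)) t := by
    have := (((hasDerivAt_id t).const_mul 2).neg).exp
    exact this.congr_deriv (by simp)
  have hp : 0 < Real.exp (-(2 * t)) := Real.exp_pos _
  have e2 := (((e1.const_mul (4 * pc ^ 2)).const_add 1).log (by positivity)).const_mul (kap / 2)
  refine e2.neg.congr_deriv ?_
  unfold h3'
  have e3 : Real.exp (2 * t) = (Real.exp (-(2 * t)))⁻¹ := by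
    rw [← Real.exp_neg, neg_neg]
  rw [e3]
  generalize Real.exp (-(2 * t)) = X at hp
  field_simp

lemma hasDerivAt_h3' (t : ℝ) : HasDerivAt h3' (h3'' t) t := by
  have hc := pc_pos
  have e1 : HasDerivAt (fun t : ℝ => Real.exp (2 * t)) (Real.exp (2 * t) * 2) t := by
    have := (((hasDerivAt_id t).const_mul 2)).exp
    exact this.congr_deriv (by simp)
  have hp : 0 < Real.exp (2 * t) := Real.exp_pos _
  have e2 := (hasDerivAt_const t (kap * (4 * pc ^ 2))).div (e1.add_const (4 * pc ^ 2))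
    (by positivity)
  refine e2.congr_deriv ?_
  unfold h3''
  ring

lemma continuous_h3'' : Continuous h3'' := by
  unfold h3''
  have hc := pc_pos
  refine Continuous.div (by fun_prop) (by fun_prop) fun t => ?_
  have hp : 0 < Real.exp (2 * t) := Real.exp_pos _
  positivity

lemma hasDerivAt_h4 (t : ℝ) : HasDerivAt h4 (3 * pc * Real.exp (-t)) t := by
  have := (((hasDerivAt_id t).neg.exp).const_sub 1).const_mul (3 * pc)
  exact this.congr_deriv (by simp)

lemma hasDerivAt_h4' (t : ℝ) :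
    HasDerivAt (fun t => 3 * pc * Real.exp (-t)) (-(3 * pc * Real.exp (-t))) t := by
  have := ((hasDerivAt_id t).neg.exp).const_mul (3 * pc)
  exact this.congr_deriv (by simp)

/-- the large subsolution -/
noncomputable def s2 (z : ℝ × ℝ) : ℝ := h2 (tau pe z) + h3 (lam pe z) + h4 z.2

lemma exp_two_lam {z : ℝ × ℝ} (hz : z ∈ Hbar) : Real.exp (2 * lam pe z) = rr pe z := by
  rw [← exp_lam_sq pe_pos hz, ← Real.exp_nat_mul]
  norm_num

lemma h2_bounds {t : ℝ} (h : |t| ≤ Real.pi / 2) : 19 / 20 - 1 / 10 ^ 11 ≤ h2 t ∧ h2 t ≤ 19 / 20 := by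
  have h1 : t ^ 2 ≤ 4 := by
    have h2 : |t| ≤ 2 := h.trans (by linarith [Real.pi_le_four])
    rw [← sq_abs]
    calc |t| ^ 2 ≤ 2 ^ 2 := pow_le_pow_left₀ (abs_nonneg _) h2 2
      _ = 4 := by norm_num
  have h2 := sq_nonneg t
  unfold MP_1dc5fb.h2 pc
  constructor <;> nlinarith

lemma kap_le : kap ≤ 155 / 100 * pc ^ 2 := by
  unfold kap
  have := Real.pi_lt_d2
  have := pc_pos
  have h : 0 < pc ^ 2 := by positivity
  nlinarith

lemma h3_nonpos (t : ℝ) : h3 t ≤ 0 := by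
  have hc := pc_pos
  have hp : 0 < Real.exp (-(2 * t)) := Real.exp_pos _
  have : 0 ≤ Real.log (1 + 4 * pc ^ 2 * Real.exp (-(2 * t))) := by
    apply Real.log_nonneg
    have : 0 ≤ 4 * pc ^ 2 * Real.exp (-(2 * t)) := by positivity
    linarith
  have := kap_pos
  unfold h3
  have : 0 ≤ kap / 2 * Real.log (1 + 4 * pc ^ 2 * Real.exp (-(2 * t))) := by positivity
  linarith

lemma h3_ge {t : ℝ} (h : L1 - 30 / pc ≤ t) : -(5 / 100000) ≤ h3 t := by
  have hc := pc_pos
  have e1 : Real.exp (-(2 * t)) ≤ (200 / pc) ^ 2 * Real.exp (60 / pc) := by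
    have a1 : Real.exp (-(2 * t)) ≤ Real.exp (2 * (-L1) + 60 / pc) := by
      apply Real.exp_le_exp.2
      have : 60 / pc = 2 * (30 / pc) := by ring
      rw [this]; linarith
    have a2 : Real.exp (2 * (-L1) + 60 / pc) = (200 / pc) ^ 2 * Real.exp (60 / pc) := by
      rw [Real.exp_add]
      congr 1
      have : Real.exp (2 * (-L1)) = Real.exp (-L1) ^ 2 := by
        rw [← Real.exp_nat_mul]; norm_num
      rw [this, Real.exp_neg, exp_L1]
      congr 1
      field_simp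
    rw [a2] at a1
    exact a1
  have e2 : 1 + 4 * pc ^ 2 * Real.exp (-(2 * t)) ≤ Real.exp (160000 + 60 / pc) := by
    have b1 : 4 * pc ^ 2 * Real.exp (-(2 * t)) ≤ 160000 * Real.exp (60 / pc) := by
      calc 4 * pc ^ 2 * Real.exp (-(2 * t)) ≤ 4 * pc ^ 2 * ((200 / pc) ^ 2 * Real.exp (60 / pc)) :=
            mul_le_mul_of_nonneg_left e1 (by positivity)
        _ = 160000 * Real.exp (60 / pc) := by field_simp; ring
    have b2 : 1 ≤ Real.exp (60 / pc) := Real.one_le_exp (by positivity)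
    have b3 : (160000 : ℝ) + 1 ≤ Real.exp 160000 := Real.add_one_le_exp _
    rw [Real.exp_add]
    calc 1 + 4 * pc ^ 2 * Real.exp (-(2 * t)) ≤ Real.exp (60 / pc) + 160000 * Real.exp (60 / pc) := by
          linarith
      _ = (160000 + 1) * Real.exp (60 / pc) := by ring
      _ ≤ Real.exp 160000 * Real.exp (60 / pc) := mul_le_mul_of_nonneg_right b3 (by positivity)
  have e3 : Real.log (1 + 4 * pc ^ 2 * Real.exp (-(2 * t))) ≤ 160000 + 60 / pc := by
    have hp : 0 < Real.exp (-(2 * t)) := Real.exp_pos _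
    have := Real.log_le_log (by positivity) e2
    rwa [Real.log_exp] at this
  have e4 := kap_le
  have e5 := kap_pos
  unfold h3
  have e6 : kap / 2 * Real.log (1 + 4 * pc ^ 2 * Real.exp (-(2 * t))) ≤
      155 / 100 * pc ^ 2 / 2 * (160000 + 60 / pc) := by
    calc kap / 2 * Real.log (1 + 4 * pc ^ 2 * Real.exp (-(2 * t)))
        ≤ kap / 2 * (160000 + 60 / pc) := mul_le_mul_of_nonneg_left e3 (by positivity)
      _ ≤ _ := mul_le_mul_of_nonneg_right (by linarith) (by positivity)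
  have e7 : 155 / 100 * pc ^ 2 / 2 * (160000 + 60 / pc) ≤ 5 / 100000 := by
    unfold pc; norm_num
  linarith

lemma h4_bounds {t : ℝ} (h : 0 ≤ t) : 0 ≤ h4 t ∧ h4 t ≤ 3 / 1000000 := by
  have h1 : Real.exp (-t) ≤ 1 := Real.exp_le_one_iff.2 (by linarith)
  have h2 := Real.exp_pos (-t)
  unfold h4 pc
  constructor <;> linarith

lemma s2_range {z : ℝ × ℝ} (hz : z ∈ Hbar) : |s2 z - 19 / 20| ≤ 1 / 10000 := by
  have a1 := h2_bounds (tau_abs (ε := pe) z).le
  have a2 := h3_nonpos (lam pe z)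
  have a3 := h3_ge (lam_ge hz)
  have a4 := h4_bounds (show 0 ≤ z.2 from hz)
  unfold s2
  rw [abs_le]
  constructor
  · have : (1 / 10 ^ 11 : ℝ) ≤ 1 / 100000 := by norm_num
    linarith [a1.1, a4.1]
  · linarith [a1.2, a4.2]

lemma s2_interior {z : ℝ × ℝ} (hz : z ∈ Hbar) :
    (9785 / 10000 * pc ^ 2 - h3'' (lam pe z)) * (1 / rr pe z) + 3 * pc * Real.exp (-z.2) ≤
      Pf z * fc (s2 z) := by
  have hrr := rr_pos pe_pos hz
  have hc := pc_pos
  have hcore := fc_core (s2_range hz)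
  have hu2 := u2_pos pe_pos hz
  have hK := kap_le
  have hK0 := kap_pos
  have e1 : -(h3'' (lam pe z)) * (1 / rr pe z) = 8 * kap * pc ^ 2 / (rr pe z + 4 * pc ^ 2) ^ 2 := by
    unfold h3''
    rw [exp_two_lam hz]
    field_simp
    ring
  have e2 : 8 * kap * pc ^ 2 / (rr pe z + 4 * pc ^ 2) ^ 2 ≤ 775 / 1000 := by
    rw [div_le_iff₀ (by positivity)]
    have a1 : (4 * pc ^ 2) ^ 2 ≤ (rr pe z + 4 * pc ^ 2) ^ 2 :=
      pow_le_pow_left₀ (by positivity) (by linarith) 2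
    have a2 : kap * pc ^ 2 ≤ 155 / 100 * pc ^ 2 * pc ^ 2 :=
      mul_le_mul_of_nonneg_right hK (by positivity)
    nlinarith
  have e3 : 3 * pc * Real.exp (-z.2) ≤ 3 / 1000000 := by
    have : Real.exp (-z.2) ≤ 1 := Real.exp_le_one_iff.2 (by have : 0 ≤ z.2 := hz; linarith)
    have h3 : 0 < Real.exp (-z.2) := Real.exp_pos _
    unfold pc
    linarith
  have e4 : (1 + pc ^ 2 / rr pe z) * (104 / 100) ≤ Pf z * fc (s2 z) := by
    refine mul_le_mul ?_ hcore (by norm_num) ?_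
    · unfold Pf
      have : 0 ≤ 2 * pc * u2 pe z := by positivity
      linarith
    · linarith [Pf_ge_one hz]
  have e5 : (9785 / 10000 * pc ^ 2 - h3'' (lam pe z)) * (1 / rr pe z) =
      9785 / 10000 * (pc ^ 2 / rr pe z) + -(h3'' (lam pe z)) * (1 / rr pe z) := by ring
  rw [e5, e1]
  have e6 : 0 ≤ pc ^ 2 / rr pe z := by positivity
  linarith

lemma exp_lam_eq {z : ℝ × ℝ} (hz : z ∈ Hbar) :
    Real.exp (lam pe z) = (z.2 + pe) * Real.sqrt (1 + (z.1 / (z.2 + pe)) ^ 2) := by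
  have hY := Y_pos pe_pos hz
  have h1 := exp_lam_sq pe_pos hz
  have h3 : ((z.2 + pe) * Real.sqrt (1 + (z.1 / (z.2 + pe)) ^ 2)) ^ 2 = rr pe z := by
    rw [mul_pow, Real.sq_sqrt (by positivity)]
    unfold rr
    field_simp
    ring
  have h4 : 0 < (z.2 + pe) * Real.sqrt (1 + (z.1 / (z.2 + pe)) ^ 2) := by positivity
  exact (pow_left_inj₀ (Real.exp_pos _).le h4.le (by norm_num)).1 (h1.trans h3.symm)

lemma cos_tau {z : ℝ × ℝ} (hz : z ∈ Hbar) :
    Real.cos (tau pe z) = (z.2 + pe) / Real.exp (lam pe z) := by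
  have hY := Y_pos pe_pos hz
  unfold tau
  rw [Real.cos_arctan, exp_lam_eq hz]
  field_simp

lemma sin_tau {z : ℝ × ℝ} (hz : z ∈ Hbar) :
    Real.sin (tau pe z) = z.1 / Real.exp (lam pe z) := by
  have hY := Y_pos pe_pos hz
  unfold tau
  rw [Real.sin_arctan, exp_lam_eq hz]
  field_simp

lemma sqrt_Pf_le {z : ℝ × ℝ} (hz : z ∈ Hbar) :
    Real.sqrt (Pf z) ≤ 1 + pc / Real.exp (lam pe z) := by
  have hc := pc_pos
  have hr : 0 < Real.exp (lam pe z) := Real.exp_pos _
  rw [Real.sqrt_le_iff]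
  refine ⟨by positivity, ?_⟩
  have h1 := exp_lam_sq pe_pos hz
  have h2 := Y_le_exp hz
  unfold Pf u2
  rw [← h1]
  have h3 : (z.2 + pe) / Real.exp (lam pe z) ^ 2 ≤ 1 / Real.exp (lam pe z) := by
    rw [div_le_div_iff₀ (by positivity) hr]
    nlinarith
  have h4 : 2 * pc * ((z.2 + pe) / Real.exp (lam pe z) ^ 2) ≤ 2 * pc * (1 / Real.exp (lam pe z)) :=
    mul_le_mul_of_nonneg_left h3 (by positivity)
  have h5 : (1 + pc / Real.exp (lam pe z)) ^ 2 = 1 + 2 * pc * (1 / Real.exp (lam pe z)) +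
      pc ^ 2 / Real.exp (lam pe z) ^ 2 := by field_simp; ring
  rw [h5]
  linarith

lemma bet_nonneg (x : ℝ) : 0 ≤ bet x := by
  have := pc_pos
  have := Real.pi_pos
  unfold bet
  positivity

lemma s2_boundary (x : ℝ) :
    bet x * s2 (x, 0) ≤ 9785 / 10000 * pc ^ 2 * tau pe (x, 0) * u1 pe (x, 0) +
      h3' (lam pe (x, 0)) * u2 pe (x, 0) + 3 * pc := by
  have hz : ((x, 0) : ℝ × ℝ) ∈ Hbar := le_refl (0 : ℝ)
  have hrr := rr_pos pe_pos hz
  have hc := pc_pos
  have hsq := exp_lam_sq pe_pos hz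
  have hcos := cos_tau hz
  have hsin := sin_tau hz
  have htrig := trig_ineq (tau_abs (ε := pe) (x, 0)).le
  have hsqrt := sqrt_Pf_le hz
  have htwo := exp_two_lam hz
  have a1 := h2_bounds (tau_abs (ε := pe) (x, 0)).le
  have a2 := h3_nonpos (lam pe (x, 0))
  have hK0 := kap_pos
  have hpi := Real.pi_pos
  have hpi2 := Real.pi_lt_d2
  have hs2 : s2 (x, 0) ≤ 19 / 20 := by
    have a4 : h4 (0 : ℝ) = 0 := by unfold h4; simp
    have : s2 (x, 0) = h2 (tau pe (x, 0)) + h3 (lam pe (x, 0)) + h4 0 := rfl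
    rw [this, a4]
    linarith [a1.2]
  set z : ℝ × ℝ := (x, 0) with hzdef
  set r := Real.exp (lam pe z) with hr
  have hr0 : 0 < r := Real.exp_pos _
  clear_value r
  -- left-hand side
  have l1 : bet x * s2 z ≤ Real.pi * pc / 2 * (1 + pc / r) * (19 / 20) := by
    calc bet x * s2 z ≤ bet x * (19 / 20) := mul_le_mul_of_nonneg_left hs2 (bet_nonneg x)
      _ = Real.pi * pc / 2 * Real.sqrt (Pf z) * (19 / 20) := rfl
      _ ≤ Real.pi * pc / 2 * (1 + pc / r) * (19 / 20) := by gcongr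
  -- right-hand side
  have e1 : u1 pe z = Real.sin (tau pe z) / r := by
    rw [hsin]; unfold u1; rw [← hsq, sq, div_div]
  have e2 : u2 pe z = Real.cos (tau pe z) / r := by
    rw [hcos]; unfold u2; rw [← hsq, sq, div_div]
  have hC1 : Real.cos (tau pe z) ≤ 1 := Real.cos_le_one _
  have hC0 : 0 ≤ Real.cos (tau pe z) := by
    rw [hcos]
    have := Y_pos pe_pos hz
    positivity
  have e3 : h3' (lam pe z) = kap * (4 * pc ^ 2 / (r ^ 2 + 4 * pc ^ 2)) := by
    unfold h3'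
    rw [htwo, hsq]
    ring
  have e4 : 1 - r / (4 * pc) ≤ 4 * pc ^ 2 / (r ^ 2 + 4 * pc ^ 2) := by
    rw [le_div_iff₀ (by positivity)]
    have : (1 - r / (4 * pc)) * (r ^ 2 + 4 * pc ^ 2) =
        4 * pc ^ 2 - r / (4 * pc) * ((r - 2 * pc) ^ 2) := by field_simp; ring
    rw [this]
    have : 0 ≤ r / (4 * pc) * ((r - 2 * pc) ^ 2) := by positivity
    linarith
  have e5 : kap * Real.cos (tau pe z) / r - kap / (4 * pc) ≤ h3' (lam pe z) * u2 pe z := by
    rw [e3, e2]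
    have b1 : kap * (1 - r / (4 * pc)) * (Real.cos (tau pe z) / r) ≤
        kap * (4 * pc ^ 2 / (r ^ 2 + 4 * pc ^ 2)) * (Real.cos (tau pe z) / r) := by gcongr
    have b2 : kap * (1 - r / (4 * pc)) * (Real.cos (tau pe z) / r) =
        kap * Real.cos (tau pe z) / r - kap / (4 * pc) * Real.cos (tau pe z) := by
      field_simp
    have b3 : kap / (4 * pc) * Real.cos (tau pe z) ≤ kap / (4 * pc) * 1 :=
      mul_le_mul_of_nonneg_left hC1 (by positivity)
    linarith
  have e6 : kap / r ≤ 9785 / 10000 * pc ^ 2 * tau pe z * u1 pe z + kap * Real.cos (tau pe z) / r := by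
    rw [e1]
    have b1 : 9785 / 10000 * pc ^ 2 * tau pe z * (Real.sin (tau pe z) / r) +
        kap * Real.cos (tau pe z) / r =
        kap / r * (2 / Real.pi * (tau pe z * Real.sin (tau pe z)) + Real.cos (tau pe z)) := by
      unfold kap
      field_simp
    rw [b1]
    have : 0 < kap / r := by positivity
    nlinarith
  have e7 : Real.pi * pc / 2 * (1 + pc / r) * (19 / 20) ≤ kap / r - kap / (4 * pc) + 3 * pc := by
    have b1 : kap / r = Real.pi / 2 * (9785 / 10000) * pc * (pc / r) := by unfold kap; ring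
    have b2 : kap / (4 * pc) = Real.pi / 2 * (9785 / 10000) * pc / 4 := by
      unfold kap; field_simp
    rw [b1, b2]
    have b3 : 0 ≤ Real.pi / 2 * pc * (pc / r) := by positivity
    nlinarith
  linarith

/-- `s2` is a subsolution -/
theorem s2_sub : ∃ Sx Sy Sxx Syy : ℝ × ℝ → ℝ, C2bar s2 Sx Sy Sxx Syy ∧
    (∀ z ∈ Hset, -(Sxx z + Syy z) ≤ Pf z * fc (s2 z)) ∧
    ∀ x, bet x * s2 (x, 0) ≤ Sy (x, 0) := by
  have hT := (c2_tau pe_pos).comp hasDerivAt_h2 hasDerivAt_h2' continuous_const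
  have hL := (c2_lam pe_pos).comp hasDerivAt_h3 hasDerivAt_h3' continuous_h3''
  have hY := C2bar.snd.comp hasDerivAt_h4 hasDerivAt_h4' (by fun_prop)
  refine ⟨_, _, _, _, (hT.add hL).add hY, fun z hz => ?_, fun x => ?_⟩
  · have hzb := Hset_subset_Hbar hz
    refine (le_of_eq ?_).trans (s2_interior hzb)
    rw [← u_sq pe_pos hzb]
    ring
  · refine (s2_boundary x).trans (le_of_eq ?_)
    simp only [neg_zero, Real.exp_zero]
    ring

/-- the compactly supported subsolution -/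
noncomputable def s1 (z : ℝ × ℝ) : ℝ := 1 / 2 * (max (qc (0, 23) 22 z) 0) ^ (0 + 3)

lemma s1_nonneg (z : ℝ × ℝ) : 0 ≤ s1 z := by
  unfold s1
  have : 0 ≤ max (qc (0, 23) 22 z) 0 := le_max_right _ _
  positivity

lemma s1_le (z : ℝ × ℝ) : s1 z ≤ 1 / 2 := by
  unfold s1
  have : (max (qc (0, 23) 22 z) 0) ^ (0 + 3) ≤ 1 :=
    pow_le_one₀ (le_max_right _ _) (max_le (qc_le_one _ _ _) zero_le_one)
  calc 1 / 2 * (max (qc (0, 23) 22 z) 0) ^ (0 + 3) ≤ 1 / 2 * 1 :=
        mul_le_mul_of_nonneg_left this (by norm_num)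
    _ = 1 / 2 := by norm_num

lemma s1_centre : s1 (0, 23) = 1 / 2 := by
  unfold s1 qc; norm_num

/-- `s1` is a subsolution -/
theorem s1_sub : ∃ Sx Sy Sxx Syy : ℝ × ℝ → ℝ, C2bar s1 Sx Sy Sxx Syy ∧
    (∀ z ∈ Hset, -(Sxx z + Syy z) ≤ Pf z * fc (s1 z)) ∧
    ∀ x, bet x * s1 (x, 0) ≤ Sy (x, 0) := by
  have hq := ((c2_qc (0, 23) 22).posPow 0).const_mul (1 / 2)
  refine ⟨_, _, _, _, hq, fun z hz => ?_, fun x => ?_⟩
  · have hzb := Hset_subset_Hbar hz
    have hlow := fc_low (s1_nonneg z) (s1_le z)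
    have hP := Pf_ge_one hzb
    have hfc := fc_nonneg (s1 z)
    refine le_trans ?_ (le_trans hlow (by nlinarith : fc (s1 z) ≤ Pf z * fc (s1 z)))
    rcases le_total (qc (0, 23) 22 z) 0 with h | h
    · rw [max_eq_right h]
      have : 0 ≤ 1 / 40 * s1 z := by have := s1_nonneg z; positivity
      simpa using this
    · have hs : s1 z = 1 / 2 * (qc (0, 23) 22 z) ^ 3 := by
        unfold s1; rw [max_eq_left h]
      rw [hs, max_eq_left h]
      have hq1 := qc_le_one (0, 23) 22 z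
      have hqe : (z.1 - 0) ^ 2 + (z.2 - 23) ^ 2 = 22 ^ 2 * (1 - qc (0, 23) 22 z) := by
        unfold qc; field_simp; ring
      set q := qc (0, 23) 22 z
      clear_value q
      simp only [Nat.cast_zero]
      have e : -(1 / 2 * ((0 + 3) * ((0 + 2) * q ^ (0 + 1) * -(2 * (z.1 - 0) / 22 ^ 2)) *
          -(2 * (z.1 - 0) / 22 ^ 2) + (0 + 3) * q ^ (0 + 2) * -(2 / 22 ^ 2)) +
          1 / 2 * ((0 + 3) * ((0 + 2) * q ^ (0 + 1) * -(2 * (z.2 - 23) / 22 ^ 2)) *
          -(2 * (z.2 - 23) / 22 ^ 2) + (0 + 3) * q ^ (0 + 2) * -(2 / 22 ^ 2))) =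
          -(1 / 2 * (24 * q * ((z.1 - 0) ^ 2 + (z.2 - 23) ^ 2) / 22 ^ 4 - 12 * q ^ 2 / 22 ^ 2)) := by
        ring
      refine (le_of_eq e).trans ?_
      rw [hqe]
      have e2 : -(1 / 2 * (24 * q * (22 ^ 2 * (1 - q)) / 22 ^ 4 - 12 * q ^ 2 / 22 ^ 2)) =
          1 / 968 * (q * (36 * q - 24)) := by ring
      rw [e2]
      have e3 : q * (36 * q - 24) ≤ 12 * q ^ 3 := by
        have : 0 ≤ q * ((1 - q) * (2 - q)) := by
          have h1 : 0 ≤ 1 - q := by linarith
          have h2 : 0 ≤ 2 - q := by linarith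
          positivity
        nlinarith
      have e4 : 0 ≤ q ^ 3 := by positivity
      linarith
  · have hb : qc (0, 23) 22 (x, 0) ≤ 0 := qc_bdry (by norm_num) (by norm_num) x
    unfold s1
    rw [max_eq_right hb]
    simp

end Pool.Agent.Lib.MP_1dc5fb
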