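import Pool.Agent.Lib.MP_1dc5fb_an.TwoSol

/-!
The conformal map of the half plane onto an epigraph.
-/

set_option autoImplicit false

open MeasureTheory Set Filter Topology

namespace Pool.Agent.Lib.MP_1dc5fb

/-- the conformal map -/
noncomputable def hm (z : ℝ × ℝ) : ℝ × ℝ := (z.1 + pc * tau pe z, z.2 + pc * lam pe z)

/-- squared Euclidean distance -/
def dsq (z w : ℝ × ℝ) : ℝ := (z.1 - w.1) ^ 2 + (z.2 - w.2) ^ 2

lemma dsq_nonneg (z w : ℝ × ℝ) : 0 ≤ dsq z w := by unfold dsq; positivity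

lemma mono_field {z w : ℝ × ℝ} (hz : z ∈ Hbar) (hw : w ∈ Hbar) :
    0 ≤ (tau pe z - tau pe w) * (z.1 - w.1) + (lam pe z - lam pe w) * (z.2 - w.2) := by
  set dx := z.1 - w.1 with hdx
  set dy := z.2 - w.2 with hdy
  have hz' : 0 ≤ z.2 := hz
  have hw' : 0 ≤ w.2 := hw
  set γ : ℝ → ℝ × ℝ := fun t => (w.1 + t * dx, w.2 + t * dy) with hγ
  have hmem : ∀ t ∈ Icc (0 : ℝ) 1, γ t ∈ Hbar := by
    intro t ht
    change 0 ≤ w.2 + t * dy
    have : w.2 + t * dy = (1 - t) * w.2 + t * z.2 := by rw [hdy]; ring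
    rw [this]
    have h1 : 0 ≤ 1 - t := by linarith [ht.2]
    have h2 := ht.1
    positivity
  have hγd : ∀ t, HasDerivAt γ (dx, dy) t := by
    intro t
    have h1 : HasDerivAt (fun t : ℝ => w.1 + t * dx) dx t := by
      have := ((hasDerivAt_id t).mul_const dx).const_add w.1
      exact this.congr_deriv (by simp)
    have h2 : HasDerivAt (fun t : ℝ => w.2 + t * dy) dy t := by
      have := ((hasDerivAt_id t).mul_const dy).const_add w.2
      exact this.congr_deriv (by simp)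
    exact h1.prodMk h2
  set g : ℝ → ℝ := fun t => tau pe (γ t) * dx + lam pe (γ t) * dy with hg
  have hgd : ∀ t ∈ Icc (0 : ℝ) 1, HasDerivAt g (u2 pe (γ t) * (dx ^ 2 + dy ^ 2)) t := by
    intro t ht
    have h1 := (hasFDerivAt_tau pe_pos (hmem t ht)).comp_hasDerivAt t (hγd t)
    have h2 := (hasFDerivAt_lam pe_pos (hmem t ht)).comp_hasDerivAt t (hγd t)
    refine ((h1.mul_const dx).add (h2.mul_const dy)).congr_deriv ?_
    simp only [lin_apply]
    ring
  have hmono : MonotoneOn g (Icc 0 1) := by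
    refine monotoneOn_of_deriv_nonneg (convex_Icc 0 1)
      (fun t ht => (hgd t ht).continuousAt.continuousWithinAt) ?_ ?_
    · intro t ht
      exact (hgd t (interior_subset ht)).differentiableAt.differentiableWithinAt
    · intro t ht
      rw [(hgd t (interior_subset ht)).deriv]
      have := u2_pos pe_pos (hmem t (interior_subset ht))
      positivity
  have h01 := hmono (left_mem_Icc.2 zero_le_one) (right_mem_Icc.2 zero_le_one) zero_le_one
  have e0 : γ 0 = w := by simp [hγ]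
  have e1 : γ 1 = z := by
    simp only [hγ, hdx, hdy]
    ext <;> simp
  simp only [hg, e0, e1] at h01
  linarith

lemma hm_mono {z w : ℝ × ℝ} (hz : z ∈ Hbar) (hw : w ∈ Hbar) :
    dsq z w ≤ ((hm z).1 - (hm w).1) * (z.1 - w.1) + ((hm z).2 - (hm w).2) * (z.2 - w.2) := by
  have h := mono_field hz hw
  have hc := pc_pos
  have h2 := mul_nonneg hc.le h
  unfold dsq hm
  simp only
  nlinarith

lemma hm_expand {z w : ℝ × ℝ} (hz : z ∈ Hbar) (hw : w ∈ Hbar) :
    dsq z w ≤ dsq (hm z) (hm w) := by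
  have h := hm_mono hz hw
  have hcs : (((hm z).1 - (hm w).1) * (z.1 - w.1) + ((hm z).2 - (hm w).2) * (z.2 - w.2)) ^ 2 ≤
      dsq (hm z) (hm w) * dsq z w := by
    unfold dsq
    nlinarith [sq_nonneg (((hm z).1 - (hm w).1) * (z.2 - w.2) - ((hm z).2 - (hm w).2) * (z.1 - w.1))]
  have h0 := dsq_nonneg z w
  have h1 : dsq z w ^ 2 ≤ dsq (hm z) (hm w) * dsq z w :=
    (pow_le_pow_left₀ h0 h 2).trans hcs
  rcases eq_or_lt_of_le h0 with h2 | h2
  · rw [← h2]; exact dsq_nonneg _ _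
  · nlinarith

lemma eq_of_dsq {z w : ℝ × ℝ} (h : dsq z w ≤ 0) : z = w := by
  unfold dsq at h
  have h1 : (z.1 - w.1) ^ 2 = 0 := by nlinarith [sq_nonneg (z.1 - w.1), sq_nonneg (z.2 - w.2)]
  have h2 : (z.2 - w.2) ^ 2 = 0 := by nlinarith [sq_nonneg (z.1 - w.1), sq_nonneg (z.2 - w.2)]
  have h3 : z.1 - w.1 = 0 := by simpa using h1
  have h4 : z.2 - w.2 = 0 := by simpa using h2
  ext <;> linarith

lemma hm_injOn : InjOn hm Hbar := by
  intro z hz w hw h
  have := hm_expand hz hw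
  rw [h] at this
  refine eq_of_dsq (this.trans ?_)
  unfold dsq; simp

lemma u1_le {z : ℝ × ℝ} (hz : z ∈ Hbar) : |u1 pe z| ≤ 1 / pe := by
  have hrr := rr_pos pe_pos hz
  have he := pe_pos
  have h0 : 0 ≤ z.2 := hz
  unfold u1
  rw [abs_div, abs_of_pos hrr, div_le_div_iff₀ hrr he]
  unfold rr
  nlinarith [sq_nonneg (|z.1| - pe), sq_abs z.1, abs_nonneg z.1]

lemma u2_le {z : ℝ × ℝ} (hz : z ∈ Hbar) : |u2 pe z| ≤ 1 / pe := by
  have hrr := rr_pos pe_pos hz
  have he := pe_pos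
  have h0 : 0 ≤ z.2 := hz
  rw [abs_of_pos (u2_pos he hz)]
  unfold u2
  rw [div_le_div_iff₀ hrr he]
  unfold rr
  nlinarith [sq_nonneg z.1]

lemma lam_lip {z w : ℝ × ℝ} (hz : z ∈ Hbar) (hw : w ∈ Hbar) :
    |lam pe z - lam pe w| ≤ 2 * (1 / pe) * ‖z - w‖ :=
  (c2_lam pe_pos).toC1bar.lip (fun z hz => ⟨u1_le (Hset_subset_Hbar hz),
    u2_le (Hset_subset_Hbar hz)⟩) hz hw

lemma norm_le_sqrt_dsq (z w : ℝ × ℝ) : ‖z - w‖ ≤ Real.sqrt (dsq z w) := by
  rw [Prod.norm_def]
  refine max_le ?_ ?_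
  · rw [Real.norm_eq_abs]
    refine Real.abs_le_sqrt ?_
    unfold dsq
    simp only [Prod.fst_sub]
    nlinarith [sq_nonneg (z.2 - w.2)]
  · rw [Real.norm_eq_abs]
    refine Real.abs_le_sqrt ?_
    unfold dsq
    simp only [Prod.snd_sub]
    nlinarith [sq_nonneg (z.1 - w.1)]

lemma exists_x (X y : ℝ) : ∃ x : ℝ, (hm (x, |y|)).1 = X := by
  have hc := pc_pos
  have hpi := Real.pi_le_four
  have hcont : Continuous (fun x : ℝ => (hm (x, |y|)).1) := by
    have : Continuous (fun x : ℝ => Real.arctan (x / (|y| + pe))) := by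
      have : |y| + pe ≠ 0 := by have := pe_pos; positivity
      fun_prop
    unfold hm tau
    fun_prop
  have hb : ∀ x : ℝ, |(hm (x, |y|)).1 - x| ≤ 2 * pc := by
    intro x
    have h1 := (tau_abs (ε := pe) (x, |y|)).le
    have : (hm (x, |y|)).1 - x = pc * tau pe (x, |y|) := by unfold hm; ring
    rw [this, abs_mul, abs_of_pos hc]
    nlinarith
  have h1 := (abs_le.1 (hb (X - 2 * pc))).2
  have h2 := (abs_le.1 (hb (X + 2 * pc))).1
  have := intermediate_value_Icc (a := X - 2 * pc) (b := X + 2 * pc) (by linarith)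
    hcont.continuousOn
  obtain ⟨x, -, hx⟩ := this (show X ∈ Icc _ _ from ⟨by linarith, by linarith⟩)
  exact ⟨x, hx⟩

/-- horizontal coordinate of the level curve -/
noncomputable def xi (X y : ℝ) : ℝ := (exists_x X y).choose

lemma xi_spec (X y : ℝ) : (hm (xi X y, |y|)).1 = X := (exists_x X y).choose_spec

/-- the function whose graph is the boundary -/
noncomputable def phi (X : ℝ) : ℝ := (hm (xi X 0, 0)).2

lemma xi_spec0 (X : ℝ) : (hm (xi X 0, 0)).1 = X := by
  have := xi_spec X 0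
  rwa [abs_zero] at this

lemma mem_bdry (x : ℝ) : ((x, 0) : ℝ × ℝ) ∈ Hbar := le_refl (0 : ℝ)
lemma mem_abs (x y : ℝ) : ((x, |y|) : ℝ × ℝ) ∈ Hbar := abs_nonneg y

lemma same_X {z w : ℝ × ℝ} (hz : z ∈ Hbar) (hw : w ∈ Hbar) (h : (hm z).1 = (hm w).1) :
    dsq z w ≤ ((hm z).2 - (hm w).2) * (z.2 - w.2) := by
  have := hm_mono hz hw
  rw [h] at this
  linarith

lemma phi_lt {z : ℝ × ℝ} (hz : z ∈ Hset) : phi (hm z).1 < (hm z).2 := by
  have hz' : 0 < z.2 := hz
  have h := same_X (Hset_subset_Hbar hz) (mem_bdry (xi (hm z).1 0)) (xi_spec0 _).symm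
  change dsq z (xi (hm z).1 0, 0) ≤ ((hm z).2 - phi (hm z).1) * (z.2 - 0) at h
  have h2 : z.2 ^ 2 ≤ dsq z (xi (hm z).1 0, 0) := by
    unfold dsq
    simp only [sub_zero]
    nlinarith [sq_nonneg (z.1 - xi (hm z).1 0)]
  nlinarith

lemma phi_eq (x : ℝ) : phi (hm (x, 0)).1 = (hm (x, 0)).2 := by
  have h := same_X (mem_bdry x) (mem_bdry (xi (hm (x, 0)).1 0)) (xi_spec0 _).symm
  have h2 : ((x, 0) : ℝ × ℝ) = (xi (hm (x, 0)).1 0, 0) := by
    refine eq_of_dsq (h.trans ?_)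
    simp
  unfold phi
  rw [← h2]

lemma phi_le {z : ℝ × ℝ} (hz : z ∈ Hbar) : phi (hm z).1 ≤ (hm z).2 := by
  have hz' : 0 ≤ z.2 := hz
  rcases eq_or_lt_of_le hz' with h | h
  · have : z = (z.1, 0) := by ext <;> simp [← h]
    rw [this]; exact (phi_eq z.1).le
  · exact (phi_lt h).le

/-- vertical coordinate along the level curve -/
lemma continuous_level (X : ℝ) : Continuous (fun y => (hm (xi X y, |y|)).2) := by
  have hc := pc_pos
  have he := pe_pos
  set K := 1 + 2 * pc / pe with hK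
  have hK0 : 0 < K := by positivity
  have key : ∀ y y' : ℝ, Real.sqrt (dsq (xi X y, |y|) (xi X y', |y'|)) ≤ K * |y - y'| := by
    intro y y'
    set z : ℝ × ℝ := (xi X y, |y|) with hz
    set w : ℝ × ℝ := (xi X y', |y'|) with hw
    have h := same_X (mem_abs (xi X y) y) (mem_abs (xi X y') y')
      ((xi_spec X y).trans (xi_spec X y').symm)
    rw [← hz, ← hw] at h
    have hl := lam_lip (mem_abs (xi X y) y) (mem_abs (xi X y') y')
    rw [← hz, ← hw] at hl
    set s := Real.sqrt (dsq z w) with hs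
    have hs0 : 0 ≤ s := Real.sqrt_nonneg _
    have hs2 : s ^ 2 = dsq z w := Real.sq_sqrt (dsq_nonneg _ _)
    have hn := norm_le_sqrt_dsq z w
    rw [← hs] at hn
    have hd : |z.2 - w.2| ≤ s := by
      have : ‖(z - w).2‖ ≤ ‖z - w‖ := norm_snd_le _
      rw [Real.norm_eq_abs] at this
      exact this.trans hn
    have hd2 : |z.2 - w.2| ≤ |y - y'| := abs_abs_sub_abs_le y y'
    have h3 : (hm z).2 - (hm w).2 = (z.2 - w.2) + pc * (lam pe z - lam pe w) := by
      unfold hm; ring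
    have h4 : |(hm z).2 - (hm w).2| ≤ s + pc * (2 * (1 / pe) * s) := by
      rw [h3]
      refine (abs_add_le _ _).trans (add_le_add hd ?_)
      rw [abs_mul, abs_of_pos hc]
      refine mul_le_mul_of_nonneg_left (hl.trans ?_) hc.le
      exact mul_le_mul_of_nonneg_left hn (by positivity)
    have h5 : s ^ 2 ≤ (s + pc * (2 * (1 / pe) * s)) * |y - y'| := by
      rw [hs2]
      refine h.trans ((le_abs_self _).trans ?_)
      rw [abs_mul]
      exact mul_le_mul h4 hd2 (abs_nonneg _) (by positivity)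
    have h6 : s + pc * (2 * (1 / pe) * s) = s * K := by rw [hK]; ring
    rw [h6] at h5
    rcases eq_or_lt_of_le hs0 with h7 | h7
    · rw [← h7]; positivity
    · have : s * s ≤ s * (K * |y - y'|) := by nlinarith
      exact le_of_mul_le_mul_left this h7
  have hlip : LipschitzWith (Real.toNNReal (K * (1 + 2 * pc / pe))) (fun y => (hm (xi X y, |y|)).2) := by
    refine LipschitzWith.of_dist_le_mul fun y y' => ?_
    rw [Real.dist_eq, Real.dist_eq, Real.coe_toNNReal _ (by positivity)]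
    have hk := key y y'
    set z : ℝ × ℝ := (xi X y, |y|) with hz
    set w : ℝ × ℝ := (xi X y', |y'|) with hw
    have hl := lam_lip (mem_abs (xi X y) y) (mem_abs (xi X y') y')
    rw [← hz, ← hw] at hl
    have hn := norm_le_sqrt_dsq z w
    have hd : |z.2 - w.2| ≤ Real.sqrt (dsq z w) := by
      have : ‖(z - w).2‖ ≤ ‖z - w‖ := norm_snd_le _
      rw [Real.norm_eq_abs] at this
      exact this.trans hn
    have h3 : (hm z).2 - (hm w).2 = (z.2 - w.2) + pc * (lam pe z - lam pe w) := by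
      unfold hm; ring
    rw [h3]
    calc |z.2 - w.2 + pc * (lam pe z - lam pe w)|
        ≤ |z.2 - w.2| + |pc * (lam pe z - lam pe w)| := abs_add_le _ _
      _ = |z.2 - w.2| + pc * |lam pe z - lam pe w| := by rw [abs_mul, abs_of_pos hc]
      _ ≤ Real.sqrt (dsq z w) + pc * (2 * (1 / pe) * Real.sqrt (dsq z w)) := by
          refine add_le_add hd (mul_le_mul_of_nonneg_left (hl.trans ?_) hc.le)
          exact mul_le_mul_of_nonneg_left hn (by positivity)
      _ = Real.sqrt (dsq z w) * (1 + 2 * pc / pe) := by ring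
      _ ≤ K * |y - y'| * (1 + 2 * pc / pe) := mul_le_mul_of_nonneg_right hk (by positivity)
      _ = K * (1 + 2 * pc / pe) * |y - y'| := by ring
  exact hlip.continuous

lemma hm_surj {w : ℝ × ℝ} (h : phi w.1 ≤ w.2) : ∃ z ∈ Hbar, hm z = w := by
  have hc := continuous_level w.1
  set b := w.2 - phi w.1 with hb
  have hb0 : 0 ≤ b := by linarith
  have e0 : (hm (xi w.1 0, |(0 : ℝ)|)).2 = phi w.1 := by rw [abs_zero]; rfl
  have e1 : w.2 ≤ (hm (xi w.1 b, |b|)).2 := by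
    have h1 := same_X (mem_abs (xi w.1 b) b) (mem_bdry (xi w.1 0))
      ((xi_spec w.1 b).trans (xi_spec0 w.1).symm)
    change dsq (xi w.1 b, |b|) (xi w.1 0, 0) ≤ ((hm (xi w.1 b, |b|)).2 - phi w.1) * (|b| - 0) at h1
    have h2 : b ^ 2 ≤ dsq (xi w.1 b, |b|) (xi w.1 0, 0) := by
      unfold dsq
      simp only [sub_zero, sq_abs]
      nlinarith [sq_nonneg (xi w.1 b - xi w.1 0)]
    rw [abs_of_nonneg hb0] at h1 ⊢
    rw [abs_of_nonneg hb0] at h2
    rcases eq_or_lt_of_le hb0 with h3 | h3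
    · rw [← h3]
      have := phi_le (mem_bdry (xi w.1 0))
      rw [xi_spec0] at this
      change phi w.1 ≤ phi w.1 at this
      change w.2 ≤ phi w.1
      linarith
    · nlinarith
  have := intermediate_value_Icc hb0 hc.continuousOn
  obtain ⟨y, hy, hy2⟩ := this (show w.2 ∈ Icc _ _ from ⟨by simp only [e0]; exact h, e1⟩)
  refine ⟨(xi w.1 y, |y|), mem_abs _ _, ?_⟩
  ext
  · exact xi_spec w.1 y
  · exact hy2

lemma phi_lip : LipschitzWith (Real.toNNReal (pc * (2 * (1 / pe)))) phi := by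
  have hc := pc_pos
  have he := pe_pos
  refine LipschitzWith.of_dist_le_mul fun X Y => ?_
  rw [Real.dist_eq, Real.dist_eq, Real.coe_toNNReal _ (by positivity)]
  have hl := lam_lip (mem_bdry (xi X 0)) (mem_bdry (xi Y 0))
  have h1 : |xi X 0 - xi Y 0| ≤ |X - Y| := by
    have h2 := hm_mono (mem_bdry (xi X 0)) (mem_bdry (xi Y 0))
    rw [xi_spec0, xi_spec0] at h2
    unfold dsq at h2
    simp only [sub_self, mul_zero, add_zero] at h2
    have h3 : |xi X 0 - xi Y 0| ^ 2 ≤ |X - Y| * |xi X 0 - xi Y 0| := by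
      rw [sq_abs, ← abs_mul]
      refine (le_trans ?_ (h2.trans (le_abs_self _)))
      simp
    rcases eq_or_lt_of_le (abs_nonneg (xi X 0 - xi Y 0)) with h4 | h4
    · rw [← h4]; positivity
    · nlinarith
  have h2 : ‖((xi X 0, 0) : ℝ × ℝ) - (xi Y 0, 0)‖ = |xi X 0 - xi Y 0| := by
    rw [Prod.norm_def]
    simp
  rw [h2] at hl
  have h3 : phi X - phi Y = pc * (lam pe (xi X 0, 0) - lam pe (xi Y 0, 0)) := by
    unfold phi hm; ring
  rw [h3, abs_mul, abs_of_pos hc]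
  calc pc * |lam pe (xi X 0, 0) - lam pe (xi Y 0, 0)|
      ≤ pc * (2 * (1 / pe) * |X - Y|) := by
        refine mul_le_mul_of_nonneg_left (hl.trans ?_) hc.le
        exact mul_le_mul_of_nonneg_left h1 (by positivity)
    _ = pc * (2 * (1 / pe)) * |X - Y| := by ring

/-- the epigraph -/
def Epi : Set (ℝ × ℝ) := {w | phi w.1 < w.2}
/-- the closed epigraph -/
def Epic : Set (ℝ × ℝ) := {w | phi w.1 ≤ w.2}

lemma isOpen_Epi : IsOpen Epi :=
  isOpen_lt (phi_lip.continuous.comp continuous_fst) continuous_snd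

lemma hm_image : hm '' Hset = Epi := by
  ext w
  constructor
  · rintro ⟨z, hz, rfl⟩
    exact phi_lt hz
  · intro hw
    have hw' : phi w.1 < w.2 := hw
    obtain ⟨z, hz, rfl⟩ := hm_surj hw'.le
    refine ⟨z, ?_, rfl⟩
    have hz' : 0 ≤ z.2 := hz
    rcases eq_or_lt_of_le hz' with h | h
    · exfalso
      have : z = (z.1, 0) := by ext <;> simp [← h]
      rw [this, phi_eq] at hw'
      exact lt_irrefl _ hw'
    · exact h

/-- the inverse map -/
noncomputable def jm : ℝ × ℝ → ℝ × ℝ := Function.invFunOn hm Hbar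

lemma jm_mem {w : ℝ × ℝ} (hw : w ∈ Epic) : jm w ∈ Hbar :=
  Function.invFunOn_mem (hm_surj hw)

lemma hm_jm {w : ℝ × ℝ} (hw : w ∈ Epic) : hm (jm w) = w :=
  Function.invFunOn_eq (hm_surj hw)

lemma Epi_subset : Epi ⊆ Epic := fun w hw =>
  (show phi w.1 ≤ w.2 from (show phi w.1 < w.2 from hw).le)

lemma jm_hm {z : ℝ × ℝ} (hz : z ∈ Hbar) : jm (hm z) = z :=
  hm_injOn (jm_mem (phi_le hz)) hz (hm_jm (phi_le hz))

lemma jm_mem_Hset {w : ℝ × ℝ} (hw : w ∈ Epi) : jm w ∈ Hset := by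
  rw [← hm_image] at hw
  obtain ⟨z, hz, rfl⟩ := hw
  rw [jm_hm (Hset_subset_Hbar hz)]
  exact hz

lemma jm_dsq {v w : ℝ × ℝ} (hv : v ∈ Epic) (hw : w ∈ Epic) : dsq (jm v) (jm w) ≤ dsq v w := by
  have := hm_expand (jm_mem hv) (jm_mem hw)
  rwa [hm_jm hv, hm_jm hw] at this

lemma sqrt_dsq_le (z w : ℝ × ℝ) : Real.sqrt (dsq z w) ≤ 2 * ‖z - w‖ := by
  rw [Real.sqrt_le_iff]
  refine ⟨by positivity, ?_⟩
  have h1 : |z.1 - w.1| ≤ ‖z - w‖ := norm_fst_le (z - w)
  have h2 : |z.2 - w.2| ≤ ‖z - w‖ := norm_snd_le (z - w)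
  have h3 : (z.1 - w.1) ^ 2 ≤ ‖z - w‖ ^ 2 := by
    rw [← sq_abs]; exact pow_le_pow_left₀ (abs_nonneg _) h1 2
  have h4 : (z.2 - w.2) ^ 2 ≤ ‖z - w‖ ^ 2 := by
    rw [← sq_abs]; exact pow_le_pow_left₀ (abs_nonneg _) h2 2
  unfold dsq
  nlinarith [sq_nonneg ‖z - w‖]

lemma jm_lip {v w : ℝ × ℝ} (hv : v ∈ Epic) (hw : w ∈ Epic) : ‖jm v - jm w‖ ≤ 2 * ‖v - w‖ :=
  (norm_le_sqrt_dsq _ _).trans ((Real.sqrt_le_sqrt (jm_dsq hv hw)).trans (sqrt_dsq_le _ _))

lemma continuousOn_jm : ContinuousOn jm Epic := by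
  have : LipschitzOnWith 2 jm Epic := by
    refine LipschitzOnWith.of_dist_le_mul fun v hv w hw => ?_
    rw [dist_eq_norm, dist_eq_norm]
    exact jm_lip hv hw
  exact this.continuousOn

lemma continuousAt_jm {w : ℝ × ℝ} (hw : w ∈ Epi) : ContinuousAt jm w :=
  (continuousOn_jm.mono Epi_subset).continuousAt (isOpen_Epi.mem_nhds hw)

/-! ### Derivatives -/

/-- the derivative of the conformal map -/
noncomputable def dh (p q : ℝ) : ℝ × ℝ →L[ℝ] ℝ × ℝ := (lin p (-q)).prod (lin q p)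

/-- the derivative of the inverse map -/
noncomputable def dhi (p q : ℝ) : ℝ × ℝ →L[ℝ] ℝ × ℝ :=
  (lin (p / (p ^ 2 + q ^ 2)) (q / (p ^ 2 + q ^ 2))).prod
    (lin (-(q / (p ^ 2 + q ^ 2))) (p / (p ^ 2 + q ^ 2)))

lemma hasFDerivAt_hm {z : ℝ × ℝ} (hz : z ∈ Hbar) :
    HasFDerivAt hm (dh (1 + pc * u2 pe z) (pc * u1 pe z)) z := by
  have h1 := (hasFDerivAt_fst (𝕜 := ℝ) (p := z)).add ((hasFDerivAt_tau pe_pos hz).const_mul pc)
  have h2 := (hasFDerivAt_snd (𝕜 := ℝ) (p := z)).add ((hasFDerivAt_lam pe_pos hz).const_mul pc)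
  refine (h1.prodMk h2).congr_fderiv ?_
  unfold dh
  ext <;> simp [lin]

/-- the derivative as an equivalence -/
noncomputable def dhe (p q : ℝ) (h : 0 < p ^ 2 + q ^ 2) : (ℝ × ℝ) ≃L[ℝ] (ℝ × ℝ) :=
  ContinuousLinearEquiv.equivOfInverse (dh p q) (dhi p q)
    (fun v => by
      unfold dh dhi
      ext
      · simp only [ContinuousLinearMap.prod_apply, lin_apply]
        field_simp
        ring
      · simp only [ContinuousLinearMap.prod_apply, lin_apply]
        field_simp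
        ring)
    (fun v => by
      unfold dh dhi
      ext
      · simp only [ContinuousLinearMap.prod_apply, lin_apply]
        field_simp
        ring
      · simp only [ContinuousLinearMap.prod_apply, lin_apply]
        field_simp
        ring)

lemma det_dh (p q : ℝ) : (dh p q).det = p ^ 2 + q ^ 2 := by
  have : dh p q = (Matrix.toLin (Module.Basis.finTwoProd ℝ) (Module.Basis.finTwoProd ℝ)
      !![p, -q; q, p]).toContinuousLinearMap := by
    ext <;> simp [dh, lin, Matrix.toLin_finTwoProd_apply]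
  rw [this, LinearMap.det_toContinuousLinearMap, LinearMap.det_toLin, Matrix.det_fin_two_of]
  ring

lemma Pf_eq {z : ℝ × ℝ} (hz : z ∈ Hbar) :
    Pf z = (1 + pc * u2 pe z) ^ 2 + (pc * u1 pe z) ^ 2 := by
  have h := u_sq pe_pos hz
  unfold Pf
  have : pc ^ 2 / rr pe z = pc ^ 2 * (1 / rr pe z) := by ring
  rw [this, ← h]
  ring

lemma hasFDerivAt_jm {w : ℝ × ℝ} (hw : w ∈ Epi) :
    HasFDerivAt jm (dhi (1 + pc * u2 pe (jm w)) (pc * u1 pe (jm w))) w := by
  have hz := jm_mem_Hset hw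
  have hzb := Hset_subset_Hbar hz
  have hpos : 0 < (1 + pc * u2 pe (jm w)) ^ 2 + (pc * u1 pe (jm w)) ^ 2 := by
    rw [← Pf_eq hzb]
    linarith [Pf_ge_one hzb]
  exact HasFDerivAt.of_local_left_inverse (f := hm) (f' := dhe _ _ hpos) (g := jm)
    (continuousAt_jm hw) (hasFDerivAt_hm hzb)
    (by filter_upwards [isOpen_Epi.mem_nhds hw] with v hv using hm_jm (Epi_subset hv))

end Pool.Agent.Lib.MP_1dc5fb
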