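import Pool.Agent.Lib.MP_1dc5fb_an.Positivity

/-!
Logarithmic polar coordinates centred below the half plane, and algebra of twice differentiable
functions.
-/

set_option autoImplicit false

open MeasureTheory Set Filter Topology

namespace Pool.Agent.Lib.MP_1dc5fb

namespace C2bar
variable {u ux uy uxx uyy v vx vy vxx vyy : ℝ × ℝ → ℝ}

lemma add (h1 : C2bar u ux uy uxx uyy) (h2 : C2bar v vx vy vxx vyy) :
    C2bar (fun z => u z + v z) (fun z => ux z + vx z) (fun z => uy z + vy z)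
      (fun z => uxx z + vxx z) (fun z => uyy z + vyy z) :=
  ⟨h1.toC1bar.add h2.toC1bar, h1.contxx.add h2.contxx, h1.contyy.add h2.contyy,
    fun z hz => (h1.dxx z hz).add (h2.dxx z hz), fun z hz => (h1.dyy z hz).add (h2.dyy z hz)⟩

lemma mul (h1 : C2bar u ux uy uxx uyy) (h2 : C2bar v vx vy vxx vyy) :
    C2bar (fun z => u z * v z) (fun z => ux z * v z + u z * vx z)
      (fun z => uy z * v z + u z * vy z)
      (fun z => (uxx z * v z + ux z * vx z) + (ux z * vx z + u z * vxx z))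
      (fun z => (uyy z * v z + uy z * vy z) + (uy z * vy z + u z * vyy z)) := by
  refine ⟨h1.toC1bar.mul h2.toC1bar, ?_, ?_, fun z hz => ?_, fun z hz => ?_⟩
  · exact ((h1.contxx.mul h2.cont).add (h1.contx.mul h2.contx)).add
      ((h1.contx.mul h2.contx).add (h1.cont.mul h2.contxx))
  · exact ((h1.contyy.mul h2.cont).add (h1.conty.mul h2.conty)).add
      ((h1.conty.mul h2.conty).add (h1.cont.mul h2.contyy))
  · exact ((h1.dxx z hz).mul (h2.toC1bar.hasDerivAt_x hz)).add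
      ((h1.toC1bar.hasDerivAt_x hz).mul (h2.dxx z hz))
  · exact ((h1.dyy z hz).mul (h2.toC1bar.hasDerivAt_y hz)).add
      ((h1.toC1bar.hasDerivAt_y hz).mul (h2.dyy z hz))

lemma comp {g g' g'' : ℝ → ℝ} (hg : ∀ x, HasDerivAt g (g' x) x)
    (hg' : ∀ x, HasDerivAt g' (g'' x) x) (hg'' : Continuous g'') (h1 : C2bar u ux uy uxx uyy) :
    C2bar (fun z => g (u z)) (fun z => g' (u z) * ux z) (fun z => g' (u z) * uy z)
      (fun z => (g'' (u z) * ux z) * ux z + g' (u z) * uxx z)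
      (fun z => (g'' (u z) * uy z) * uy z + g' (u z) * uyy z) := by
  have cg' : Continuous g' := continuous_iff_continuousAt.2 fun x => (hg' x).continuousAt
  refine ⟨h1.toC1bar.comp hg cg', ?_, ?_, fun z hz => ?_, fun z hz => ?_⟩
  · exact (((hg''.comp_continuousOn h1.cont).mul h1.contx).mul h1.contx).add
      ((cg'.comp_continuousOn h1.cont).mul h1.contxx)
  · exact (((hg''.comp_continuousOn h1.cont).mul h1.conty).mul h1.conty).add
      ((cg'.comp_continuousOn h1.cont).mul h1.contyy)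
  · have a := (hg' (u (z.1, z.2))).comp z.1 (h1.toC1bar.hasDerivAt_x hz)
    exact a.mul (h1.dxx z hz)
  · have a := (hg' (u (z.1, z.2))).comp z.2 (h1.toC1bar.hasDerivAt_y hz)
    exact a.mul (h1.dyy z hz)

lemma fst : C2bar (fun z => z.1) (fun _ => 1) (fun _ => 0) (fun _ => 0) (fun _ => 0) :=
  ⟨C1bar.fst, continuousOn_const, continuousOn_const, fun z _ => hasDerivAt_const _ _,
    fun z _ => hasDerivAt_const _ _⟩

lemma snd : C2bar (fun z => z.2) (fun _ => 0) (fun _ => 1) (fun _ => 0) (fun _ => 0) :=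
  ⟨C1bar.snd, continuousOn_const, continuousOn_const, fun z _ => hasDerivAt_const _ _,
    fun z _ => hasDerivAt_const _ _⟩

end C2bar

section coord
variable (ε : ℝ)

/-- squared distance to the pole -/
noncomputable def rr (z : ℝ × ℝ) : ℝ := z.1 ^ 2 + (z.2 + ε) ^ 2
/-- logarithm of the distance to the pole -/
noncomputable def lam (z : ℝ × ℝ) : ℝ := Real.log (rr ε z) / 2
/-- angle with the vertical -/
noncomputable def tau (z : ℝ × ℝ) : ℝ := Real.arctan (z.1 / (z.2 + ε))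
/-- first derivatives of the coordinates -/
noncomputable def u1 (z : ℝ × ℝ) : ℝ := z.1 / rr ε z
/-- first derivatives of the coordinates -/
noncomputable def u2 (z : ℝ × ℝ) : ℝ := (z.2 + ε) / rr ε z

variable {ε}

lemma Y_pos (hε : 0 < ε) {z : ℝ × ℝ} (hz : z ∈ Hbar) : 0 < z.2 + ε := by
  have : 0 ≤ z.2 := hz
  linarith

lemma rr_pos (hε : 0 < ε) {z : ℝ × ℝ} (hz : z ∈ Hbar) : 0 < rr ε z := by
  have := Y_pos hε hz
  unfold rr
  positivity

lemma rr_ge (hε : 0 < ε) {z : ℝ × ℝ} (hz : z ∈ Hbar) : ε ^ 2 ≤ rr ε z := by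
  have h0 : 0 ≤ z.2 := hz
  unfold rr
  nlinarith [sq_nonneg z.1]

lemma hasFDerivAt_rr (z : ℝ × ℝ) : HasFDerivAt (rr ε) (lin (2 * z.1) (2 * (z.2 + ε))) z := by
  have a := (hasFDerivAt_fst (𝕜 := ℝ) (p := z)).pow 2
  have b := ((hasFDerivAt_snd (𝕜 := ℝ) (p := z)).add_const ε).pow 2
  refine ((a.add b).congr_fderiv ?_).congr_of_eventuallyEq (Eventually.of_forall fun _ => rfl)
  ext <;> simp [lin] <;> ring

lemma continuous_rr : Continuous (rr ε) := by unfold rr; fun_prop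

lemma hasDerivAt_rr_x (z : ℝ × ℝ) : HasDerivAt (fun x => rr ε (x, z.2)) (2 * z.1) z.1 := by
  unfold rr
  refine (((hasDerivAt_id z.1).pow 2).add_const ((z.2 + ε) ^ 2)).congr_deriv ?_
  simp

lemma hasDerivAt_rr_y (z : ℝ × ℝ) : HasDerivAt (fun y => rr ε (z.1, y)) (2 * (z.2 + ε)) z.2 := by
  unfold rr
  refine ((((hasDerivAt_id z.2).add_const ε).pow 2).const_add (z.1 ^ 2)).congr_deriv ?_
  simp

lemma continuousOn_u1 (hε : 0 < ε) : ContinuousOn (u1 ε) Hbar := by
  unfold u1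
  exact continuousOn_fst.div continuous_rr.continuousOn fun z hz => (rr_pos hε hz).ne'

lemma continuousOn_u2 (hε : 0 < ε) : ContinuousOn (u2 ε) Hbar := by
  unfold u2
  exact (continuousOn_snd.add continuousOn_const).div continuous_rr.continuousOn
    fun z hz => (rr_pos hε hz).ne'

lemma hasFDerivAt_lam (hε : 0 < ε) {z : ℝ × ℝ} (hz : z ∈ Hbar) :
    HasFDerivAt (lam ε) (lin (u1 ε z) (u2 ε z)) z := by
  have hne := (rr_pos hε hz).ne'
  have h := ((hasFDerivAt_rr (ε := ε) z).log hne).mul_const (1 / 2)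
  refine (h.congr_fderiv ?_).congr_of_eventuallyEq (Eventually.of_forall fun w => ?_)
  · ext <;> simp [lin, u1, u2] <;> field_simp
  · simp only [lam]; ring

lemma hasFDerivAt_tau (hε : 0 < ε) {z : ℝ × ℝ} (hz : z ∈ Hbar) :
    HasFDerivAt (tau ε) (lin (u2 ε z) (-(u1 ε z))) z := by
  have hY := Y_pos hε hz
  have hne := (rr_pos hε hz).ne'
  have hi : HasFDerivAt (fun w : ℝ × ℝ => (w.2 + ε)⁻¹)
      ((-((z.2 + ε) ^ 2)⁻¹) • ContinuousLinearMap.snd ℝ ℝ ℝ) z :=
    (hasDerivAt_inv hY.ne').comp_hasFDerivAt z ((hasFDerivAt_snd (𝕜 := ℝ) (p := z)).add_const ε)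
  have h := ((hasFDerivAt_fst (𝕜 := ℝ) (p := z)).mul hi).arctan
  have hr : rr ε z = (z.2 + ε) ^ 2 * (1 + (z.1 * (z.2 + ε)⁻¹) ^ 2) := by
    unfold rr; field_simp; ring
  refine (h.congr_fderiv ?_).congr_of_eventuallyEq (Eventually.of_forall fun w => ?_)
  · have hp : (1 + (z.1 * (z.2 + ε)⁻¹) ^ 2) ≠ 0 := by positivity
    ext <;> simp [lin, u1, u2, hr] <;> field_simp
  · simp only [tau, div_eq_mul_inv]
    rfl

lemma c2_lam (hε : 0 < ε) : C2bar (lam ε) (u1 ε) (u2 ε) (fun z => u2 ε z ^ 2 - u1 ε z ^ 2)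
    (fun z => u1 ε z ^ 2 - u2 ε z ^ 2) := by
  have h1 := continuousOn_u1 hε
  have h2 := continuousOn_u2 hε
  refine ⟨⟨fun z hz => (hasFDerivAt_lam hε hz).continuousAt.continuousWithinAt, h1, h2,
    fun z hz => hasFDerivAt_lam hε (Hset_subset_Hbar hz)⟩, (h2.pow 2).sub (h1.pow 2),
    (h1.pow 2).sub (h2.pow 2), fun z hz => ?_, fun z hz => ?_⟩
  · have hne := (rr_pos hε (Hset_subset_Hbar hz)).ne'
    refine ((hasDerivAt_id z.1).div (hasDerivAt_rr_x (ε := ε) z) hne).congr_deriv ?_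
    simp only [u1, u2, id]
    have : rr ε z = z.1 ^ 2 + (z.2 + ε) ^ 2 := rfl
    field_simp
    rw [this]
    ring
  · have hne := (rr_pos hε (Hset_subset_Hbar hz)).ne'
    refine (((hasDerivAt_id z.2).add_const ε).div (hasDerivAt_rr_y (ε := ε) z) hne).congr_deriv ?_
    simp only [u1, u2, id]
    have : rr ε z = z.1 ^ 2 + (z.2 + ε) ^ 2 := rfl
    field_simp
    rw [this]
    ring

lemma c2_tau (hε : 0 < ε) : C2bar (tau ε) (u2 ε) (fun z => -(u1 ε z))
    (fun z => -(2 * u1 ε z * u2 ε z)) (fun z => 2 * u1 ε z * u2 ε z) := by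
  have h1 := continuousOn_u1 hε
  have h2 := continuousOn_u2 hε
  refine ⟨⟨fun z hz => (hasFDerivAt_tau hε hz).continuousAt.continuousWithinAt, h2, h1.neg,
    fun z hz => hasFDerivAt_tau hε (Hset_subset_Hbar hz)⟩,
    ((continuousOn_const.mul h1).mul h2).neg, (continuousOn_const.mul h1).mul h2,
    fun z hz => ?_, fun z hz => ?_⟩
  · have hne := (rr_pos hε (Hset_subset_Hbar hz)).ne'
    refine ((hasDerivAt_const z.1 (z.2 + ε)).div (hasDerivAt_rr_x (ε := ε) z) hne).congr_deriv ?_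
    simp only [u1, u2]
    have : rr ε z = z.1 ^ 2 + (z.2 + ε) ^ 2 := rfl
    field_simp
    ring
  · have hne := (rr_pos hε (Hset_subset_Hbar hz)).ne'
    refine (((hasDerivAt_const z.2 z.1).div (hasDerivAt_rr_y (ε := ε) z) hne).neg).congr_deriv ?_
    simp only [u1, u2]
    have : rr ε z = z.1 ^ 2 + (z.2 + ε) ^ 2 := rfl
    field_simp
    ring

lemma u_sq (hε : 0 < ε) {z : ℝ × ℝ} (hz : z ∈ Hbar) : u1 ε z ^ 2 + u2 ε z ^ 2 = 1 / rr ε z := by
  have hne := (rr_pos hε hz).ne'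
  simp only [u1, u2]
  have : rr ε z = z.1 ^ 2 + (z.2 + ε) ^ 2 := rfl
  field_simp
  rw [this]

lemma u2_pos (hε : 0 < ε) {z : ℝ × ℝ} (hz : z ∈ Hbar) : 0 < u2 ε z :=
  div_pos (Y_pos hε hz) (rr_pos hε hz)

lemma tau_abs (z : ℝ × ℝ) : |tau ε z| < Real.pi / 2 := by
  rw [abs_lt]
  constructor
  · have := Real.neg_pi_div_two_lt_arctan (z.1 / (z.2 + ε))
    unfold tau; linarith
  · exact Real.arctan_lt_pi_div_two _

/-- `exp λ` is the distance to the pole -/
lemma exp_lam_sq (hε : 0 < ε) {z : ℝ × ℝ} (hz : z ∈ Hbar) : Real.exp (lam ε z) ^ 2 = rr ε z := by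
  have := rr_pos hε hz
  rw [← Real.exp_nat_mul]
  unfold lam
  rw [show ((2 : ℕ) : ℝ) * (Real.log (rr ε z) / 2) = Real.log (rr ε z) by push_cast; ring,
    Real.exp_log this]

end coord

end Pool.Agent.Lib.MP_1dc5fb
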