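import Mathlib

/-!
The one-dimensional Hausdorff measure on an injective continuously differentiable curve.
-/

set_option autoImplicit false

open MeasureTheory Set Filter Topology
open scoped ENNReal NNReal

namespace Pool.Agent.Lib.MP_1dc5fb

section
variable {E : Type*} [NormedAddCommGroup E] [InnerProductSpace ℝ E] [MeasurableSpace E]
  [BorelSpace E] {γ γ' : ℝ → E}

lemma curve_upper (hγ : ∀ t, HasDerivAt γ (γ' t) t) {s t C : ℝ} (hC0 : 0 ≤ C)
    (hC : ∀ x ∈ Icc s t, ‖γ' x‖ ≤ C) :
    (Measure.hausdorffMeasure 1 : Measure E) (γ '' Ioc s t) ≤ ENNReal.ofReal (C * (t - s)) := by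
  have hL : LipschitzOnWith (Real.toNNReal C) γ (Icc s t) := by
    refine (convex_Icc s t).lipschitzOnWith_of_nnnorm_hasDerivWithin_le
      (fun x _ => (hγ x).hasDerivWithinAt) fun x hx => ?_
    rw [← NNReal.coe_le_coe, coe_nnnorm, Real.coe_toNNReal _ hC0]
    exact hC x hx
  have h := (hL.mono Ioc_subset_Icc_self).hausdorffMeasure_image_le (d := 1) zero_le_one
  rw [ENNReal.rpow_one, hausdorffMeasure_real, Real.volume_Ioc] at h
  rw [ENNReal.ofReal_mul hC0]
  exact h

lemma curve_lower (hcont : Continuous γ) {e : E} (he : ‖e‖ ≤ 1) {s t : ℝ} (hst : s ≤ t) :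
    ENNReal.ofReal (inner ℝ e (γ t) - inner ℝ e (γ s)) ≤
      (Measure.hausdorffMeasure 1 : Measure E) (γ '' Ioc s t) := by
  have hp : LipschitzWith 1 (fun x : E => inner ℝ e x) := by
    refine LipschitzWith.of_dist_le_mul fun x y => ?_
    rw [Real.dist_eq, dist_eq_norm, ← inner_sub_right]
    refine (abs_real_inner_le_norm _ _).trans ?_
    exact mul_le_mul_of_nonneg_right he (norm_nonneg _)
  have h := hp.hausdorffMeasure_image_le (d := 1) zero_le_one (γ '' Ioc s t)
  rw [ENNReal.coe_one, ENNReal.one_rpow, one_mul, hausdorffMeasure_real] at h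
  refine le_trans ?_ h
  have hsub : Ioc (inner ℝ e (γ s)) (inner ℝ e (γ t)) ⊆
      (fun x : E => inner ℝ e x) '' (γ '' Ioc s t) := by
    rw [image_image]
    exact intermediate_value_Ioc hst (hp.continuous.comp hcont).continuousOn
  calc ENNReal.ofReal (inner ℝ e (γ t) - inner ℝ e (γ s))
      = volume (Ioc (inner ℝ e (γ s)) (inner ℝ e (γ t))) := (Real.volume_Ioc).symm
    _ ≤ _ := measure_mono hsub

theorem comap_hausdorff (hγ : ∀ t, HasDerivAt γ (γ' t) t) (hc : Continuous γ')
    (hinj : Function.Injective γ) :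
    Measure.comap γ (Measure.hausdorffMeasure 1 : Measure E) =
      volume.withDensity (fun t => ENNReal.ofReal ‖γ' t‖) := by
  have hcont : Continuous γ := continuous_iff_continuousAt.2 fun t => (hγ t).continuousAt
  have hme : MeasurableEmbedding γ := hcont.measurableEmbedding hinj
  set ν := Measure.comap γ (Measure.hausdorffMeasure 1 : Measure E) with hν
  have hνa : ∀ s t : ℝ, ν (Ioc s t) = (Measure.hausdorffMeasure 1 : Measure E) (γ '' Ioc s t) :=
    fun s t => hme.comap_apply _ _
  have bd : ∀ a b : ℝ, ∃ C : ℝ, 0 ≤ C ∧ ∀ x ∈ Icc a b, ‖γ' x‖ ≤ C := by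
    intro a b
    obtain ⟨C, hC⟩ := (isCompact_Icc (a := a) (b := b)).exists_bound_of_continuousOn hc.continuousOn
    exact ⟨max C 0, le_max_right _ _, fun x hx => (hC x hx).trans (le_max_left _ _)⟩
  have hfin : ∀ s t : ℝ, ν (Ioc s t) ≠ ∞ := by
    intro s t
    obtain ⟨C, hC0, hC⟩ := bd s t
    rw [hνa]
    exact ne_top_of_le_ne_top ENNReal.ofReal_ne_top (curve_upper hγ hC0 hC)
  refine Measure.ext_of_Ioc' _ _ (fun a b _ => hfin a b) fun a b hab => ?_
  -- the distribution function
  set G : ℝ → ℝ := fun t => (ν (Ioc a t)).toReal with hG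
  have Gsub : ∀ s t, a ≤ s → s ≤ t → G t - G s = (ν (Ioc s t)).toReal := by
    intro s t has hst
    have h1 : ν (Ioc a t) = ν (Ioc a s) + ν (Ioc s t) := by
      rw [← Ioc_union_Ioc_eq_Ioc has hst]
      exact measure_union (Ioc_disjoint_Ioc_of_le le_rfl) measurableSet_Ioc
    simp only [hG]
    rw [h1, ENNReal.toReal_add (hfin _ _) (hfin _ _)]
    ring
  have Gup : ∀ s t C, a ≤ s → s ≤ t → 0 ≤ C → (∀ x ∈ Icc s t, ‖γ' x‖ ≤ C) →
      G t - G s ≤ C * (t - s) := by
    intro s t C has hst hC0 hC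
    rw [Gsub s t has hst, hνa]
    refine ENNReal.toReal_le_of_le_ofReal (mul_nonneg hC0 (by linarith)) ?_
    exact curve_upper hγ hC0 hC
  have Glow : ∀ (s t : ℝ) (e : E), a ≤ s → s ≤ t → ‖e‖ ≤ 1 →
      inner ℝ e (γ t) - inner ℝ e (γ s) ≤ G t - G s := by
    intro s t e has hst he
    rw [Gsub s t has hst]
    have h1 := curve_lower hcont he hst
    rw [← hνa] at h1
    exact (ENNReal.ofReal_le_iff_le_toReal (hfin s t)).1 h1
  have Gmono : ∀ s t, a ≤ s → s ≤ t → 0 ≤ G t - G s := by
    intro s t has hst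
    rw [Gsub s t has hst]; exact ENNReal.toReal_nonneg
  have Gcont : ContinuousOn G (Icc a b) := by
    obtain ⟨C, hC0, hC⟩ := bd a b
    have : LipschitzOnWith (Real.toNNReal C) G (Icc a b) := by
      refine LipschitzOnWith.of_dist_le_mul fun s hs t ht => ?_
      rw [Real.coe_toNNReal _ hC0, Real.dist_eq, Real.dist_eq]
      rcases le_total s t with h | h
      · rw [abs_sub_comm, abs_of_nonneg (Gmono s t hs.1 h), abs_sub_comm,
          abs_of_nonneg (by linarith : 0 ≤ t - s)]
        exact Gup s t C hs.1 h hC0 fun x hx => hC x ⟨hs.1.trans hx.1, hx.2.trans ht.2⟩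
      · rw [abs_of_nonneg (Gmono t s ht.1 h), abs_of_nonneg (by linarith : 0 ≤ s - t)]
        exact Gup t s C ht.1 h hC0 fun x hx => hC x ⟨ht.1.trans hx.1, hx.2.trans hs.2⟩
    exact this.continuousOn
  have Gder : ∀ x ∈ Ioo a b, HasDerivWithinAt G ‖γ' x‖ (Ioi x) x := by
    intro x hx
    rw [hasDerivWithinAt_iff_tendsto_slope' (by simp : x ∉ Ioi x)]
    refine tendsto_order.2 ⟨fun c hcx => ?_, fun c hcx => ?_⟩
    · set e : E := ‖γ' x‖⁻¹ • γ' x with he
      have he1 : ‖e‖ ≤ 1 := by
        rw [he, norm_smul, norm_inv, norm_norm]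
        rcases eq_or_ne ‖γ' x‖ 0 with h | h
        · rw [h]; simp
        · rw [inv_mul_cancel₀ h]
      have hd : HasDerivAt (fun t => inner ℝ e (γ t)) (inner ℝ e (γ' x)) x := by
        have := (hasDerivAt_const x e).inner ℝ (hγ x)
        simpa using this
      have hin : inner ℝ e (γ' x) = ‖γ' x‖ := by
        rw [he, real_inner_smul_left, real_inner_self_eq_norm_sq]
        rcases eq_or_ne ‖γ' x‖ 0 with h | h
        · rw [h]; simp
        · field_simp
      rw [hin] at hd
      have hs := (hasDerivWithinAt_iff_tendsto_slope' (by simp : x ∉ Ioi x)).1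
        (hd.hasDerivWithinAt (s := Ioi x))
      filter_upwards [hs.eventually (lt_mem_nhds hcx), self_mem_nhdsWithin] with t ht htx
      refine ht.trans_le ?_
      rw [slope_def_field, slope_def_field]
      have htx' : x < t := htx
      exact div_le_div_of_nonneg_right (Glow x t e hx.1.le htx'.le he1) (by linarith)
    · obtain ⟨C, hC1, hC2⟩ := exists_between hcx
      have hC0 : 0 ≤ C := (norm_nonneg _).trans hC1.le
      have hev : ∀ᶠ y in 𝓝 x, ‖γ' y‖ < C := hc.norm.continuousAt.eventually (gt_mem_nhds hC1)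
      obtain ⟨δ, hδ, hball⟩ := Metric.eventually_nhds_iff.1 hev
      have hI : Ioo x (x + δ) ∈ 𝓝[>] x := Ioo_mem_nhdsGT (by linarith)
      filter_upwards [hI] with t ht
      rw [slope_def_field]
      refine lt_of_le_of_lt ?_ hC2
      rw [div_le_iff₀ (by linarith [ht.1])]
      refine Gup x t C hx.1.le ht.1.le hC0 fun y hy => (hball ?_).le
      rw [Real.dist_eq, abs_of_nonneg (by linarith [hy.1])]
      linarith [hy.2, ht.2]
  have hint : IntervalIntegrable (fun x => ‖γ' x‖) volume a b := hc.norm.intervalIntegrable a b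
  have ftc := intervalIntegral.integral_eq_sub_of_hasDeriv_right_of_le hab.le Gcont Gder hint
  have hGa : G a = 0 := by simp [hG]
  rw [hGa, sub_zero, intervalIntegral.integral_of_le hab.le] at ftc
  rw [withDensity_apply _ measurableSet_Ioc]
  rw [← ofReal_integral_eq_lintegral_ofReal (hint.1) (Eventually.of_forall fun x => norm_nonneg _),
    ftc]
  exact (ENNReal.ofReal_toReal (hfin a b)).symm

theorem integral_curve (hγ : ∀ t, HasDerivAt γ (γ' t) t) (hc : Continuous γ')
    (hinj : Function.Injective γ) (g : E → ℝ) :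
    ∫ x in range γ, g x ∂(Measure.hausdorffMeasure 1 : Measure E) = ∫ t, ‖γ' t‖ * g (γ t) := by
  have hcont : Continuous γ := continuous_iff_continuousAt.2 fun t => (hγ t).continuousAt
  have hme : MeasurableEmbedding γ := hcont.measurableEmbedding hinj
  rw [← hme.map_comap, hme.integral_map, comap_hausdorff hγ hc hinj]
  have h : (fun t => ENNReal.ofReal ‖γ' t‖) = fun t => ((‖γ' t‖₊ : ℝ≥0) : ℝ≥0∞) := by
    funext t
    rw [ENNReal.ofReal, ← norm_toNNReal]
  rw [h, integral_withDensity_eq_integral_smul hc.nnnorm.measurable]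
  refine integral_congr_ae (Eventually.of_forall fun t => ?_)
  simp only [NNReal.smul_def, coe_nnnorm, smul_eq_mul]

end

end Pool.Agent.Lib.MP_1dc5fb
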