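import Pool.Agent.Lib.MP_1dc5fb_an.Kernel

/-!
The ray averages `V F` are continuously differentiable for every bounded continuous `F`.
-/

set_option autoImplicit false

open MeasureTheory Set Filter Topology
open scoped BoundedContinuousFunction

namespace Pool.Agent.Lib.MP_1dc5fb

/-- the linear form with given coefficients -/
noncomputable def lin (a b : ℝ) : ℝ × ℝ →L[ℝ] ℝ :=
  a • ContinuousLinearMap.fst ℝ ℝ ℝ + b • ContinuousLinearMap.snd ℝ ℝ ℝ

@[simp] lemma lin_apply (a b : ℝ) (z : ℝ × ℝ) : lin a b z = a * z.1 + b * z.2 := by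
  simp [lin]

/-- primitive in the first variable -/
noncomputable def prim (F : ℝ × ℝ → ℝ) (z : ℝ × ℝ) : ℝ := ∫ t in (0 : ℝ)..z.1, F (t, z.2)

lemma continuous_prim {F : ℝ × ℝ → ℝ} (hF : Continuous F) : Continuous (prim F) := by
  have h1 : Continuous (Function.uncurry fun (y t : ℝ) => F (t, y)) := by
    exact hF.comp (continuous_snd.prodMk continuous_fst)
  have h2 := intervalIntegral.continuous_parametric_primitive_of_continuous
    (μ := volume) (a₀ := (0 : ℝ)) h1
  exact h2.comp (continuous_snd.prodMk continuous_fst)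

lemma hasDerivAt_prim {F : ℝ × ℝ → ℝ} (hF : Continuous F) (x y : ℝ) :
    HasDerivAt (fun x => prim F (x, y)) (F (x, y)) x := by
  have h1 : Continuous (fun t : ℝ => F (t, y)) := hF.comp (by fun_prop)
  exact intervalIntegral.integral_hasDerivAt_right (h1.intervalIntegrable _ _)
    h1.stronglyMeasurable.stronglyMeasurableAtFilter h1.continuousAt

lemma abs_prim_le {F : ℝ × ℝ → ℝ} {C : ℝ} (hC : ∀ z, |F z| ≤ C) (z : ℝ × ℝ) :
    |prim F z| ≤ C * |z.1| := by
  unfold prim
  have := intervalIntegral.norm_integral_le_of_norm_le_const (a := 0) (b := z.1)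
    (f := fun t => F (t, z.2)) (C := C) (fun t _ => by rw [Real.norm_eq_abs]; exact hC _)
  simpa using this

lemma int_gauss_mul {q : ℝ → ℝ} (hq : Continuous q) {A B : ℝ} (hA : ∀ t, |q t| ≤ A + B * |t|) :
    Integrable (fun t => Real.exp (-t ^ 2) * q t) := by
  have h1 : Integrable (fun t : ℝ => A * Real.exp (-t ^ 2) + B * |t * Real.exp (-t ^ 2)|) :=
    (int_gauss.const_mul A).add (int_xgauss.norm.const_mul B)
  refine Integrable.mono' h1 ?_ (Eventually.of_forall fun t => ?_)
  · exact (by fun_prop : Continuous fun t => Real.exp (-t ^ 2) * q t).aestronglyMeasurable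
  · rw [norm_mul, Real.norm_eq_abs, Real.norm_eq_abs, abs_mul, abs_of_pos (Real.exp_pos _)]
    nlinarith [hA t, Real.exp_pos (-t ^ 2)]

lemma int_xgauss_mul {q : ℝ → ℝ} (hq : Continuous q) {A B : ℝ} (hA : ∀ t, |q t| ≤ A + B * |t|) :
    Integrable (fun t => t * Real.exp (-t ^ 2) * q t) := by
  have h1 : Integrable (fun t : ℝ => A * |t * Real.exp (-t ^ 2)| + B * (t ^ 2 * Real.exp (-t ^ 2))) :=
    (int_xgauss.norm.const_mul A).add (int_x2gauss.const_mul B)
  refine Integrable.mono' h1 ?_ (Eventually.of_forall fun t => ?_)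
  · exact (by fun_prop : Continuous fun t => t * Real.exp (-t ^ 2) * q t).aestronglyMeasurable
  · rw [norm_mul, Real.norm_eq_abs, Real.norm_eq_abs, abs_mul, abs_of_pos (Real.exp_pos _)]
    have e1 : t ^ 2 = |t| * |t| := by rw [← pow_two, sq_abs]
    have e2 : 0 ≤ |t| * Real.exp (-t ^ 2) := by positivity
    calc |t| * Real.exp (-t ^ 2) * |q t| ≤ |t| * Real.exp (-t ^ 2) * (A + B * |t|) :=
          mul_le_mul_of_nonneg_left (hA t) e2
      _ = A * (|t| * Real.exp (-t ^ 2)) + B * (|t| * |t| * Real.exp (-t ^ 2)) := by ring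
      _ = A * (|t| * Real.exp (-t ^ 2)) + B * (t ^ 2 * Real.exp (-t ^ 2)) := by rw [← e1]

lemma integrable_K1_prim {h : ℝ} {F : ℝ × ℝ → ℝ} (hF : Continuous F) {C : ℝ}
    (hC : ∀ z, |F z| ≤ C) (z : ℝ × ℝ) :
    Integrable (fun p => K1 h p * prim F (shift h z p)) rayMeasure := by
  have hC0 : 0 ≤ C := (abs_nonneg _).trans (hC (0, 0))
  have h2 : Integrable (fun p : ℝ × (ℝ × ℝ) => (h ^ 2 * (p.1 * Real.exp (-p.1 ^ 2))) *
      ((p.2.1 ^ 2 * Real.exp (-p.2.1 ^ 2)) * Real.exp (-p.2.2 ^ 2) / Real.pi)) rayMeasure := by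
    unfold rayMeasure
    refine Integrable.mul_prod (f := fun s : ℝ => h ^ 2 * (s * Real.exp (-s ^ 2)))
      (g := fun q : ℝ × ℝ => (q.1 ^ 2 * Real.exp (-q.1 ^ 2)) * Real.exp (-q.2 ^ 2) / Real.pi)
      (int_xgauss.integrableOn.const_mul _) ?_
    exact (Integrable.mul_prod (f := fun s : ℝ => s ^ 2 * Real.exp (-s ^ 2))
      (g := fun s : ℝ => Real.exp (-s ^ 2)) int_x2gauss int_gauss).div_const _
  have h3 := (((int_K1 h).norm.mul_const (C * |z.1|)).add (h2.norm.mul_const C))
  refine Integrable.mono' h3 ?_ (Eventually.of_forall fun p => ?_)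
  · exact (int_K1 h).aestronglyMeasurable.mul
      ((continuous_prim hF).comp (continuous_shift_right h z)).aestronglyMeasurable
  · have e1 : |prim F (shift h z p)| ≤ C * (|z.1| + |h * p.1 * p.2.1|) := by
      refine (abs_prim_le hC _).trans (mul_le_mul_of_nonneg_left ?_ hC0)
      exact abs_sub _ _
    have e2 : ‖K1 h p‖ * |h * p.1 * p.2.1| = ‖(h ^ 2 * (p.1 * Real.exp (-p.1 ^ 2))) *
      ((p.2.1 ^ 2 * Real.exp (-p.2.1 ^ 2)) * Real.exp (-p.2.2 ^ 2) / Real.pi)‖ := by
      rw [Real.norm_eq_abs, Real.norm_eq_abs, ← abs_mul, ← abs_neg]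
      congr 1
      unfold K1
      ring
    rw [norm_mul, Real.norm_eq_abs (prim _ _)]
    simp only [Pi.add_apply]
    calc ‖K1 h p‖ * |prim F (shift h z p)| ≤ ‖K1 h p‖ * (C * (|z.1| + |h * p.1 * p.2.1|)) :=
          mul_le_mul_of_nonneg_left e1 (norm_nonneg _)
      _ = ‖K1 h p‖ * (C * |z.1|) + (‖K1 h p‖ * |h * p.1 * p.2.1|) * C := by ring
      _ = _ := by rw [e2]

/-- Integration by parts in the first direction variable. -/
lemma convFun_K0_eq {h : ℝ} {F : ℝ × ℝ → ℝ} (hF : Continuous F) {C : ℝ}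
    (hC : ∀ z, |F z| ≤ C) (z : ℝ × ℝ) :
    convFun h (K0 h) F z = ∫ p, K1 h p * prim F (shift h z p) ∂rayMeasure := by
  have hC0 : 0 ≤ C := (abs_nonneg _).trans (hC (0, 0))
  rw [← sub_eq_zero]
  unfold convFun
  rw [← integral_sub (integrable_conv (int_K0 h) hF hC z) (integrable_K1_prim hF hC z)]
  have hint : Integrable (fun a => K0 h a * F (shift h z a) - K1 h a * prim F (shift h z a))
      rayMeasure := (integrable_conv (h := h) (int_K0 h) hF hC z).sub
    (integrable_K1_prim (h := h) hF hC z)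
  unfold rayMeasure at hint ⊢
  rw [integral_prod _ hint]
  refine integral_eq_zero_of_ae ?_
  filter_upwards [hint.prod_right_ae] with s hs
  change ∫ q : ℝ × ℝ, _ = 0
  rw [show (volume : Measure (ℝ × ℝ)) = (volume : Measure ℝ).prod volume from rfl] at hs ⊢
  rw [integral_prod_symm _ hs]
  refine integral_eq_zero_of_ae (Eventually.of_forall fun t => ?_)
  -- the one dimensional integration by parts
  set y := z.2 - h * s * t with hy
  set k : ℝ := -(h / (2 * Real.pi)) * Real.exp (-s ^ 2) * Real.exp (-t ^ 2) with hk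
  have hq1 : Continuous (fun r : ℝ => prim F (z.1 - h * s * r, y)) :=
    (continuous_prim hF).comp (by fun_prop)
  have hq2 : Continuous (fun r : ℝ => F (z.1 - h * s * r, y)) := hF.comp (by fun_prop)
  have hb1 : ∀ r : ℝ, |prim F (z.1 - h * s * r, y)| ≤ C * |z.1| + C * |h * s| * |r| := by
    intro r
    refine (abs_prim_le hC _).trans ?_
    have : |z.1 - h * s * r| ≤ |z.1| + |h * s| * |r| := by
      rw [← abs_mul]; exact abs_sub _ _
    nlinarith
  have hb2 : ∀ r : ℝ, |F (z.1 - h * s * r, y)| ≤ C + 0 * |r| := by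
    intro r; rw [zero_mul, add_zero]; exact hC _
  have hd : ∀ r : ℝ, HasDerivAt (fun r => Real.exp (-r ^ 2) * prim F (z.1 - h * s * r, y))
      (-2 * (r * Real.exp (-r ^ 2) * prim F (z.1 - h * s * r, y)) +
        (-(h * s)) * (Real.exp (-r ^ 2) * F (z.1 - h * s * r, y))) r := by
    intro r
    have e1 : HasDerivAt (fun r : ℝ => Real.exp (-r ^ 2)) (Real.exp (-r ^ 2) * (-(2 * r))) r := by
      have := ((hasDerivAt_pow 2 r).neg).exp
      simpa using this
    have e2 : HasDerivAt (fun r : ℝ => prim F (z.1 - h * s * r, y))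
        (F (z.1 - h * s * r, y) * (-(h * s))) r := by
      have e3 : HasDerivAt (fun r : ℝ => z.1 - h * s * r) (-(h * s)) r := by
        have := ((hasDerivAt_id r).const_mul (h * s)).const_sub z.1
        simpa using this
      exact (hasDerivAt_prim hF (z.1 - h * s * r) y).comp r e3
    refine (e1.mul e2).congr_deriv ?_
    ring
  have hz := integral_eq_zero_of_hasDerivAt_of_integrable hd
    (((int_xgauss_mul hq1 hb1).const_mul (-2)).add ((int_gauss_mul hq2 hb2).const_mul (-(h * s))))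
    (int_gauss_mul hq1 hb1)
  have : (fun r : ℝ => K0 h (s, (r, t)) * F (shift h z (s, (r, t))) -
      K1 h (s, (r, t)) * prim F (shift h z (s, (r, t)))) = fun r => k * (-2 * (r * Real.exp (-r ^ 2) * prim F (z.1 - h * s * r, y)) +
        (-(h * s)) * (Real.exp (-r ^ 2) * F (z.1 - h * s * r, y))) := by
    funext r
    simp only [K0, K1, shift, hk, ← hy]
    field_simp
    ring
  simp only [Pi.zero_apply]
  calc (∫ r : ℝ, (K0 h (s, (r, t)) * F (shift h z (s, (r, t))) -
      K1 h (s, (r, t)) * prim F (shift h z (s, (r, t))))) = ∫ r : ℝ, k * (-2 * (r * Real.exp (-r ^ 2) * prim F (z.1 - h * s * r, y)) +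
        (-(h * s)) * (Real.exp (-r ^ 2) * F (z.1 - h * s * r, y))) := by rw [this]
    _ = 0 := by rw [integral_const_mul, hz, mul_zero]

lemma hasDerivAt_V_fst {h : ℝ} (F : ℝ × ℝ →ᵇ ℝ) (x y : ℝ) :
    HasDerivAt (fun x => V h F (x, y)) (V1 h F (x, y)) x := by
  have hC := abs_bcf_le F
  have e : (fun x => V h F (x, y)) =
      fun x => ∫ p, K1 h p * prim F (shift h (x, y) p) ∂rayMeasure := by
    funext x
    rw [V_apply, convFun_K0_eq F.continuous hC]
  rw [e, V1_apply]
  unfold convFun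
  refine (hasDerivAt_integral_of_dominated_loc_of_deriv_le (μ := rayMeasure)
    (F := fun (x : ℝ) p => K1 h p * prim F (shift h (x, y) p))
    (F' := fun (x : ℝ) p => K1 h p * F (shift h (x, y) p))
    (bound := fun p => ‖K1 h p‖ * ‖F‖) (s := univ) univ_mem ?_ ?_ ?_ ?_ ?_ ?_).2
  · exact Eventually.of_forall fun x =>
      (integrable_K1_prim F.continuous hC (x, y)).aestronglyMeasurable
  · exact integrable_K1_prim F.continuous hC (x, y)
  · exact (integrable_conv (int_K1 h) F.continuous hC (x, y)).aestronglyMeasurable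
  · refine Eventually.of_forall fun p x _ => ?_
    rw [norm_mul]
    exact mul_le_mul_of_nonneg_left (F.norm_coe_le_norm _) (norm_nonneg _)
  · exact (int_K1 h).norm.mul_const _
  · refine Eventually.of_forall fun p x _ => ?_
    refine HasDerivAt.const_mul _ ?_
    have e3 : HasDerivAt (fun x : ℝ => x - h * p.1 * p.2.1) 1 x :=
      (hasDerivAt_id x).sub_const _
    have e4 := (hasDerivAt_prim F.continuous (x - h * p.1 * p.2.1) (y - h * p.1 * p.2.2)).comp x e3
    simpa [shift, Function.comp_def] using e4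

/-- swapping the two coordinates -/
noncomputable def swapBCF (F : ℝ × ℝ →ᵇ ℝ) : ℝ × ℝ →ᵇ ℝ :=
  F.compContinuous ⟨Prod.swap, continuous_swap⟩

lemma swapBCF_apply (F : ℝ × ℝ →ᵇ ℝ) (z : ℝ × ℝ) : swapBCF F z = F (z.2, z.1) := rfl

lemma mp_swap : MeasurePreserving (fun p : ℝ × (ℝ × ℝ) => (p.1, (p.2.2, p.2.1)))
    rayMeasure rayMeasure := by
  unfold rayMeasure
  exact (MeasurePreserving.id (volume.restrict (Ioi (0 : ℝ)))).prod
    (Measure.measurePreserving_swap (μ := (volume : Measure ℝ)) (ν := (volume : Measure ℝ)))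

lemma convFun_swap {h : ℝ} {K : ℝ × (ℝ × ℝ) → ℝ} (F : ℝ × ℝ → ℝ) (x y : ℝ) :
    convFun h K F (x, y) =
      convFun h (fun p => K (p.1, (p.2.2, p.2.1))) (fun z => F (z.2, z.1)) (y, x) := by
  unfold convFun
  have hme : MeasurableEmbedding (fun p : ℝ × (ℝ × ℝ) => (p.1, (p.2.2, p.2.1))) :=
    (MeasurableEquiv.prodCongr (MeasurableEquiv.refl ℝ)
      (MeasurableEquiv.prodComm (α := ℝ) (β := ℝ))).measurableEmbedding
  rw [← mp_swap.integral_comp hme]
  rfl

lemma V_swap {h : ℝ} (F : ℝ × ℝ →ᵇ ℝ) (x y : ℝ) : V h F (x, y) = V h (swapBCF F) (y, x) := by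
  rw [V_apply, V_apply, convFun_swap]
  unfold convFun
  refine integral_congr_ae (Eventually.of_forall fun p => ?_)
  simp only [K0, swapBCF_apply]
  ring

lemma V2_swap {h : ℝ} (F : ℝ × ℝ →ᵇ ℝ) (x y : ℝ) : V2 h F (x, y) = V1 h (swapBCF F) (y, x) := by
  rw [V1_apply, V2_apply, convFun_swap]
  unfold convFun
  refine integral_congr_ae (Eventually.of_forall fun p => ?_)
  simp only [K1, K2, swapBCF_apply]
  ring

lemma hasDerivAt_V_snd {h : ℝ} (F : ℝ × ℝ →ᵇ ℝ) (x y : ℝ) :
    HasDerivAt (fun y => V h F (x, y)) (V2 h F (x, y)) y := by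
  have e : (fun y => V h F (x, y)) = fun y => V h (swapBCF F) (y, x) := by
    funext y; exact V_swap F x y
  rw [e, V2_swap]
  exact hasDerivAt_V_fst (swapBCF F) y x

lemma hasFDerivAt_V {h : ℝ} (F : ℝ × ℝ →ᵇ ℝ) (z : ℝ × ℝ) :
    HasFDerivAt (V h F) (lin (V1 h F z) (V2 h F z)) z := by
  have h1 := hasStrictFDerivAt_uncurry_coprod (𝕜 := ℝ) (E₁ := ℝ) (E₂ := ℝ) (F := ℝ) (u := z)
    (f := fun x y => V h F (x, y))
    (f₁ := fun x y => ContinuousLinearMap.smulRight (1 : ℝ →L[ℝ] ℝ) (V1 h F (x, y)))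
    (f₂ := fun x y => ContinuousLinearMap.smulRight (1 : ℝ →L[ℝ] ℝ) (V2 h F (x, y)))
    (Eventually.of_forall fun v => (hasDerivAt_V_fst F v.1 v.2).hasFDerivAt)
    (Eventually.of_forall fun v => (hasDerivAt_V_snd F v.1 v.2).hasFDerivAt)
    ?_ ?_
  · have h2 : HasFDerivAt (fun z : ℝ × ℝ => V h F (z.1, z.2)) _ z := h1.hasFDerivAt
    refine h2.congr_fderiv ?_
    ext <;> simp [Function.HasUncurry.uncurry]
  · refine Continuous.continuousAt ?_
    have : Continuous (fun v : ℝ × ℝ =>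
        ContinuousLinearMap.smulRight (1 : ℝ →L[ℝ] ℝ) (V1 h F (v.1, v.2))) := by
      have := (V1 h F).continuous
      fun_prop
    exact this
  · refine Continuous.continuousAt ?_
    have : Continuous (fun v : ℝ × ℝ =>
        ContinuousLinearMap.smulRight (1 : ℝ →L[ℝ] ℝ) (V2 h F (v.1, v.2))) := by
      have := (V2 h F).continuous
      fun_prop
    exact this

end Pool.Agent.Lib.MP_1dc5fb
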