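import Pool.Agent.Lib.MP_1dc5fb_an.Transfer

/-!
Transfer of half plane solutions to the epigraph in Euclidean space.
-/

set_option autoImplicit false

open MeasureTheory Set Filter Topology

namespace Pool.Agent.Lib.MP_1dc5fb

/-- the Euclidean plane -/
abbrev E2 := EuclideanSpace ℝ (Fin 2)

/-- coordinates -/
noncomputable def eP : E2 ≃L[ℝ] ℝ × ℝ :=
  (EuclideanSpace.equiv (Fin 2) ℝ).trans (ContinuousLinearEquiv.finTwoArrow ℝ ℝ)

@[simp] lemma eP_apply (x : E2) : eP x = (x 0, x 1) := rfl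

@[simp] lemma eP_symm_apply (v : ℝ × ℝ) : eP.symm v = !₂[v.1, v.2] := by
  apply eP.injective
  rw [ContinuousLinearEquiv.apply_symm_apply]
  rfl

lemma mp_eP : MeasurePreserving eP volume volume :=
  (volume_preserving_finTwoArrow ℝ).comp (PiLp.volume_preserving_ofLp (Fin 2))

lemma emb_eP : MeasurableEmbedding eP := eP.toHomeomorph.measurableEmbedding

/-- the domain -/
def Om : Set E2 := eP ⁻¹' Epi

lemma isOpen_Om : IsOpen Om := isOpen_Epi.preimage eP.continuous

lemma integral_Om (F : ℝ × ℝ → ℝ) : ∫ x in Om, F (eP x) = ∫ v in Epi, F v :=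
  mp_eP.setIntegral_preimage_emb emb_eP F Epi

lemma closure_Epi : closure Epi = Epic := by
  have hcl : IsClosed Epic :=
    isClosed_le (phi_lip.continuous.comp continuous_fst) continuous_snd
  refine subset_antisymm (closure_minimal Epi_subset hcl) ?_
  intro v hv
  have hv' : phi v.1 ≤ v.2 := hv
  refine mem_closure_of_tendsto (f := fun k : ℕ => ((v.1, v.2 + 1 / ((k : ℝ) + 1)) : ℝ × ℝ))
    (b := atTop) ?_ (Eventually.of_forall fun k => ?_)
  · have h2 : Tendsto (fun k : ℕ => v.2 + 1 / ((k : ℝ) + 1)) atTop (𝓝 (v.2 + 0)) :=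
      tendsto_const_nhds.add tendsto_one_div_add_atTop_nhds_zero_nat
    rw [add_zero] at h2
    exact (tendsto_const_nhds (x := v.1)).prodMk_nhds h2
  · change phi v.1 < v.2 + 1 / ((k : ℝ) + 1)
    have : 0 < 1 / ((k : ℝ) + 1) := by positivity
    linarith

lemma frontier_Epi : frontier Epi = range (fun x : ℝ => hm (x, 0)) := by
  rw [isOpen_Epi.frontier_eq, closure_Epi]
  ext v
  constructor
  · rintro ⟨h1, h2⟩
    obtain ⟨z, hz, rfl⟩ := hm_surj h1
    have hz' : 0 ≤ z.2 := hz
    rcases eq_or_lt_of_le hz' with h | h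
    · refine ⟨z.1, ?_⟩
      have : z = (z.1, 0) := by ext <;> simp [← h]
      simp only
      rw [← this]
    · exact absurd (phi_lt (z := z) h) h2
  · rintro ⟨x, rfl⟩
    refine ⟨phi_le (mem_bdry x), ?_⟩
    intro h
    have h' : phi (hm (x, 0)).1 < (hm (x, 0)).2 := h
    rw [phi_eq] at h'
    exact lt_irrefl _ h'

lemma closure_Om : closure Om = eP ⁻¹' Epic := by
  have := eP.toHomeomorph.preimage_closure Epi
  change eP ⁻¹' closure Epi = closure (eP ⁻¹' Epi) at this
  unfold Om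
  rw [← this, closure_Epi]

/-- the boundary curve -/
noncomputable def Gam (x : ℝ) : E2 := eP.symm (hm (x, 0))
/-- the derivative of the boundary curve -/
noncomputable def Gam' (x : ℝ) : E2 := eP.symm (pp (x, 0), qq' (x, 0))

lemma frontier_Om : frontier Om = range Gam := by
  have := eP.toHomeomorph.preimage_frontier Epi
  change eP ⁻¹' frontier Epi = frontier (eP ⁻¹' Epi) at this
  unfold Om
  rw [← this, frontier_Epi]
  ext x
  constructor
  · rintro ⟨t, ht⟩
    refine ⟨t, ?_⟩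
    unfold Gam
    simp only at ht
    rw [ht, ContinuousLinearEquiv.symm_apply_apply]
  · rintro ⟨t, rfl⟩
    refine ⟨t, ?_⟩
    unfold Gam
    rw [ContinuousLinearEquiv.apply_symm_apply]

lemma hasDerivAt_Gam (x : ℝ) : HasDerivAt Gam (Gam' x) x := by
  have h0 : HasDerivAt (fun x : ℝ => ((x, 0) : ℝ × ℝ)) (1, 0) x :=
    (hasDerivAt_id x).prodMk (hasDerivAt_const x 0)
  have h1 := (hasFDerivAt_hm (mem_bdry x)).comp_hasDerivAt x h0
  have h2 := (eP.symm.toContinuousLinearMap.hasFDerivAt).comp_hasDerivAt x h1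
  refine h2.congr_deriv ?_
  unfold Gam' dh pp qq'
  simp only [ContinuousLinearMap.prod_apply, lin_apply]
  simp

lemma norm_eP_symm (v : ℝ × ℝ) : ‖eP.symm v‖ = Real.sqrt (v.1 ^ 2 + v.2 ^ 2) := by
  rw [eP_symm_apply, EuclideanSpace.norm_eq]
  simp [Fin.sum_univ_two]

lemma norm_Gam' (x : ℝ) : ‖Gam' x‖ = Real.sqrt (Gb x) := by
  unfold Gam'
  rw [norm_eP_symm, pq_eq (mem_bdry x), Pf_bdry]

lemma continuous_Gam' : Continuous Gam' := by
  unfold Gam'
  have h1 : Continuous (fun x : ℝ => pp (x, 0)) :=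
    continuousOn_pp.comp_continuous (by fun_prop) mem_bdry
  have h2 : Continuous (fun x : ℝ => qq' (x, 0)) :=
    continuousOn_qq'.comp_continuous (by fun_prop) mem_bdry
  exact eP.symm.continuous.comp (h1.prodMk h2)

lemma injective_Gam : Function.Injective Gam := by
  intro x y h
  have h1 : hm (x, 0) = hm (y, 0) := eP.symm.injective h
  have h2 := hm_injOn (mem_bdry x) (mem_bdry y) h1
  exact (Prod.ext_iff.1 h2).1

lemma integral_frontier (g : E2 → ℝ) :
    ∫ x in frontier Om, g x ∂(Measure.hausdorffMeasure 1 : Measure E2) =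
      ∫ t, Real.sqrt (Gb t) * g (Gam t) := by
  rw [frontier_Om, integral_curve hasDerivAt_Gam continuous_Gam' injective_Gam]
  simp only [norm_Gam']

/-! ### Gradients -/

lemma toDual_vec (a b : ℝ) : (InnerProductSpace.toDual ℝ E2) (!₂[a, b] : E2) =
    (lin a b).comp (eP : E2 →L[ℝ] ℝ × ℝ) := by
  ext x
  simp [PiLp.inner_apply, Fin.sum_univ_two]
  ring

lemma gradient_of {u : E2 → ℝ} {a b : ℝ} {x : E2}
    (h : HasFDerivAt u ((lin a b).comp (eP : E2 →L[ℝ] ℝ × ℝ)) x) :
    gradient u x = (!₂[a, b] : E2) := by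
  rw [← toDual_vec] at h
  exact HasGradientAt.gradient (hasGradientAt_iff_hasFDerivAt.2 h)

lemma inner_vec (a b c d : ℝ) : inner ℝ (!₂[a, b] : E2) (!₂[c, d] : E2) = a * c + b * d := by
  simp [PiLp.inner_apply, Fin.sum_univ_two]
  ring

lemma norm_vec_sq (a b : ℝ) : ‖(!₂[a, b] : E2)‖ ^ 2 = a ^ 2 + b ^ 2 := by
  rw [← real_inner_self_eq_norm_sq, inner_vec]; ring

section
variable {U Ux Uy : ℝ × ℝ → ℝ}

/-- the transferred solution -/
noncomputable def sol (U : ℝ × ℝ → ℝ) (x : E2) : ℝ := tw U (eP x)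

lemma hasFDerivAt_sol (hU : C1bar U Ux Uy) {x : E2} (hx : x ∈ Om) :
    HasFDerivAt (sol U) ((lin (twX Ux Uy (eP x)) (twY Ux Uy (eP x))).comp
      (eP : E2 →L[ℝ] ℝ × ℝ)) x :=
  (hasFDerivAt_tw hU hx).comp x eP.toContinuousLinearMap.hasFDerivAt

lemma gradient_sol (hU : C1bar U Ux Uy) {x : E2} (hx : x ∈ Om) :
    gradient (sol U) x = !₂[twX Ux Uy (eP x), twY Ux Uy (eP x)] :=
  gradient_of (hasFDerivAt_sol hU hx)

lemma contDiffOn_sol (hU : C1bar U Ux Uy) : ContDiffOn ℝ 1 (sol U) Om := by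
  have h1 : ContDiffOn ℝ (0 + 1) (sol U) Om := by
    rw [contDiffOn_succ_iff_fderiv_of_isOpen isOpen_Om]
    refine ⟨fun x hx => (hasFDerivAt_sol hU hx).differentiableAt.differentiableWithinAt,
      by simp, ?_⟩
    rw [contDiffOn_zero]
    have hc : ContinuousOn (fun x => (lin (twX Ux Uy (eP x)) (twY Ux Uy (eP x))).comp
        (eP : E2 →L[ℝ] ℝ × ℝ)) Om := by
      have hm' : MapsTo eP Om Epic := fun x hx => Epi_subset hx
      have c1 := (continuousOn_twX hU).comp eP.continuous.continuousOn hm'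
      have c2 := (continuousOn_twY hU).comp eP.continuous.continuousOn hm'
      have e : (fun x => (lin (twX Ux Uy (eP x)) (twY Ux Uy (eP x))).comp
          (eP : E2 →L[ℝ] ℝ × ℝ)) = fun x => (twX Ux Uy (eP x)) •
            ((ContinuousLinearMap.fst ℝ ℝ ℝ).comp (eP : E2 →L[ℝ] ℝ × ℝ)) + (twY Ux Uy (eP x)) •
            ((ContinuousLinearMap.snd ℝ ℝ ℝ).comp (eP : E2 →L[ℝ] ℝ × ℝ)) := by
        funext x
        ext y
        simp
      rw [e]
      exact (c1.smul continuousOn_const).add (c2.smul continuousOn_const)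
    exact hc.congr fun x hx => (hasFDerivAt_sol hU hx).fderiv
  simpa using h1

lemma continuousOn_sol (hU : C1bar U Ux Uy) : ContinuousOn (sol U) (closure Om) := by
  rw [closure_Om]
  exact (continuousOn_tw hU).comp eP.continuous.continuousOn fun x hx => hx

lemma integrable_sol (hU : HSol U Ux Uy) (R : ℝ) :
    IntegrableOn (fun x => ‖gradient (sol U) x‖ ^ 2) (Om ∩ Metric.ball 0 R) := by
  obtain ⟨C, hC⟩ := hU.grad
  have hms : MeasurableSet (Om ∩ Metric.ball (0 : E2) R) :=
    isOpen_Om.measurableSet.inter measurableSet_ball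
  have e : EqOn (fun x => twX Ux Uy (eP x) ^ 2 + twY Ux Uy (eP x) ^ 2)
      (fun x => ‖gradient (sol U) x‖ ^ 2) (Om ∩ Metric.ball 0 R) := by
    intro x hx
    simp only
    rw [gradient_sol hU.c1 hx.1, norm_vec_sq]
  refine IntegrableOn.congr_fun ?_ e hms
  have hm' : MapsTo eP (Om ∩ Metric.ball 0 R) Epic := fun x hx => Epi_subset hx.1
  have c1 := (continuousOn_twX hU.c1).comp eP.continuous.continuousOn hm'
  have c2 := (continuousOn_twY hU.c1).comp eP.continuous.continuousOn hm'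
  have hc : ContinuousOn (fun x => twX Ux Uy (eP x) ^ 2 + twY Ux Uy (eP x) ^ 2)
      (Om ∩ Metric.ball 0 R) := (c1.pow 2).add (c2.pow 2)
  have hfin : IsFiniteMeasure ((volume : Measure E2).restrict (Om ∩ Metric.ball 0 R)) :=
    isFiniteMeasure_restrict.2
      (ne_top_of_le_ne_top measure_ball_lt_top.ne (measure_mono inter_subset_right))
  refine Integrable.of_bound (hc.aestronglyMeasurable hms) (2 * C ^ 2) ?_
  filter_upwards [ae_restrict_mem hms] with x hx
  rw [Real.norm_eq_abs, abs_of_nonneg (by positivity)]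
  exact tw_grad_le hC hx.1

lemma weak_sol (hU : HSol U Ux Uy) {ψ : E2 → ℝ} (hψ : ContDiff ℝ 1 ψ) (hs : HasCompactSupport ψ) :
    (∫ x in Om, inner ℝ (gradient (sol U) x) (gradient ψ x)) +
      Real.pi * pc / 2 * (∫ x in frontier Om, sol U x * ψ x ∂(Measure.hausdorffMeasure 1)) =
      ∫ x in Om, fr (sol U x) * ψ x := by
  set p : ℝ × ℝ → ℝ := fun v => ψ (eP.symm v) with hp
  have hpC : ContDiff ℝ 1 p := hψ.comp eP.symm.contDiff
  have hpd : ∀ v, HasFDerivAt p (lin (fderiv ℝ p v (1, 0)) (fderiv ℝ p v (0, 1))) v := by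
    intro v
    have h1 := (hpC.differentiable (by norm_num) v).hasFDerivAt
    refine h1.congr_fderiv ?_
    ext <;> simp [lin]
  have hfc : Continuous (fderiv ℝ p) := hpC.continuous_fderiv (by norm_num)
  have hX : Continuous (fun v => fderiv ℝ p v (1, 0)) := hfc.clm_apply continuous_const
  have hY : Continuous (fun v => fderiv ℝ p v (0, 1)) := hfc.clm_apply continuous_const
  have hps : HasCompactSupport p := hs.comp_homeomorph eP.symm.toHomeomorph
  have hsupp : ∃ M : ℝ, ∀ v, M ≤ dsq v (hm (0, 0)) → p v = 0 ∧ fderiv ℝ p v (1, 0) = 0 ∧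
      fderiv ℝ p v (0, 1) = 0 := by
    have hdc : Continuous (fun v => dsq v (hm (0, 0))) := by unfold dsq; fun_prop
    obtain ⟨M, hM⟩ := hps.isCompact.exists_bound_of_continuousOn hdc.continuousOn
    refine ⟨M + 1, fun v hv => ?_⟩
    have hnot : v ∉ tsupport p := by
      intro hmem
      have := hM v hmem
      rw [Real.norm_eq_abs] at this
      have := (abs_le.1 this).2
      linarith
    refine ⟨image_eq_zero_of_notMem_tsupport hnot, ?_, ?_⟩
    · rw [fderiv_of_notMem_tsupport _ hnot]; rfl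
    · rw [fderiv_of_notMem_tsupport _ hnot]; rfl
  have key := weak_transfer hU hX hY hpd hsupp
  have hψp : ∀ x, ψ x = p (eP x) := fun x => by
    simp only [hp, ContinuousLinearEquiv.symm_apply_apply]
  have hgψ : ∀ x, gradient ψ x = !₂[fderiv ℝ p (eP x) (1, 0), fderiv ℝ p (eP x) (0, 1)] := by
    intro x
    refine gradient_of ?_
    have h1 := (hpd (eP x)).comp x eP.toContinuousLinearMap.hasFDerivAt
    refine h1.congr_of_eventuallyEq (Eventually.of_forall fun y => ?_)
    exact hψp y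
  have e1 : (∫ x in Om, inner ℝ (gradient (sol U) x) (gradient ψ x)) =
      ∫ v in Epi, (twX Ux Uy v * fderiv ℝ p v (1, 0) + twY Ux Uy v * fderiv ℝ p v (0, 1)) := by
    rw [← integral_Om]
    refine setIntegral_congr_fun isOpen_Om.measurableSet fun x hx => ?_
    rw [gradient_sol hU.c1 hx, hgψ, inner_vec]
  have e2 : (∫ x in frontier Om, sol U x * ψ x ∂(Measure.hausdorffMeasure 1)) =
      ∫ t, Real.sqrt (Gb t) * (U (t, 0) * p (hm (t, 0))) := by
    rw [integral_frontier]
    refine integral_congr_ae (Eventually.of_forall fun t => ?_)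
    simp only
    have h1 : eP (Gam t) = hm (t, 0) := by
      unfold Gam; rw [ContinuousLinearEquiv.apply_symm_apply]
    rw [hψp, h1]
    unfold sol tw
    rw [h1, jm_hm (mem_bdry t)]
  have e3 : (∫ x in Om, fr (sol U x) * ψ x) = ∫ v in Epi, fr (tw U v) * p v := by
    rw [← integral_Om]
    refine setIntegral_congr_fun isOpen_Om.measurableSet fun x hx => ?_
    rw [hψp]
    rfl
  rw [e1, e2, e3]
  exact key

lemma range_sol (hU : HSol U Ux Uy) {x : E2} (hx : x ∈ Om) : 0 < sol U x ∧ sol U x ≤ 1 := by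
  have h := jm_mem_Hset hx
  exact ⟨hU.pos _ h, hU.le _ (Hset_subset_Hbar h)⟩

end

end Pool.Agent.Lib.MP_1dc5fb
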