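import Pool.Agent.Lib.MP_1dc5fb_an.Weak2

/-!
Calculus on the closed half plane: algebra of functions that are continuously differentiable up to
the boundary, and the divergence theorem.
-/

set_option autoImplicit false

open MeasureTheory Set Filter Topology
open scoped BoundedContinuousFunction

namespace Pool.Agent.Lib.MP_1dc5fb

/-- continuous functions on the closed half plane with compact support -/
structure CC (D : ℝ × ℝ → ℝ) : Prop where
  cont : ContinuousOn D Hbar
  supp : ∃ R : ℝ, ∀ z ∈ Hbar, (R ≤ |z.1| ∨ R ≤ z.2) → D z = 0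

namespace CC
variable {D E : ℝ × ℝ → ℝ}

lemma add (h1 : CC D) (h2 : CC E) : CC (fun z => D z + E z) := by
  refine ⟨h1.cont.add h2.cont, ?_⟩
  obtain ⟨R, hR⟩ := h1.supp
  obtain ⟨S, hS⟩ := h2.supp
  refine ⟨max R S, fun z hz h => ?_⟩
  have a : R ≤ |z.1| ∨ R ≤ z.2 := h.imp (le_trans (le_max_left _ _)) (le_trans (le_max_left _ _))
  have b : S ≤ |z.1| ∨ S ≤ z.2 := h.imp (le_trans (le_max_right _ _)) (le_trans (le_max_right _ _))
  rw [hR z hz a, hS z hz b, add_zero]

lemma mul_left {u : ℝ × ℝ → ℝ} (hu : ContinuousOn u Hbar) (h : CC D) : CC (fun z => u z * D z) := by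
  refine ⟨hu.mul h.cont, ?_⟩
  obtain ⟨R, hR⟩ := h.supp
  exact ⟨R, fun z hz h' => by rw [hR z hz h', mul_zero]⟩

lemma mul_right {u : ℝ × ℝ → ℝ} (h : CC D) (hu : ContinuousOn u Hbar) : CC (fun z => D z * u z) := by
  refine ⟨h.cont.mul hu, ?_⟩
  obtain ⟨R, hR⟩ := h.supp
  exact ⟨R, fun z hz h' => by rw [hR z hz h', zero_mul]⟩

lemma congr (h : CC D) (he : ∀ z ∈ Hbar, E z = D z) : CC E := by
  refine ⟨h.cont.congr he, ?_⟩
  obtain ⟨R, hR⟩ := h.supp
  exact ⟨R, fun z hz h' => by rw [he z hz, hR z hz h']⟩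

lemma bound (h : CC D) : ∃ C : ℝ, 0 ≤ C ∧ ∀ z ∈ Hbar, |D z| ≤ C := by
  obtain ⟨R, hR⟩ := h.supp
  have hK : IsCompact (Icc (-R, (0 : ℝ)) (R, R)) := isCompact_Icc
  have hsub : Icc (-R, (0 : ℝ)) (R, R) ⊆ Hbar := fun z hz => hz.1.2
  obtain ⟨C1, h1⟩ := hK.exists_bound_of_continuousOn (h.cont.mono hsub)
  refine ⟨max 0 C1, le_max_left _ _, fun z hz => ?_⟩
  by_cases hz2 : z ∈ Icc (-R, (0 : ℝ)) (R, R)
  · have e1 := h1 z hz2
    rw [Real.norm_eq_abs] at e1
    exact e1.trans (by simp)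
  · have : R ≤ |z.1| ∨ R ≤ z.2 := by
      by_contra hcon
      push Not at hcon
      apply hz2
      refine ⟨⟨?_, hz⟩, ⟨?_, hcon.2.le⟩⟩
      · exact (abs_lt.1 hcon.1).1.le
      · exact (abs_lt.1 hcon.1).2.le
    rw [hR z hz this, abs_zero]; exact le_max_left _ _

lemma integrable_ext (h : CC D) : Integrable (fun z => D (abs2 z)) := by
  obtain ⟨C, hC0, hC⟩ := h.bound
  obtain ⟨R, hR⟩ := h.supp
  exact integrable_of_bounded_supp (R := R) (continuous_comp_abs2 h.cont).measurable
    (fun z => hC _ (abs2_mem z)) (fun z hz => hR (abs2 z) (abs2_mem z) hz)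

lemma integrableOn (h : CC D) : IntegrableOn D Hset := by
  refine (h.integrable_ext.integrableOn (s := Hset)).congr_fun ?_ measurableSet_Hset
  intro z hz
  simp only
  rw [abs2_of_mem (Hset_subset_Hbar hz)]

lemma slice_x (h : CC D) {y : ℝ} (hy : 0 ≤ y) :
    Continuous (fun x => D (x, y)) ∧ HasCompactSupport (fun x => D (x, y)) := by
  constructor
  · exact h.cont.comp_continuous (by fun_prop) (fun x => hy)
  · obtain ⟨R, hR⟩ := h.supp
    refine HasCompactSupport.of_support_subset_isCompact (isCompact_Icc (a := -R) (b := R)) ?_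
    intro x hx
    by_contra hcon
    apply hx
    refine hR (x, y) hy (Or.inl ?_)
    by_contra h2
    push Not at h2
    exact hcon ⟨(abs_lt.1 h2).1.le, (abs_lt.1 h2).2.le⟩

lemma slice_y (h : CC D) (x : ℝ) :
    Continuous (fun y => D (x, |y|)) ∧ HasCompactSupport (fun y => D (x, |y|)) := by
  constructor
  · exact h.cont.comp_continuous (by fun_prop) (fun y => show 0 ≤ |y| from abs_nonneg _)
  · obtain ⟨R, hR⟩ := h.supp
    refine HasCompactSupport.of_support_subset_isCompact (isCompact_Icc (a := -R) (b := R)) ?_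
    intro y hy
    by_contra hcon
    apply hy
    refine hR (x, |y|) (show 0 ≤ |y| from abs_nonneg _) (Or.inr ?_)
    by_contra h2
    push Not at h2
    exact hcon ⟨(abs_lt.1 h2).1.le, (abs_lt.1 h2).2.le⟩

lemma integrable_slice_x (h : CC D) {y : ℝ} (hy : 0 ≤ y) : Integrable (fun x => D (x, y)) :=
  (h.slice_x hy).1.integrable_of_hasCompactSupport (h.slice_x hy).2

lemma integrableOn_slice_y (h : CC D) (x : ℝ) : IntegrableOn (fun y => D (x, y)) (Ioi 0) := by
  have h1 := (h.slice_y x).1.integrable_of_hasCompactSupport (h.slice_y x).2 (μ := volume)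
  refine h1.integrableOn.congr_fun ?_ measurableSet_Ioi
  intro y hy
  simp only
  rw [abs_of_pos (show 0 < y from hy)]

end CC

/-- divergence theorem on the half plane -/
theorem div_lemma {Z1 Z2 D1 D2 : ℝ × ℝ → ℝ} (hZ1 : CC Z1) (hZ2 : CC Z2) (hD1 : CC D1) (hD2 : CC D2)
    (h1 : ∀ z ∈ Hset, HasDerivAt (fun x => Z1 (x, z.2)) (D1 z) z.1)
    (h2 : ∀ z ∈ Hset, HasDerivAt (fun y => Z2 (z.1, y)) (D2 z) z.2) :
    ∫ z in Hset, (D1 z + D2 z) = -∫ x, Z2 (x, 0) := by
  rw [integral_add hD1.integrableOn hD2.integrableOn]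
  have i1 := hD1.integrableOn
  have i2 := hD2.integrableOn
  rw [Hset_eq_prod] at i1 i2 ⊢
  rw [show (volume : Measure (ℝ × ℝ)) = (volume : Measure ℝ).prod volume from rfl] at i1 i2 ⊢
  have e1 : ∫ z in (univ : Set ℝ) ×ˢ Ioi (0 : ℝ), D1 z ∂(volume : Measure ℝ).prod volume = 0 := by
    rw [← Measure.prod_restrict] 
    rw [IntegrableOn, ← Measure.prod_restrict] at i1
    rw [integral_prod_symm _ i1]
    refine integral_eq_zero_of_ae ?_
    filter_upwards [ae_restrict_mem measurableSet_Ioi] with y hy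
    rw [Measure.restrict_univ]
    have hy' : 0 ≤ y := le_of_lt hy
    exact integral_eq_zero_of_hasDerivAt_of_integrable (f := fun x => Z1 (x, y))
      (fun x => h1 (x, y) hy) (hD1.integrable_slice_x hy') (hZ1.integrable_slice_x hy')
  have e2 : ∫ z in (univ : Set ℝ) ×ˢ Ioi (0 : ℝ), D2 z ∂(volume : Measure ℝ).prod volume =
      -∫ x, Z2 (x, 0) := by
    rw [setIntegral_prod _ i2, setIntegral_univ, ← integral_neg]
    refine integral_congr_ae (Eventually.of_forall fun x => ?_)
    simp only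
    have hlim : Tendsto (fun y => Z2 (x, y)) atTop (𝓝 0) := by
      obtain ⟨R, hR⟩ := hZ2.supp
      refine tendsto_const_nhds.congr' ?_
      filter_upwards [eventually_ge_atTop R, eventually_ge_atTop 0] with y hy hy0
      exact (hR (x, y) hy0 (Or.inr hy)).symm
    have hc : ContinuousWithinAt (fun y => Z2 (x, y)) (Ici 0) 0 := by
      have := (hZ2.slice_y x).1.continuousWithinAt (s := Ici 0) (x := 0)
      refine this.congr ?_ ?_
      · intro y hy
        rw [abs_of_nonneg (show 0 ≤ y from hy)]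
      · simp
    rw [integral_Ioi_of_hasDerivAt_of_tendsto hc (fun y hy => h2 (x, y) hy)
      (hD2.integrableOn_slice_y x) hlim]
    ring
  rw [e1, e2, zero_add]

namespace C1bar
variable {u ux uy v vx vy : ℝ × ℝ → ℝ}

lemma lin_add (a b c d : ℝ) : lin a b + lin c d = lin (a + c) (b + d) := by
  ext <;> simp [lin]

lemma lin_sub (a b c d : ℝ) : lin a b - lin c d = lin (a - c) (b - d) := by
  ext <;> simp [lin]

lemma smul_lin (k a b : ℝ) : k • lin a b = lin (k * a) (k * b) := by
  ext <;> simp [lin]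

lemma add (h1 : C1bar u ux uy) (h2 : C1bar v vx vy) :
    C1bar (fun z => u z + v z) (fun z => ux z + vx z) (fun z => uy z + vy z) where
  cont := h1.cont.add h2.cont
  contx := h1.contx.add h2.contx
  conty := h1.conty.add h2.conty
  deriv := fun z hz => by
    rw [← lin_add]; exact (h1.deriv z hz).add (h2.deriv z hz)

lemma sub (h1 : C1bar u ux uy) (h2 : C1bar v vx vy) :
    C1bar (fun z => u z - v z) (fun z => ux z - vx z) (fun z => uy z - vy z) where
  cont := h1.cont.sub h2.cont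
  contx := h1.contx.sub h2.contx
  conty := h1.conty.sub h2.conty
  deriv := fun z hz => by
    rw [← lin_sub]; exact (h1.deriv z hz).sub (h2.deriv z hz)

lemma mul (h1 : C1bar u ux uy) (h2 : C1bar v vx vy) :
    C1bar (fun z => u z * v z) (fun z => ux z * v z + u z * vx z)
      (fun z => uy z * v z + u z * vy z) where
  cont := h1.cont.mul h2.cont
  contx := (h1.contx.mul h2.cont).add (h1.cont.mul h2.contx)
  conty := (h1.conty.mul h2.cont).add (h1.cont.mul h2.conty)
  deriv := fun z hz => by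
    refine ((h1.deriv z hz).mul (h2.deriv z hz)).congr_fderiv ?_
    ext <;> simp [lin] <;> ring

lemma const (c : ℝ) : C1bar (fun _ => c) (fun _ => 0) (fun _ => 0) where
  cont := continuousOn_const
  contx := continuousOn_const
  conty := continuousOn_const
  deriv := fun z _ => by
    refine (hasFDerivAt_const c z).congr_fderiv ?_
    ext <;> simp [lin]

lemma comp {g g' : ℝ → ℝ} (hg : ∀ x, HasDerivAt g (g' x) x) (hg' : Continuous g')
    (h1 : C1bar u ux uy) :
    C1bar (fun z => g (u z)) (fun z => g' (u z) * ux z) (fun z => g' (u z) * uy z) where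
  cont := (continuous_iff_continuousAt.2 fun x => (hg x).continuousAt).comp_continuousOn h1.cont
  contx := (hg'.comp_continuousOn h1.cont).mul h1.contx
  conty := (hg'.comp_continuousOn h1.cont).mul h1.conty
  deriv := fun z hz => by
    rw [← smul_lin]
    exact (hg (u z)).comp_hasFDerivAt z (h1.deriv z hz)

lemma fst : C1bar (fun z => z.1) (fun _ => 1) (fun _ => 0) where
  cont := continuousOn_fst
  contx := continuousOn_const
  conty := continuousOn_const
  deriv := fun z _ => by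
    refine hasFDerivAt_fst.congr_fderiv ?_
    ext <;> simp [lin]

lemma snd : C1bar (fun z => z.2) (fun _ => 0) (fun _ => 1) where
  cont := continuousOn_snd
  contx := continuousOn_const
  conty := continuousOn_const
  deriv := fun z _ => by
    refine hasFDerivAt_snd.congr_fderiv ?_
    ext <;> simp [lin]

lemma congr {w wx wy : ℝ × ℝ → ℝ} (h : C1bar u ux uy) (e : ∀ z, w z = u z) (ex : ∀ z, wx z = ux z)
    (ey : ∀ z, wy z = uy z) : C1bar w wx wy := by
  rw [show w = u from funext e, show wx = ux from funext ex, show wy = uy from funext ey]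
  exact h

lemma hasDerivAt_x (h : C1bar u ux uy) {z : ℝ × ℝ} (hz : z ∈ Hset) :
    HasDerivAt (fun x => u (x, z.2)) (ux z) z.1 := by
  have h1 : HasDerivAt (fun x : ℝ => (x, z.2)) (1, 0) z.1 :=
    (hasDerivAt_id z.1).prodMk (hasDerivAt_const z.1 z.2)
  have h2 := (h.deriv z hz).comp_hasDerivAt z.1 h1
  simpa [Function.comp_def] using h2

lemma hasDerivAt_y (h : C1bar u ux uy) {z : ℝ × ℝ} (hz : z ∈ Hset) :
    HasDerivAt (fun y => u (z.1, y)) (uy z) z.2 := by
  have h1 : HasDerivAt (fun y : ℝ => (z.1, y)) (0, 1) z.2 :=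
    (hasDerivAt_const z.2 z.1).prodMk (hasDerivAt_id z.2)
  have h2 := (h.deriv z hz).comp_hasDerivAt z.2 h1
  simpa [Function.comp_def] using h2

end C1bar

/-- functions with continuous pure second derivatives up to the boundary -/
structure C2bar (S Sx Sy Sxx Syy : ℝ × ℝ → ℝ) : Prop extends C1bar S Sx Sy where
  contxx : ContinuousOn Sxx Hbar
  contyy : ContinuousOn Syy Hbar
  dxx : ∀ z ∈ Hset, HasDerivAt (fun x => Sx (x, z.2)) (Sxx z) z.1
  dyy : ∀ z ∈ Hset, HasDerivAt (fun y => Sy (z.1, y)) (Syy z) z.2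

lemma Test.cc {ψ ψx ψy : ℝ × ℝ → ℝ} (h : Test ψ ψx ψy) : CC ψ ∧ CC ψx ∧ CC ψy := by
  obtain ⟨R, hR⟩ := h.supp
  exact ⟨⟨h.cont, R, fun z hz h' => (hR z hz h').1⟩, ⟨h.contx, R, fun z hz h' => (hR z hz h').2.1⟩,
    ⟨h.conty, R, fun z hz h' => (hR z hz h').2.2⟩⟩

lemma Test.mul_left {ψ ψx ψy u ux uy : ℝ × ℝ → ℝ} (h : Test ψ ψx ψy) (hu : C1bar u ux uy) :
    Test (fun z => u z * ψ z) (fun z => ux z * ψ z + u z * ψx z)
      (fun z => uy z * ψ z + u z * ψy z) := by
  refine ⟨hu.mul h.toC1bar, ?_⟩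
  obtain ⟨R, hR⟩ := h.supp
  refine ⟨R, fun z hz h' => ?_⟩
  obtain ⟨a, b, c⟩ := hR z hz h'
  simp [a, b, c]

/-- Green identity for functions with two derivatives up to the boundary. -/
theorem green {S Sx Sy Sxx Syy ψ ψx ψy : ℝ × ℝ → ℝ} (hS : C2bar S Sx Sy Sxx Syy)
    (ht : Test ψ ψx ψy) :
    ∫ z in Hset, (Sx z * ψx z + Sy z * ψy z) =
      -(∫ z in Hset, (Sxx z + Syy z) * ψ z) - ∫ x, Sy (x, 0) * ψ (x, 0) := by
  obtain ⟨c0, c1, c2⟩ := ht.cc
  have d := div_lemma (Z1 := fun z => Sx z * ψ z) (Z2 := fun z => Sy z * ψ z)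
    (D1 := fun z => Sxx z * ψ z + Sx z * ψx z) (D2 := fun z => Syy z * ψ z + Sy z * ψy z)
    (c0.mul_left hS.contx) (c0.mul_left hS.conty)
    ((c0.mul_left hS.contxx).add (c1.mul_left hS.contx))
    ((c0.mul_left hS.contyy).add (c2.mul_left hS.conty))
    (fun z hz => (hS.dxx z hz).mul (ht.toC1bar.hasDerivAt_x hz))
    (fun z hz => (hS.dyy z hz).mul (ht.toC1bar.hasDerivAt_y hz))
  have i1 : IntegrableOn (fun z => Sx z * ψx z + Sy z * ψy z) Hset :=
    ((c1.mul_left hS.contx).add (c2.mul_left hS.conty)).integrableOn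
  have i2 : IntegrableOn (fun z => (Sxx z + Syy z) * ψ z) Hset :=
    (c0.mul_left (hS.contxx.add hS.contyy)).integrableOn
  have e : (∫ z in Hset, (Sxx z * ψ z + Sx z * ψx z + (Syy z * ψ z + Sy z * ψy z))) =
      (∫ z in Hset, (Sx z * ψx z + Sy z * ψy z)) + ∫ z in Hset, (Sxx z + Syy z) * ψ z := by
    rw [← integral_add i1 i2]
    refine integral_congr_ae (Eventually.of_forall fun z => ?_)
    simp only
    ring
  linarith

end Pool.Agent.Lib.MP_1dc5fb
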