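import Pool.Agent.Lib.MP_1dc5fb_an.Mg.G001

/-!
Monotone iteration for the semilinear Robin problem in the half plane.
-/

set_option autoImplicit false

open MeasureTheory Set Filter Topology
open scoped BoundedContinuousFunction

namespace Pool.Agent.Lib.MP_1dc5fb

/-- the bilinear form of the Robin problem -/
noncomputable def form (β : ℝ → ℝ) (m : ℝ) (u ux uy ψ ψx ψy : ℝ × ℝ → ℝ) : ℝ :=
  (∫ z in Hset, (ux z * ψx z + uy z * ψy z)) + m * (∫ z in Hset, u z * ψ z) +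
        ∫ x, β x * u (x, 0) * ψ (x, 0)

lemma CC.integrable_bdry {D : ℝ × ℝ → ℝ} (h : CC D) {β : ℝ → ℝ} (hβ : Continuous β) :
    Integrable (fun x => β x * D (x, 0)) := by
  have h1 := h.slice_x (le_refl (0 : ℝ))
  exact (hβ.mul h1.1).integrable_of_hasCompactSupport (h1.2.mul_left)

section
variable {β : ℝ → ℝ} {m : ℝ} {u ux uy v vx vy ψ ψx ψy : ℝ × ℝ → ℝ}

lemma form_sub (hβ : Continuous β) (hu : C1bar u ux uy) (hv : C1bar v vx vy)
    (ht : Test ψ ψx ψy) :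
    form β m (fun z => u z - v z) (fun z => ux z - vx z) (fun z => uy z - vy z) ψ ψx ψy =
      form β m u ux uy ψ ψx ψy - form β m v vx vy ψ ψx ψy := by
  obtain ⟨c0, c1, c2⟩ := ht.cc
  have i1 : IntegrableOn (fun z => ux z * ψx z + uy z * ψy z) Hset :=
    ((c1.mul_left hu.contx).add (c2.mul_left hu.conty)).integrableOn
  have i2 : IntegrableOn (fun z => vx z * ψx z + vy z * ψy z) Hset :=
    ((c1.mul_left hv.contx).add (c2.mul_left hv.conty)).integrableOn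
  have j1 : IntegrableOn (fun z => u z * ψ z) Hset := (c0.mul_left hu.cont).integrableOn
  have j2 : IntegrableOn (fun z => v z * ψ z) Hset := (c0.mul_left hv.cont).integrableOn
  have k1 : Integrable (fun x => β x * (u (x, 0) * ψ (x, 0))) :=
    (c0.mul_left hu.cont).integrable_bdry hβ
  have k2 : Integrable (fun x => β x * (v (x, 0) * ψ (x, 0))) :=
    (c0.mul_left hv.cont).integrable_bdry hβ
  have e1 : (∫ z in Hset, ((ux z - vx z) * ψx z + (uy z - vy z) * ψy z)) =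
      (∫ z in Hset, (ux z * ψx z + uy z * ψy z)) - ∫ z in Hset, (vx z * ψx z + vy z * ψy z) := by
    rw [← integral_sub i1 i2]
    exact integral_congr_ae (Eventually.of_forall fun z => by simp only; ring)
  have e2 : (∫ z in Hset, (u z - v z) * ψ z) =
      (∫ z in Hset, u z * ψ z) - ∫ z in Hset, v z * ψ z := by
    rw [← integral_sub j1 j2]
    exact integral_congr_ae (Eventually.of_forall fun z => by simp only; ring)
  have e3 : (∫ x, β x * (u (x, 0) - v (x, 0)) * ψ (x, 0)) =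
      (∫ x, β x * u (x, 0) * ψ (x, 0)) - ∫ x, β x * v (x, 0) * ψ (x, 0) := by
    simp only [mul_assoc]
    rw [← integral_sub k1 k2]
    exact integral_congr_ae (Eventually.of_forall fun z => by simp only; ring)
  unfold form
  rw [e1, e2, e3]
  ring

lemma form_c2 {S Sx Sy Sxx Syy : ℝ × ℝ → ℝ} (hβ : Continuous β) (hS : C2bar S Sx Sy Sxx Syy)
    (ht : Test ψ ψx ψy) :
    form β m S Sx Sy ψ ψx ψy = (∫ z in Hset, (-(Sxx z + Syy z) + m * S z) * ψ z) +
      ∫ x, (β x * S (x, 0) - Sy (x, 0)) * ψ (x, 0) := by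
  obtain ⟨c0, c1, c2⟩ := ht.cc
  have g := green hS ht
  have j1 : IntegrableOn (fun z => (Sxx z + Syy z) * ψ z) Hset :=
    (c0.mul_left (hS.contxx.add hS.contyy)).integrableOn
  have j2 : IntegrableOn (fun z => S z * ψ z) Hset := (c0.mul_left hS.cont).integrableOn
  have k1 : Integrable (fun x => β x * (S (x, 0) * ψ (x, 0))) :=
    (c0.mul_left hS.cont).integrable_bdry hβ
  have k2 : Integrable (fun x => (1 : ℝ) * (Sy (x, 0) * ψ (x, 0))) :=
    (c0.mul_left hS.conty).integrable_bdry continuous_const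
  have e1 : (∫ z in Hset, (-(Sxx z + Syy z) + m * S z) * ψ z) =
      -(∫ z in Hset, (Sxx z + Syy z) * ψ z) + m * ∫ z in Hset, S z * ψ z := by
    have j3 : IntegrableOn (fun z => -((Sxx z + Syy z) * ψ z)) Hset := j1.neg
    rw [← integral_neg, ← integral_const_mul, ← integral_add j3 (j2.const_mul m)]
    exact integral_congr_ae (Eventually.of_forall fun z => by simp only; ring)
  have e2 : (∫ x, (β x * S (x, 0) - Sy (x, 0)) * ψ (x, 0)) =
      (∫ x, β x * S (x, 0) * ψ (x, 0)) - ∫ x, Sy (x, 0) * ψ (x, 0) := by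
    simp only [one_mul] at k2
    simp only [mul_assoc]
    rw [← integral_sub k1 k2]
    exact integral_congr_ae (Eventually.of_forall fun z => by simp only; ring)
  unfold form
  rw [g, e1, e2]
  ring

end

section
variable {β : ℝ → ℝ} {m : ℝ} {T : (ℝ × ℝ →ᵇ ℝ) → (ℝ × ℝ →ᵇ ℝ)}

lemma RobinOp.le_of_sup (hT : RobinOp β m T) (hβc : Continuous β) (hβ : ∀ x, 0 ≤ β x) (hm : 0 < m)
    {S Sx Sy Sxx Syy : ℝ × ℝ → ℝ} (hS : C2bar S Sx Sy Sxx Syy) {M : ℝ}
    (hM : ∀ z ∈ Hbar, -M ≤ S z) (g : ℝ × ℝ →ᵇ ℝ)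
    (hint : ∀ z ∈ Hset, g z ≤ -(Sxx z + Syy z) + m * S z)
    (hbd : ∀ x, Sy (x, 0) ≤ β x * S (x, 0)) : ∀ z ∈ Hbar, T g z ≤ S z := by
  obtain ⟨ux, uy, hu, hw⟩ := hT.weak g
  have h := comparison hβ hm (hS.toC1bar.sub hu) (M := M + ‖T g‖) (fun z hz => ?_) ?_
  · intro z hz
    have := h z hz
    linarith
  · have h1 := hM z hz
    have h2 := abs_bcf_le (T g) z
    have h3 := (abs_le.1 h2).2
    linarith
  · intro ψ ψx ψy ht hψ _
    have e1 := form_sub (m := m) hβc hS.toC1bar hu ht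
    have e2 := form_c2 (m := m) hβc hS ht
    have e3 : form β m (T g) ux uy ψ ψx ψy = ∫ z in Hset, g z * ψ z := hw ψ ψx ψy ht
    change 0 ≤ form β m (fun z => S z - T g z) (fun z => Sx z - ux z) (fun z => Sy z - uy z)
      ψ ψx ψy
    obtain ⟨c0, c1, c2⟩ := ht.cc
    have i1 : IntegrableOn (fun z => g z * ψ z) Hset :=
      (c0.mul_left g.continuous.continuousOn).integrableOn
    have i2 : IntegrableOn (fun z => (-(Sxx z + Syy z) + m * S z) * ψ z) Hset :=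
      (c0.mul_left ((hS.contxx.add hS.contyy).neg.add
        (continuousOn_const.mul hS.cont))).integrableOn
    have f1 : (∫ z in Hset, g z * ψ z) ≤ ∫ z in Hset, (-(Sxx z + Syy z) + m * S z) * ψ z :=
      setIntegral_mono_on i1 i2 measurableSet_Hset fun z hz =>
        mul_le_mul_of_nonneg_right (hint z hz) (hψ z (Hset_subset_Hbar hz))
    have f2 : 0 ≤ ∫ x, (β x * S (x, 0) - Sy (x, 0)) * ψ (x, 0) :=
      integral_nonneg fun x => mul_nonneg (by linarith [hbd x])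
        (hψ (x, 0) (show (0 : ℝ) ≤ 0 from le_rfl))
    rw [e1, e2, e3]
    linarith

lemma RobinOp.ge_of_sub (hT : RobinOp β m T) (hβc : Continuous β) (hβ : ∀ x, 0 ≤ β x) (hm : 0 < m)
    {S Sx Sy Sxx Syy : ℝ × ℝ → ℝ} (hS : C2bar S Sx Sy Sxx Syy) {M : ℝ}
    (hM : ∀ z ∈ Hbar, S z ≤ M) (g : ℝ × ℝ →ᵇ ℝ)
    (hint : ∀ z ∈ Hset, -(Sxx z + Syy z) + m * S z ≤ g z)
    (hbd : ∀ x, β x * S (x, 0) ≤ Sy (x, 0)) : ∀ z ∈ Hbar, S z ≤ T g z := by
  obtain ⟨ux, uy, hu, hw⟩ := hT.weak g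
  have h := comparison hβ hm (hu.sub hS.toC1bar) (M := M + ‖T g‖) (fun z hz => ?_) ?_
  · intro z hz
    have := h z hz
    linarith
  · have h1 := hM z hz
    have h2 := abs_bcf_le (T g) z
    have h3 := (abs_le.1 h2).1
    linarith
  · intro ψ ψx ψy ht hψ _
    have e1 := form_sub (m := m) hβc hu hS.toC1bar ht
    have e2 := form_c2 (m := m) hβc hS ht
    have e3 : form β m (T g) ux uy ψ ψx ψy = ∫ z in Hset, g z * ψ z := hw ψ ψx ψy ht
    change 0 ≤ form β m (fun z => T g z - S z) (fun z => ux z - Sx z) (fun z => uy z - Sy z)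
      ψ ψx ψy
    obtain ⟨c0, c1, c2⟩ := ht.cc
    have i1 : IntegrableOn (fun z => g z * ψ z) Hset :=
      (c0.mul_left g.continuous.continuousOn).integrableOn
    have i2 : IntegrableOn (fun z => (-(Sxx z + Syy z) + m * S z) * ψ z) Hset :=
      (c0.mul_left ((hS.contxx.add hS.contyy).neg.add
        (continuousOn_const.mul hS.cont))).integrableOn
    have f1 : (∫ z in Hset, (-(Sxx z + Syy z) + m * S z) * ψ z) ≤ ∫ z in Hset, g z * ψ z :=
      setIntegral_mono_on i2 i1 measurableSet_Hset fun z hz =>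
        mul_le_mul_of_nonneg_right (hint z hz) (hψ z (Hset_subset_Hbar hz))
    have f2 : (∫ x, (β x * S (x, 0) - Sy (x, 0)) * ψ (x, 0)) ≤ 0 :=
      integral_nonpos fun x => mul_nonpos_of_nonpos_of_nonneg (by linarith [hbd x])
        (hψ (x, 0) (show (0 : ℝ) ≤ 0 from le_rfl))
    rw [e1, e2, e3]
    linarith

lemma RobinOp.mono (hT : RobinOp β m T) (hβc : Continuous β) (hβ : ∀ x, 0 ≤ β x) (hm : 0 < m)
    (g1 g2 : ℝ × ℝ →ᵇ ℝ) (hg : ∀ z ∈ Hset, g1 z ≤ g2 z) : ∀ z ∈ Hbar, T g1 z ≤ T g2 z := by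
  obtain ⟨ux, uy, hu, hw⟩ := hT.weak g1
  obtain ⟨vx, vy, hv, hw2⟩ := hT.weak g2
  have h := comparison hβ hm (hv.sub hu) (M := ‖T g2‖ + ‖T g1‖) (fun z hz => ?_) ?_
  · intro z hz
    have := h z hz
    linarith
  · have h2 := abs_le.1 (abs_bcf_le (T g2) z)
    have h3 := abs_le.1 (abs_bcf_le (T g1) z)
    linarith [h2.1, h3.2]
  · intro ψ ψx ψy ht hψ _
    have e1 := form_sub (m := m) hβc hv hu ht
    have e2 : form β m (T g1) ux uy ψ ψx ψy = ∫ z in Hset, g1 z * ψ z := hw ψ ψx ψy ht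
    have e3 : form β m (T g2) vx vy ψ ψx ψy = ∫ z in Hset, g2 z * ψ z := hw2 ψ ψx ψy ht
    change 0 ≤ form β m (fun z => T g2 z - T g1 z) (fun z => vx z - ux z) (fun z => vy z - uy z)
      ψ ψx ψy
    obtain ⟨c0, c1, c2⟩ := ht.cc
    have i1 : IntegrableOn (fun z => g1 z * ψ z) Hset :=
      (c0.mul_left g1.continuous.continuousOn).integrableOn
    have i2 : IntegrableOn (fun z => g2 z * ψ z) Hset :=
      (c0.mul_left g2.continuous.continuousOn).integrableOn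
    have f1 : (∫ z in Hset, g1 z * ψ z) ≤ ∫ z in Hset, g2 z * ψ z :=
      setIntegral_mono_on i1 i2 measurableSet_Hset fun z hz =>
        mul_le_mul_of_nonneg_right (hg z hz) (hψ z (Hset_subset_Hbar hz))
    rw [e1, e2, e3]
    linarith

end

/-- constant functions -/
lemma C2bar.const (c : ℝ) : C2bar (fun _ => c) (fun _ => 0) (fun _ => 0) (fun _ => 0)
    (fun _ => 0) :=
  ⟨C1bar.const c, continuousOn_const, continuousOn_const, fun z _ => hasDerivAt_const _ _,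
    fun z _ => hasDerivAt_const _ _⟩

/-- hypotheses on the nonlinearity -/
structure NL (m : ℝ) (P : ℝ × ℝ →ᵇ ℝ) (fc : ℝ → ℝ) : Prop where
  cont : Continuous fc
  bdd : ∃ C : ℝ, ∀ s, |fc s| ≤ C
  nonneg : ∀ z s, 0 ≤ P z * fc s
  mono : ∀ z s t, s ≤ t → m * s + P z * fc s ≤ m * t + P z * fc t

/-- the nonlinear right-hand side -/
noncomputable def rhs {m : ℝ} {P : ℝ × ℝ →ᵇ ℝ} {fc : ℝ → ℝ} (h : NL m P fc) (u : ℝ × ℝ →ᵇ ℝ) :
    ℝ × ℝ →ᵇ ℝ :=
  m • u + P * BoundedContinuousFunction.ofNormedAddCommGroup (fun z => fc (u z))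
    (h.cont.comp u.continuous) h.bdd.choose
    (fun z => by rw [Real.norm_eq_abs]; exact h.bdd.choose_spec _)

lemma rhs_apply {m : ℝ} {P : ℝ × ℝ →ᵇ ℝ} {fc : ℝ → ℝ} (h : NL m P fc) (u : ℝ × ℝ →ᵇ ℝ)
    (z : ℝ × ℝ) : rhs h u z = m * u z + P z * fc (u z) := rfl

/-- classical subsolutions of the semilinear problem -/
structure IsSub (β : ℝ → ℝ) (P : ℝ × ℝ →ᵇ ℝ) (fc : ℝ → ℝ) (s : ℝ × ℝ → ℝ) : Prop where
  bdd : ∃ M : ℝ, ∀ z ∈ Hbar, s z ≤ M
  ineq : ∃ sx sy sxx syy : ℝ × ℝ → ℝ, C2bar s sx sy sxx syy ∧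
    (∀ z ∈ Hset, -(sxx z + syy z) ≤ P z * fc (s z)) ∧ ∀ x, β x * s (x, 0) ≤ sy (x, 0)

/-- the monotone iteration -/
noncomputable def iter {m : ℝ} {P : ℝ × ℝ →ᵇ ℝ} {fc : ℝ → ℝ} (h : NL m P fc)
    (T : (ℝ × ℝ →ᵇ ℝ) → (ℝ × ℝ →ᵇ ℝ)) (u0 : ℝ × ℝ →ᵇ ℝ) : ℕ → (ℝ × ℝ →ᵇ ℝ)
  | 0 => u0
  | n + 1 => T (rhs h (iter h T u0 n))

lemma norm_lin_le (a b : ℝ) : ‖lin a b‖ ≤ |a| + |b| := by
  refine ContinuousLinearMap.opNorm_le_bound _ (by positivity) fun z => ?_
  rw [lin_apply, Real.norm_eq_abs]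
  have h1 : |z.1| ≤ ‖z‖ := norm_fst_le z
  have h2 : |z.2| ≤ ‖z‖ := norm_snd_le z
  calc |a * z.1 + b * z.2| ≤ |a * z.1| + |b * z.2| := abs_add_le _ _
    _ = |a| * |z.1| + |b| * |z.2| := by rw [abs_mul, abs_mul]
    _ ≤ |a| * ‖z‖ + |b| * ‖z‖ := by gcongr
    _ = (|a| + |b|) * ‖z‖ := by ring

lemma convex_Hset : Convex ℝ Hset := by
  intro z hz w hw a b ha hb hab
  change 0 < a * z.2 + b * w.2
  have hz' : 0 < z.2 := hz
  have hw' : 0 < w.2 := hw
  rcases eq_or_lt_of_le ha with h | h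
  · subst h
    have : b = 1 := by linarith
    subst this
    simpa using hw'
  · have := mul_pos h hz'
    have := mul_nonneg hb hw'.le
    linarith

lemma closure_Hset : closure Hset = Hbar := by
  refine subset_antisymm (closure_minimal Hset_subset_Hbar isClosed_Hbar) ?_
  intro z hz
  have hz' : 0 ≤ z.2 := hz
  refine mem_closure_of_tendsto (f := fun k : ℕ => ((z.1, z.2 + 1 / ((k : ℝ) + 1)) : ℝ × ℝ))
    (b := atTop) ?_ (Eventually.of_forall fun k => ?_)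
  · have h2 : Tendsto (fun k : ℕ => z.2 + 1 / ((k : ℝ) + 1)) atTop (𝓝 (z.2 + 0)) :=
      tendsto_const_nhds.add tendsto_one_div_add_atTop_nhds_zero_nat
    rw [add_zero] at h2
    exact (tendsto_const_nhds (x := z.1)).prodMk_nhds h2
  · change 0 < z.2 + 1 / ((k : ℝ) + 1)
    positivity

/-- functions with bounded gradient in the half plane are Lipschitz -/
lemma C1bar.lip {u ux uy : ℝ × ℝ → ℝ} (h : C1bar u ux uy) {C : ℝ}
    (hC : ∀ z ∈ Hset, |ux z| ≤ C ∧ |uy z| ≤ C) {z w : ℝ × ℝ} (hz : z ∈ Hbar) (hw : w ∈ Hbar) :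
    |u z - u w| ≤ 2 * C * ‖z - w‖ := by
  have h1 : ∀ z ∈ Hset, ∀ w ∈ Hset, |u z - u w| ≤ 2 * C * ‖z - w‖ := by
    intro z hz w hw
    have := convex_Hset.norm_image_sub_le_of_norm_hasFDerivWithin_le
      (f := u) (f' := fun z => lin (ux z) (uy z)) (C := 2 * C)
      (fun x hx => (h.deriv x hx).hasFDerivWithinAt)
      (fun x hx => (norm_lin_le _ _).trans (by linarith [(hC x hx).1, (hC x hx).2])) hw hz
    rwa [Real.norm_eq_abs] at this
  have key : ∀ z ∈ Hbar, Tendsto (fun k : ℕ => ((z.1, z.2 + 1 / ((k : ℝ) + 1)) : ℝ × ℝ)) atTop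
      (𝓝[Hbar] z) := by
    intro z hz
    have hz' : 0 ≤ z.2 := hz
    refine tendsto_nhdsWithin_iff.2 ⟨?_, Eventually.of_forall fun k => ?_⟩
    · have h2 : Tendsto (fun k : ℕ => z.2 + 1 / ((k : ℝ) + 1)) atTop (𝓝 (z.2 + 0)) :=
        tendsto_const_nhds.add tendsto_one_div_add_atTop_nhds_zero_nat
      rw [add_zero] at h2
      exact (tendsto_const_nhds (x := z.1)).prodMk_nhds h2
    · change 0 ≤ z.2 + 1 / ((k : ℝ) + 1)
      positivity
  have tz := key z hz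
  have tw := key w hw
  have t1 := ((h.cont z hz).tendsto.comp tz).sub ((h.cont w hw).tendsto.comp tw)
  have t2 := (tz.mono_right nhdsWithin_le_nhds).sub (tw.mono_right nhdsWithin_le_nhds)
  refine le_of_tendsto_of_tendsto' t1.abs (t2.norm.const_mul (2 * C)) fun k => ?_
  have hz' : 0 ≤ z.2 := hz
  have hw' : 0 ≤ w.2 := hw
  refine h1 _ ?_ _ ?_
  · change 0 < z.2 + 1 / ((k : ℝ) + 1)
    positivity
  · change 0 < w.2 + 1 / ((k : ℝ) + 1)
    positivity

lemma norm_abs2_sub_le (z w : ℝ × ℝ) : ‖abs2 z - abs2 w‖ ≤ ‖z - w‖ := by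
  unfold abs2
  rw [Prod.norm_def, Prod.norm_def]
  refine max_le_max le_rfl ?_
  simp only [Prod.snd_sub, Real.norm_eq_abs]
  exact abs_abs_sub_abs_le _ _

/-- **Existence of solutions by monotone iteration.** -/
theorem exists_sol {β : ℝ → ℝ} {m : ℝ} {T : (ℝ × ℝ →ᵇ ℝ) → (ℝ × ℝ →ᵇ ℝ)} {P : ℝ × ℝ →ᵇ ℝ}
    {fc : ℝ → ℝ} (hT : RobinOp β m T) (hβc : Continuous β) (hβ : ∀ x, 0 ≤ β x) (hm : 0 < m)
    (hN : NL m P fc) (u0 : ℝ × ℝ →ᵇ ℝ) (h0 : ∀ z ∈ Hbar, 0 ≤ u0 z)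
    (hsup : ∀ z ∈ Hbar, T (rhs hN u0) z ≤ u0 z) :
    ∃ (U : ℝ × ℝ →ᵇ ℝ) (Ux Uy : ℝ × ℝ → ℝ), C1bar U Ux Uy ∧
      (∀ z ∈ Hbar, 0 ≤ U z ∧ U z ≤ u0 z) ∧
      (∀ ψ ψx ψy : ℝ × ℝ → ℝ, Test ψ ψx ψy →
        (∫ z in Hset, (Ux z * ψx z + Uy z * ψy z)) + (∫ x, β x * U (x, 0) * ψ (x, 0)) =
          ∫ z in Hset, P z * fc (U z) * ψ z) ∧
      (∀ s, IsSub β P fc s → (∀ z ∈ Hbar, s z ≤ u0 z) → ∀ z ∈ Hbar, s z ≤ U z) ∧
      ∃ C : ℝ, ∀ z ∈ Hset, |Ux z| ≤ C ∧ |Uy z| ≤ C := by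
  set un := iter hN T u0 with hun
  have un0 : un 0 = u0 := rfl
  have uns : ∀ n, un (n + 1) = T (rhs hN (un n)) := fun n => rfl
  have rmono : ∀ a b : ℝ × ℝ →ᵇ ℝ, (∀ z ∈ Hbar, a z ≤ b z) →
      ∀ z ∈ Hset, rhs hN a z ≤ rhs hN b z := by
    intro a b hab z hz
    rw [rhs_apply, rhs_apply]
    exact hN.mono z _ _ (hab z (Hset_subset_Hbar hz))
  have dec : ∀ n, ∀ z ∈ Hbar, un (n + 1) z ≤ un n z := by
    intro n
    induction n with
    | zero => exact hsup
    | succ n ih =>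
      rw [uns (n + 1), uns n] 
      exact hT.mono hβc hβ hm _ _ (rmono _ _ ih)
  have pos : ∀ n, ∀ z ∈ Hbar, 0 ≤ un n z := by
    intro n
    induction n with
    | zero => exact h0
    | succ n ih =>
      rw [uns n]
      refine hT.ge_of_sub hβc hβ hm (C2bar.const 0) (M := 0) (fun _ _ => le_rfl) _ ?_ ?_
      · intro z hz
        rw [rhs_apply]
        have h1 := ih z (Hset_subset_Hbar hz)
        have h2 := hN.nonneg z (un n z)
        have h3 := mul_nonneg hm.le h1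
        simp only [add_zero, neg_zero, mul_zero]
        linarith
      · intro x; simp
  have le0 : ∀ n, ∀ z ∈ Hbar, un n z ≤ u0 z := by
    intro n
    induction n with
    | zero => exact fun _ _ => le_rfl
    | succ n ih => exact fun z hz => (dec n z hz).trans (ih z hz)
  have even : ∀ n z, un (n + 1) (abs2 z) = un (n + 1) z := by
    intro n z
    rw [uns n]; exact hT.even _ z
  obtain ⟨Cf, hCf⟩ := hN.bdd
  have hCf0 : 0 ≤ Cf := (abs_nonneg _).trans (hCf 0)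
  have nb : ∀ n, ‖un n‖ ≤ ‖u0‖ := by
    intro n
    cases n with
    | zero => exact le_rfl
    | succ n =>
      refine (BoundedContinuousFunction.norm_le (norm_nonneg _)).2 fun z => ?_
      rw [← even n z, Real.norm_eq_abs, abs_of_nonneg (pos (n + 1) _ (abs2_mem z))]
      exact (le0 (n + 1) _ (abs2_mem z)).trans ((le_abs_self _).trans (abs_bcf_le u0 _))
  have rb : ∀ u : ℝ × ℝ →ᵇ ℝ, ‖u‖ ≤ ‖u0‖ → ‖rhs hN u‖ ≤ m * ‖u0‖ + ‖P‖ * Cf := by
    intro u hu
    refine (BoundedContinuousFunction.norm_le (by positivity)).2 fun z => ?_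
    rw [rhs_apply, Real.norm_eq_abs]
    refine (abs_add_le _ _).trans (add_le_add ?_ ?_)
    · rw [abs_mul, abs_of_pos hm]
      exact mul_le_mul_of_nonneg_left ((abs_bcf_le u z).trans hu) hm.le
    · rw [abs_mul]
      exact mul_le_mul (abs_bcf_le P z) (hCf _) (abs_nonneg _) (norm_nonneg _)
  obtain ⟨Cg, hCg0, hCg⟩ := hT.grad
  set L := Cg * (m * ‖u0‖ + ‖P‖ * Cf) with hL
  have hL0 : 0 ≤ L := by positivity
  -- Lipschitz bound
  have lip : ∀ n z w, |un (n + 1) z - un (n + 1) w| ≤ 2 * L * ‖z - w‖ := by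
    intro n z w
    obtain ⟨ux, uy, hu, -⟩ := hT.weak (rhs hN (un n))
    have hb : ∀ z ∈ Hset, |ux z| ≤ L ∧ |uy z| ≤ L := by
      intro z hz
      obtain ⟨a, b⟩ := hCg _ ux uy hu z hz
      have := mul_le_mul_of_nonneg_left (rb (un n) (nb n)) hCg0
      exact ⟨a.trans this, b.trans this⟩
    rw [← even n z, ← even n w]
    refine (hu.lip hb (abs2_mem z) (abs2_mem w)).trans ?_
    exact mul_le_mul_of_nonneg_left (norm_abs2_sub_le z w) (by positivity)
  -- the limit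
  have conv : ∀ z, ∃ l, Tendsto (fun n => un (n + 1) z) atTop (𝓝 l) := by
    intro z
    have hanti : Antitone (fun n => un (n + 1) z) := by
      refine antitone_nat_of_succ_le fun n => ?_
      rw [← even n z, ← even (n + 1) z]
      exact dec (n + 1) _ (abs2_mem z)
    refine ⟨_, tendsto_atTop_ciInf hanti ⟨0, ?_⟩⟩
    rintro _ ⟨n, rfl⟩
    simp only
    rw [← even n z]
    exact pos (n + 1) _ (abs2_mem z)
  choose Uf hUf using conv
  have Ulip : ∀ z w, |Uf z - Uf w| ≤ 2 * L * ‖z - w‖ := by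
    intro z w
    exact le_of_tendsto' ((hUf z).sub (hUf w)).abs fun n => lip n z w
  have Ucont : Continuous Uf := by
    have : LipschitzWith (Real.toNNReal (2 * L)) Uf := by
      refine LipschitzWith.of_dist_le_mul fun z w => ?_
      rw [Real.dist_eq, dist_eq_norm, Real.coe_toNNReal _ (by positivity)]
      exact Ulip z w
    exact this.continuous
  have Ubd : ∀ z, ‖Uf z‖ ≤ ‖u0‖ := by
    intro z
    rw [Real.norm_eq_abs]
    exact le_of_tendsto' (hUf z).abs fun n => (abs_bcf_le _ z).trans (nb (n + 1))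
  set U : ℝ × ℝ →ᵇ ℝ := BoundedContinuousFunction.ofNormedAddCommGroup Uf Ucont ‖u0‖ Ubd with hU
  have hUlim : ∀ z, Tendsto (fun n => un (n + 1) z) atTop (𝓝 (U z)) := hUf
  have Un : ‖U‖ ≤ ‖u0‖ := (BoundedContinuousFunction.norm_le (norm_nonneg _)).2 Ubd
  -- the fixed point equation
  have fix : T (rhs hN U) = U := by
    ext z
    have t1 := hT.sigma (fun n => rhs hN (un (n + 1))) (rhs hN U) (m * ‖u0‖ + ‖P‖ * Cf)
      (fun n => rb _ (nb _)) (fun w => by
        simp only [rhs_apply]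
        exact ((hUlim w).const_mul m).add
          (((hN.cont.tendsto _).comp (hUlim w)).const_mul (P w))) z
    have t2 : Tendsto (fun n => un (n + 1 + 1) z) atTop (𝓝 (U z)) :=
      (hUlim z).comp (tendsto_add_atTop_nat 1)
    exact tendsto_nhds_unique t1 t2
  obtain ⟨Ux, Uy, hC1, hw⟩ := hT.weak (rhs hN U)
  have hgr := hCg _ Ux Uy hC1
  rw [fix] at hC1 hw
  refine ⟨U, Ux, Uy, hC1, ?_, ?_, ?_, L, ?_⟩
  · intro z hz
    exact ⟨ge_of_tendsto' (hUlim z) fun n => pos (n + 1) z hz,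
      le_of_tendsto' (hUlim z) fun n => le0 (n + 1) z hz⟩
  · intro ψ ψx ψy ht
    have h1 := hw ψ ψx ψy ht
    obtain ⟨c0, c1, c2⟩ := ht.cc
    have i1 : IntegrableOn (fun z => m * (U z * ψ z)) Hset :=
      ((c0.mul_left U.continuous.continuousOn).integrableOn).const_mul m
    have i2 : IntegrableOn (fun z => P z * fc (U z) * ψ z) Hset :=
      (c0.mul_left (u := fun z => P z * fc (U z))
        (P.continuous.mul (hN.cont.comp U.continuous)).continuousOn).integrableOn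
    have e1 : (∫ z in Hset, rhs hN U z * ψ z) =
        m * (∫ z in Hset, U z * ψ z) + ∫ z in Hset, P z * fc (U z) * ψ z := by
      rw [← integral_const_mul, ← integral_add i1 i2]
      refine integral_congr_ae (Eventually.of_forall fun z => ?_)
      simp only [rhs_apply]
      ring
    rw [e1] at h1
    linarith
  · intro s hs hs0
    obtain ⟨M, hM⟩ := hs.bdd
    obtain ⟨sx, sy, sxx, syy, hs2, hint, hbd⟩ := hs.ineq
    have key : ∀ n, ∀ z ∈ Hbar, s z ≤ un n z := by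
      intro n
      induction n with
      | zero => exact hs0
      | succ n ih =>
        rw [uns n]
        refine hT.ge_of_sub hβc hβ hm hs2 hM _ (fun z hz => ?_) hbd
        rw [rhs_apply]
        have h1 := hN.mono z _ _ (ih z (Hset_subset_Hbar hz))
        have h2 := hint z hz
        linarith
    intro z hz
    exact ge_of_tendsto' (hUlim z) fun n => key (n + 1) z hz
  · intro z hz
    obtain ⟨a, b⟩ := hgr z hz
    have := mul_le_mul_of_nonneg_left (rb U Un) hCg0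
    exact ⟨a.trans this, b.trans this⟩

end Pool.Agent.Lib.MP_1dc5fb
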