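import Mathlib

/-!
Ray representation of the resolvent of the Laplacian in the plane, acting on bounded continuous
functions.
-/

set_option autoImplicit false

open MeasureTheory Set Filter Topology
open scoped BoundedContinuousFunction

namespace Pool.Agent.Lib.MP_1dc5fb

/-- Measure on the space of rays: a parameter in `(0, ∞)` and a direction in the plane. -/
noncomputable def rayMeasure : Measure (ℝ × (ℝ × ℝ)) :=
  (volume.restrict (Ioi (0 : ℝ))).prod volume

instance : SFinite rayMeasure := by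
  unfold rayMeasure; infer_instance

/-- The point reached on a ray. -/
def shift (h : ℝ) (z : ℝ × ℝ) (p : ℝ × (ℝ × ℝ)) : ℝ × ℝ :=
  (z.1 - h * p.1 * p.2.1, z.2 - h * p.1 * p.2.2)

lemma continuous_shift (h : ℝ) :
    Continuous (fun q : (ℝ × ℝ) × (ℝ × (ℝ × ℝ)) => shift h q.1 q.2) := by
  unfold shift; fun_prop

lemma continuous_shift_left (h : ℝ) (p : ℝ × (ℝ × ℝ)) :
    Continuous (fun z : ℝ × ℝ => shift h z p) := by
  unfold shift; fun_prop

lemma continuous_shift_right (h : ℝ) (z : ℝ × ℝ) :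
    Continuous (fun p : ℝ × (ℝ × ℝ) => shift h z p) := by
  unfold shift; fun_prop

/-- Averaging along rays with a weight `K`. -/
noncomputable def convFun (h : ℝ) (K : ℝ × (ℝ × ℝ) → ℝ) (F : ℝ × ℝ → ℝ) (z : ℝ × ℝ) : ℝ :=
  ∫ p, K p * F (shift h z p) ∂rayMeasure

lemma integrable_conv {h : ℝ} {K : ℝ × (ℝ × ℝ) → ℝ} (hK : Integrable K rayMeasure)
    {F : ℝ × ℝ → ℝ} (hF : Continuous F) {C : ℝ} (hC : ∀ z, |F z| ≤ C) (z : ℝ × ℝ) :
    Integrable (fun p => K p * F (shift h z p)) rayMeasure := by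
  refine Integrable.mono (hK.norm.mul_const C) ?_ ?_
  · exact hK.aestronglyMeasurable.mul
      (hF.comp (continuous_shift_right h z)).aestronglyMeasurable
  · refine Eventually.of_forall fun p => ?_
    have hC0 : 0 ≤ C := (abs_nonneg _).trans (hC (0, 0))
    rw [norm_mul, Real.norm_eq_abs (F _), norm_mul, norm_norm, Real.norm_eq_abs C,
      abs_of_nonneg hC0]
    exact mul_le_mul_of_nonneg_left (hC _) (norm_nonneg _)

lemma abs_convFun_le {h : ℝ} {K : ℝ × (ℝ × ℝ) → ℝ} (hK : Integrable K rayMeasure)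
    {F : ℝ × ℝ → ℝ} {C : ℝ} (hC : ∀ z, |F z| ≤ C) (z : ℝ × ℝ) :
    |convFun h K F z| ≤ (∫ p, |K p| ∂rayMeasure) * C := by
  unfold convFun
  rw [← integral_mul_const]
  rw [← Real.norm_eq_abs]
  refine norm_integral_le_of_norm_le (hK.norm.mul_const C) ?_
  refine Eventually.of_forall fun p => ?_
  rw [norm_mul, Real.norm_eq_abs (F _)]
  exact mul_le_mul_of_nonneg_left (hC _) (norm_nonneg _)

lemma continuous_convFun {h : ℝ} {K : ℝ × (ℝ × ℝ) → ℝ} (hK : Integrable K rayMeasure)
    {F : ℝ × ℝ → ℝ} (hF : Continuous F) {C : ℝ} (hC : ∀ z, |F z| ≤ C) :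
    Continuous (convFun h K F) := by
  unfold convFun
  refine continuous_of_dominated (bound := fun p => ‖K p‖ * C) ?_ ?_ (hK.norm.mul_const C) ?_
  · intro z
    exact (integrable_conv hK hF hC z).aestronglyMeasurable
  · intro z
    refine Eventually.of_forall fun p => ?_
    rw [norm_mul, Real.norm_eq_abs (F _)]
    exact mul_le_mul_of_nonneg_left (hC _) (norm_nonneg _)
  · refine Eventually.of_forall fun p => ?_
    exact continuous_const.mul (hF.comp (continuous_shift_left h p))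

lemma abs_bcf_le (F : ℝ × ℝ →ᵇ ℝ) (z : ℝ × ℝ) : |F z| ≤ ‖F‖ := by
  rw [← Real.norm_eq_abs]; exact F.norm_coe_le_norm z

/-- Averaging along rays as a bounded operator on bounded continuous functions. -/
noncomputable def conv (h : ℝ) (K : ℝ × (ℝ × ℝ) → ℝ) (hK : Integrable K rayMeasure) :
    (ℝ × ℝ →ᵇ ℝ) →L[ℝ] (ℝ × ℝ →ᵇ ℝ) :=
  LinearMap.mkContinuous
    { toFun := fun F => BoundedContinuousFunction.ofNormedAddCommGroup (convFun h K F)
        (continuous_convFun hK F.continuous (abs_bcf_le F))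
        ((∫ p, |K p| ∂rayMeasure) * ‖F‖)
        (fun z => by
          rw [Real.norm_eq_abs]
          exact abs_convFun_le hK (abs_bcf_le F) z)
      map_add' := by
        intro F G
        ext z
        simp only [BoundedContinuousFunction.coe_ofNormedAddCommGroup,
          BoundedContinuousFunction.coe_add, Pi.add_apply]
        unfold convFun
        rw [← integral_add (integrable_conv hK F.continuous (abs_bcf_le F) z)
          (integrable_conv hK G.continuous (abs_bcf_le G) z)]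
        refine integral_congr_ae (Eventually.of_forall fun p => ?_)
        simp only [Pi.add_apply]
        ring
      map_smul' := by
        intro c F
        ext z
        simp only [BoundedContinuousFunction.coe_ofNormedAddCommGroup,
          BoundedContinuousFunction.coe_smul, RingHom.id_apply, smul_eq_mul]
        unfold convFun
        rw [← integral_const_mul]
        refine integral_congr_ae (Eventually.of_forall fun p => ?_)
        ring }
    (∫ p, |K p| ∂rayMeasure)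
    (fun F => by
      refine (BoundedContinuousFunction.norm_le (by positivity)).2 fun z => ?_
      rw [Real.norm_eq_abs]
      exact abs_convFun_le hK (abs_bcf_le F) z)

@[simp] lemma conv_apply (h : ℝ) (K : ℝ × (ℝ × ℝ) → ℝ) (hK : Integrable K rayMeasure)
    (F : ℝ × ℝ →ᵇ ℝ) (z : ℝ × ℝ) : conv h K hK F z = convFun h K F z := rfl

lemma norm_conv_le (h : ℝ) (K : ℝ × (ℝ × ℝ) → ℝ) (hK : Integrable K rayMeasure) :
    ‖conv h K hK‖ ≤ ∫ p, |K p| ∂rayMeasure :=
  LinearMap.mkContinuous_norm_le _ (by positivity) _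

/-- Continuity of the averages along bounded pointwise convergence. -/
lemma tendsto_convFun {h : ℝ} {K : ℝ × (ℝ × ℝ) → ℝ} (hK : Integrable K rayMeasure)
    {F : ℕ → ℝ × ℝ → ℝ} {G : ℝ × ℝ → ℝ} (hF : ∀ n, Continuous (F n)) {C : ℝ}
    (hC : ∀ n z, |F n z| ≤ C) (hlim : ∀ z, Tendsto (fun n => F n z) atTop (𝓝 (G z)))
    (z : ℝ × ℝ) :
    Tendsto (fun n => convFun h K (F n) z) atTop (𝓝 (convFun h K G z)) := by
  unfold convFun
  refine tendsto_integral_of_dominated_convergence (fun p => ‖K p‖ * C) ?_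
    (hK.norm.mul_const C) ?_ ?_
  · intro n
    exact (integrable_conv hK (hF n) (hC n) z).aestronglyMeasurable
  · intro n
    refine Eventually.of_forall fun p => ?_
    rw [norm_mul, Real.norm_eq_abs (F _ _)]
    exact mul_le_mul_of_nonneg_left (hC _ _) (norm_nonneg _)
  · refine Eventually.of_forall fun p => ?_
    exact (hlim _).const_mul _

/-! ### The Gaussian weights -/

/-- weight for the resolvent -/
noncomputable def K0 (h : ℝ) (p : ℝ × (ℝ × ℝ)) : ℝ :=
  (h ^ 2 / 2 * (p.1 * Real.exp (-p.1 ^ 2))) *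
    (Real.exp (-p.2.1 ^ 2) * Real.exp (-p.2.2 ^ 2) / Real.pi)

/-- weight for the first partial derivative of the resolvent -/
noncomputable def K1 (h : ℝ) (p : ℝ × (ℝ × ℝ)) : ℝ :=
  (-h * Real.exp (-p.1 ^ 2)) *
    ((p.2.1 * Real.exp (-p.2.1 ^ 2)) * Real.exp (-p.2.2 ^ 2) / Real.pi)

/-- weight for the second partial derivative of the resolvent -/
noncomputable def K2 (h : ℝ) (p : ℝ × (ℝ × ℝ)) : ℝ :=
  (-h * Real.exp (-p.1 ^ 2)) *
    (Real.exp (-p.2.1 ^ 2) * (p.2.2 * Real.exp (-p.2.2 ^ 2)) / Real.pi)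

lemma int_gauss : Integrable (fun x : ℝ => Real.exp (-x ^ 2)) := by
  simpa using integrable_exp_neg_mul_sq (b := 1) one_pos

lemma int_xgauss : Integrable (fun x : ℝ => x * Real.exp (-x ^ 2)) := by
  simpa using integrable_mul_exp_neg_mul_sq (b := 1) one_pos

lemma int_x2gauss : Integrable (fun x : ℝ => x ^ 2 * Real.exp (-x ^ 2)) := by
  have := integrable_rpow_mul_exp_neg_mul_sq (b := 1) one_pos (s := 2) (by norm_num)
  refine this.congr (Eventually.of_forall fun x => ?_)
  simp only [one_mul, neg_mul]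
  congr 1
  norm_cast

lemma integral_gauss : ∫ x : ℝ, Real.exp (-x ^ 2) = √Real.pi := by
  simpa using integral_gaussian 1

lemma int_K0 (h : ℝ) : Integrable (K0 h) rayMeasure := by
  unfold rayMeasure K0
  refine Integrable.mul_prod (f := fun s : ℝ => h ^ 2 / 2 * (s * Real.exp (-s ^ 2)))
    (g := fun q : ℝ × ℝ => Real.exp (-q.1 ^ 2) * Real.exp (-q.2 ^ 2) / Real.pi)
    (int_xgauss.integrableOn.const_mul _) ?_
  exact (Integrable.mul_prod (f := fun s : ℝ => Real.exp (-s ^ 2))
    (g := fun s : ℝ => Real.exp (-s ^ 2)) int_gauss int_gauss).div_const _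

lemma int_K1 (h : ℝ) : Integrable (K1 h) rayMeasure := by
  unfold rayMeasure K1
  refine Integrable.mul_prod (f := fun s : ℝ => -h * Real.exp (-s ^ 2))
    (g := fun q : ℝ × ℝ => (q.1 * Real.exp (-q.1 ^ 2)) * Real.exp (-q.2 ^ 2) / Real.pi)
    (int_gauss.integrableOn.const_mul _) ?_
  exact (Integrable.mul_prod (f := fun s : ℝ => s * Real.exp (-s ^ 2))
    (g := fun s : ℝ => Real.exp (-s ^ 2)) int_xgauss int_gauss).div_const _

lemma int_K2 (h : ℝ) : Integrable (K2 h) rayMeasure := by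
  unfold rayMeasure K2
  refine Integrable.mul_prod (f := fun s : ℝ => -h * Real.exp (-s ^ 2))
    (g := fun q : ℝ × ℝ => Real.exp (-q.1 ^ 2) * (q.2 * Real.exp (-q.2 ^ 2)) / Real.pi)
    (int_gauss.integrableOn.const_mul _) ?_
  exact (Integrable.mul_prod (f := fun s : ℝ => Real.exp (-s ^ 2))
    (g := fun s : ℝ => s * Real.exp (-s ^ 2)) int_gauss int_xgauss).div_const _

/-- the constants in the norm bounds -/
noncomputable def c0 : ℝ := ∫ p, |K0 1 p| ∂rayMeasure
noncomputable def c1 : ℝ := ∫ p, |K1 1 p| ∂rayMeasure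
noncomputable def c2 : ℝ := ∫ p, |K2 1 p| ∂rayMeasure

lemma integral_abs_K0 (h : ℝ) : ∫ p, |K0 h p| ∂rayMeasure = h ^ 2 * c0 := by
  unfold c0
  rw [← integral_const_mul]
  refine integral_congr_ae (Eventually.of_forall fun p => ?_)
  have : K0 h p = h ^ 2 * K0 1 p := by unfold K0; ring
  simp only [this, abs_mul, abs_pow, sq_abs]

lemma integral_abs_K1 (h : ℝ) : ∫ p, |K1 h p| ∂rayMeasure = |h| * c1 := by
  unfold c1
  rw [← integral_const_mul]
  refine integral_congr_ae (Eventually.of_forall fun p => ?_)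
  have : K1 h p = h * K1 1 p := by unfold K1; ring
  simp only [this, abs_mul]

lemma integral_abs_K2 (h : ℝ) : ∫ p, |K2 h p| ∂rayMeasure = |h| * c2 := by
  unfold c2
  rw [← integral_const_mul]
  refine integral_congr_ae (Eventually.of_forall fun p => ?_)
  have : K2 h p = h * K2 1 p := by unfold K2; ring
  simp only [this, abs_mul]

/-- the resolvent and its formal partial derivatives -/
noncomputable def V (h : ℝ) : (ℝ × ℝ →ᵇ ℝ) →L[ℝ] (ℝ × ℝ →ᵇ ℝ) := conv h (K0 h) (int_K0 h)
noncomputable def V1 (h : ℝ) : (ℝ × ℝ →ᵇ ℝ) →L[ℝ] (ℝ × ℝ →ᵇ ℝ) := conv h (K1 h) (int_K1 h)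
noncomputable def V2 (h : ℝ) : (ℝ × ℝ →ᵇ ℝ) →L[ℝ] (ℝ × ℝ →ᵇ ℝ) := conv h (K2 h) (int_K2 h)

lemma V_apply (h : ℝ) (F : ℝ × ℝ →ᵇ ℝ) (z : ℝ × ℝ) : V h F z = convFun h (K0 h) F z := rfl
lemma V1_apply (h : ℝ) (F : ℝ × ℝ →ᵇ ℝ) (z : ℝ × ℝ) : V1 h F z = convFun h (K1 h) F z := rfl
lemma V2_apply (h : ℝ) (F : ℝ × ℝ →ᵇ ℝ) (z : ℝ × ℝ) : V2 h F z = convFun h (K2 h) F z := rfl

lemma norm_V_le (h : ℝ) : ‖V h‖ ≤ h ^ 2 * c0 := by
  rw [← integral_abs_K0]; exact norm_conv_le _ _ _
lemma norm_V1_le (h : ℝ) : ‖V1 h‖ ≤ |h| * c1 := by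
  rw [← integral_abs_K1]; exact norm_conv_le _ _ _
lemma norm_V2_le (h : ℝ) : ‖V2 h‖ ≤ |h| * c2 := by
  rw [← integral_abs_K2]; exact norm_conv_le _ _ _

end Pool.Agent.Lib.MP_1dc5fb
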