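import Mathlib

/-!
Neumann series in a Banach space, in elementary form.
-/

set_option autoImplicit false

open Filter Topology

namespace Pool.Agent.Lib.MP_1dc5fb

section
variable {E : Type*} [NormedAddCommGroup E] [NormedSpace ℝ E] [CompleteSpace E]

/-- iterates -/
def itA (A : E →L[ℝ] E) (g : E) : ℕ → E
  | 0 => g
  | (n + 1) => A (itA A g n)

lemma norm_itA_le {A : E →L[ℝ] E} (hA : ‖A‖ ≤ 1 / 2) (g : E) (n : ℕ) :
    ‖itA A g n‖ ≤ (1 / 2) ^ n * ‖g‖ := by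
  induction n with
  | zero => simp [itA]
  | succ n ih =>
    calc ‖itA A g (n + 1)‖ = ‖A (itA A g n)‖ := rfl
      _ ≤ ‖A‖ * ‖itA A g n‖ := A.le_opNorm _
      _ ≤ 1 / 2 * ((1 / 2) ^ n * ‖g‖) := mul_le_mul hA ih (norm_nonneg _) (by norm_num)
      _ = (1 / 2) ^ (n + 1) * ‖g‖ := by ring

lemma summable_itA {A : E →L[ℝ] E} (hA : ‖A‖ ≤ 1 / 2) (g : E) : Summable (itA A g) :=
  Summable.of_norm_bounded (summable_geometric_two.mul_right ‖g‖) (norm_itA_le hA g)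

/-- solution of `F = g + A F` -/
noncomputable def solF (A : E →L[ℝ] E) (g : E) : E := ∑' n : ℕ, itA A g n

lemma solF_eq {A : E →L[ℝ] E} (hA : ‖A‖ ≤ 1 / 2) (g : E) : solF A g = g + A (solF A g) := by
  unfold solF
  rw [A.map_tsum (summable_itA hA g)]
  exact (summable_itA hA g).tsum_eq_zero_add

lemma solF_apply {A : E →L[ℝ] E} (hA : ‖A‖ ≤ 1 / 2) (g : E) (L : E →L[ℝ] ℝ) :
    L (solF A g) = ∑' n : ℕ, L (itA A g n) :=
  L.map_tsum (summable_itA hA g)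

lemma norm_solF_le {A : E →L[ℝ] E} (hA : ‖A‖ ≤ 1 / 2) (g : E) : ‖solF A g‖ ≤ 2 * ‖g‖ := by
  have h2 : ‖solF A g‖ ≤ ‖g‖ + 1 / 2 * ‖solF A g‖ := by
    calc ‖solF A g‖ = ‖g + A (solF A g)‖ := by rw [← solF_eq hA g]
      _ ≤ ‖g‖ + ‖A (solF A g)‖ := norm_add_le _ _
      _ ≤ ‖g‖ + 1 / 2 * ‖solF A g‖ := by
          refine add_le_add le_rfl ((A.le_opNorm _).trans ?_)
          exact mul_le_mul_of_nonneg_right hA (norm_nonneg _)
  linarith

end

end Pool.Agent.Lib.MP_1dc5fb
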