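import Pool.Agent.Lib.MP_1dc5fb_an.HalfPlane
import Pool.Agent.Lib.MP_1dc5fb_an.Series

/-!
The linear Robin problem `-Δu + (4/h²) u = g` in the half plane, `u_y = β u` on the boundary, for
bounded continuous data `g` and small `h`.
-/

set_option autoImplicit false

open MeasureTheory Set Filter Topology
open scoped BoundedContinuousFunction

namespace Pool.Agent.Lib.MP_1dc5fb

/-- a bounded continuous function on the plane from one on the closed half plane -/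
noncomputable def mkB (w : ℝ × ℝ → ℝ) (hw : ContinuousOn w Hbar)
    (hC : ∃ C : ℝ, ∀ z ∈ Hbar, |w z| ≤ C) : ℝ × ℝ →ᵇ ℝ :=
  BoundedContinuousFunction.ofNormedAddCommGroup (fun z => w (abs2 z)) (continuous_comp_abs2 hw)
    hC.choose (fun z => by rw [Real.norm_eq_abs]; exact hC.choose_spec _ (abs2_mem z))

lemma mkB_apply {w : ℝ × ℝ → ℝ} (hw : ContinuousOn w Hbar)
    (hC : ∃ C : ℝ, ∀ z ∈ Hbar, |w z| ≤ C) (z : ℝ × ℝ) : mkB w hw hC z = w (abs2 z) := rfl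

lemma mkB_apply_of_mem {w : ℝ × ℝ → ℝ} (hw : ContinuousOn w Hbar)
    (hC : ∃ C : ℝ, ∀ z ∈ Hbar, |w z| ≤ C) {z : ℝ × ℝ} (hz : z ∈ Hbar) : mkB w hw hC z = w z := by
  rw [mkB_apply, abs2_of_mem hz]

/-- even reflection as an operator -/
noncomputable def absL : (ℝ × ℝ →ᵇ ℝ) →L[ℝ] (ℝ × ℝ →ᵇ ℝ) :=
  LinearMap.mkContinuous
    { toFun := fun F => F.compContinuous ⟨abs2, continuous_abs2⟩
      map_add' := fun F G => by ext z; rfl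
      map_smul' := fun c F => by ext z; rfl }
    1 (fun F => by
      rw [one_mul]
      refine (BoundedContinuousFunction.norm_le (norm_nonneg _)).2 fun z => ?_
      exact F.norm_coe_le_norm _)

@[simp] lemma absL_apply (F : ℝ × ℝ →ᵇ ℝ) (z : ℝ × ℝ) : absL F z = F (abs2 z) := rfl

lemma norm_absL_le : ‖absL‖ ≤ 1 := LinearMap.mkContinuous_norm_le _ zero_le_one _

lemma abs2_neg (x y : ℝ) : abs2 (x, -y) = abs2 (x, y) := by simp [abs2]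

/-- the perturbation operator -/
noncomputable def opA (h : ℝ) (B1 B2 B0 : ℝ × ℝ →ᵇ ℝ) : (ℝ × ℝ →ᵇ ℝ) →L[ℝ] (ℝ × ℝ →ᵇ ℝ) :=
  (ContinuousLinearMap.mul ℝ (ℝ × ℝ →ᵇ ℝ) B1).comp (absL.comp (V1 h)) +
  (ContinuousLinearMap.mul ℝ (ℝ × ℝ →ᵇ ℝ) B2).comp (absL.comp (V2 h)) +
  (ContinuousLinearMap.mul ℝ (ℝ × ℝ →ᵇ ℝ) B0).comp (absL.comp (V h))

lemma opA_apply (h : ℝ) (B1 B2 B0 F : ℝ × ℝ →ᵇ ℝ) (z : ℝ × ℝ) :
    opA h B1 B2 B0 F z =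
      B1 z * V1 h F (abs2 z) + B2 z * V2 h F (abs2 z) + B0 z * V h F (abs2 z) := by
  simp [opA]

lemma norm_opA_le (h : ℝ) (B1 B2 B0 : ℝ × ℝ →ᵇ ℝ) :
    ‖opA h B1 B2 B0‖ ≤ ‖B1‖ * (|h| * c1) + ‖B2‖ * (|h| * c2) + ‖B0‖ * (h ^ 2 * c0) := by
  have hc0 : 0 ≤ c0 := integral_nonneg fun _ => abs_nonneg _
  have hc1 : 0 ≤ c1 := integral_nonneg fun _ => abs_nonneg _
  have hc2 : 0 ≤ c2 := integral_nonneg fun _ => abs_nonneg _
  have key : ∀ (B F : ℝ × ℝ →ᵇ ℝ) (T : (ℝ × ℝ →ᵇ ℝ) →L[ℝ] (ℝ × ℝ →ᵇ ℝ)) (c : ℝ) (z : ℝ × ℝ),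
      ‖T‖ ≤ c → |B z * T F (abs2 z)| ≤ ‖B‖ * c * ‖F‖ := by
    intro B F T c z hT
    rw [abs_mul, mul_assoc]
    refine mul_le_mul (abs_bcf_le B z) ?_ (abs_nonneg _) (norm_nonneg B)
    exact (abs_bcf_le _ _).trans ((T.le_opNorm F).trans
      (mul_le_mul_of_nonneg_right hT (norm_nonneg F)))
  refine ContinuousLinearMap.opNorm_le_bound _ (by positivity) fun F => ?_
  refine (BoundedContinuousFunction.norm_le (by positivity)).2 fun z => ?_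
  rw [opA_apply, Real.norm_eq_abs]
  have k1 := key B1 F (V1 h) _ z (norm_V1_le h)
  have k2 := key B2 F (V2 h) _ z (norm_V2_le h)
  have k3 := key B0 F (V h) _ z (norm_V_le h)
  refine (abs_add_three _ _ _).trans ?_
  linarith

lemma exists_small (B1 B2 B0 : ℝ × ℝ →ᵇ ℝ) :
    ∃ h0 : ℝ, 0 < h0 ∧ ∀ h : ℝ, 0 < h → h ≤ h0 → ‖opA h B1 B2 B0‖ ≤ 1 / 2 := by
  have hc0 : 0 ≤ c0 := integral_nonneg fun _ => abs_nonneg _
  have hc1 : 0 ≤ c1 := integral_nonneg fun _ => abs_nonneg _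
  have hc2 : 0 ≤ c2 := integral_nonneg fun _ => abs_nonneg _
  set M := ‖B1‖ * c1 + ‖B2‖ * c2 + ‖B0‖ * c0 + 1 with hM
  have hMpos : 0 < M := by positivity
  refine ⟨min 1 (1 / (2 * M)), by positivity, fun h hpos hle => ?_⟩
  have h1 : h ≤ 1 := hle.trans (min_le_left _ _)
  have h2 : h ≤ 1 / (2 * M) := hle.trans (min_le_right _ _)
  refine (norm_opA_le h B1 B2 B0).trans ?_
  rw [abs_of_pos hpos]
  have h3 : h ^ 2 ≤ h := by nlinarith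
  calc ‖B1‖ * (h * c1) + ‖B2‖ * (h * c2) + ‖B0‖ * (h ^ 2 * c0)
      ≤ ‖B1‖ * (h * c1) + ‖B2‖ * (h * c2) + ‖B0‖ * (h * c0) := by gcongr
    _ = h * (‖B1‖ * c1 + ‖B2‖ * c2 + ‖B0‖ * c0) := by ring
    _ ≤ h * M := by
        refine mul_le_mul_of_nonneg_left ?_ hpos.le
        rw [hM]; linarith
    _ ≤ 1 / (2 * M) * M := mul_le_mul_of_nonneg_right h2 hMpos.le
    _ = 1 / 2 := by field_simp

/-- continuity along bounded pointwise convergence -/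
def SigmaCont (A : (ℝ × ℝ →ᵇ ℝ) →L[ℝ] (ℝ × ℝ →ᵇ ℝ)) : Prop :=
  ∀ (F : ℕ → (ℝ × ℝ →ᵇ ℝ)) (G : ℝ × ℝ →ᵇ ℝ) (C : ℝ), (∀ n, ‖F n‖ ≤ C) →
    (∀ z, Tendsto (fun n => F n z) atTop (𝓝 (G z))) →
    ∀ z, Tendsto (fun n => A (F n) z) atTop (𝓝 (A G z))

lemma sigma_conv (h : ℝ) (K : ℝ × (ℝ × ℝ) → ℝ) (hK : Integrable K rayMeasure) :
    SigmaCont (conv h K hK) := by
  intro F G C hC hlim z
  exact tendsto_convFun hK (fun n => (F n).continuous)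
    (fun n z => (abs_bcf_le (F n) z).trans (hC n)) hlim z

lemma sigma_opA (h : ℝ) (B1 B2 B0 : ℝ × ℝ →ᵇ ℝ) : SigmaCont (opA h B1 B2 B0) := by
  intro F G C hC hlim z
  simp only [opA_apply]
  exact (((sigma_conv h _ (int_K1 h) F G C hC hlim _).const_mul _).add
    ((sigma_conv h _ (int_K2 h) F G C hC hlim _).const_mul _)).add
    ((sigma_conv h _ (int_K0 h) F G C hC hlim _).const_mul _)

lemma sigma_itA {A : (ℝ × ℝ →ᵇ ℝ) →L[ℝ] (ℝ × ℝ →ᵇ ℝ)} (hA : ‖A‖ ≤ 1 / 2) (hs : SigmaCont A)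
    (F : ℕ → (ℝ × ℝ →ᵇ ℝ)) (G : ℝ × ℝ →ᵇ ℝ) (C : ℝ) (hC : ∀ n, ‖F n‖ ≤ C)
    (hlim : ∀ z, Tendsto (fun n => F n z) atTop (𝓝 (G z))) (k : ℕ) :
    ∀ z, Tendsto (fun n => itA A (F n) k z) atTop (𝓝 (itA A G k z)) := by
  induction k with
  | zero => exact hlim
  | succ k ih =>
    refine hs (fun n => itA A (F n) k) (itA A G k) C (fun n => ?_) ih
    have h0 : 0 ≤ ‖F n‖ := norm_nonneg (F n)
    refine (norm_itA_le hA (F n) k).trans ?_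
    calc (1 / 2 : ℝ) ^ k * ‖F n‖ ≤ 1 * ‖F n‖ :=
          mul_le_mul_of_nonneg_right (pow_le_one₀ (by norm_num) (by norm_num)) h0
      _ = ‖F n‖ := one_mul _
      _ ≤ C := hC n

lemma sigma_solF {A : (ℝ × ℝ →ᵇ ℝ) →L[ℝ] (ℝ × ℝ →ᵇ ℝ)} (hA : ‖A‖ ≤ 1 / 2) (hs : SigmaCont A)
    (F : ℕ → (ℝ × ℝ →ᵇ ℝ)) (G : ℝ × ℝ →ᵇ ℝ) (C : ℝ) (hC : ∀ n, ‖F n‖ ≤ C)
    (hlim : ∀ z, Tendsto (fun n => F n z) atTop (𝓝 (G z))) (z : ℝ × ℝ) :
    Tendsto (fun n => solF A (F n) z) atTop (𝓝 (solF A G z)) := by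
  have e : ∀ H : ℝ × ℝ →ᵇ ℝ, solF A H z = ∑' k : ℕ, itA A H k z := fun H =>
    solF_apply hA H (BoundedContinuousFunction.evalCLM ℝ z)
  simp only [e]
  refine tendsto_tsum_of_dominated_convergence (bound := fun k => (1 / 2) ^ k * C) ?_ ?_ ?_
  · exact summable_geometric_two.mul_right C
  · intro k
    exact sigma_itA hA hs F G C hC hlim k z
  · refine Eventually.of_forall fun n k => ?_
    refine ((itA A (F n) k).norm_coe_le_norm z).trans ?_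
    exact (norm_itA_le hA (F n) k).trans
      (mul_le_mul_of_nonneg_left (hC n) (by positivity))

/-- data for the change of unknown turning the Robin condition into a Neumann condition -/
structure Bdata (b bx by' bxx byy : ℝ × ℝ → ℝ) : Prop extends C2bar b bx by' bxx byy where
  zero : ∀ x, b (x, 0) = 0
  bdd : ∃ C : ℝ, ∀ z ∈ Hbar, |b z| ≤ C ∧ |bx z| ≤ C ∧ |by' z| ≤ C ∧ |bxx z| ≤ C ∧ |byy z| ≤ C

section
variable {b bx by' bxx byy : ℝ × ℝ → ℝ} (hb : Bdata b bx by' bxx byy)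
include hb

lemma Bdata.exists_coef : ∃ B1 B2 B0 Em Ep : ℝ × ℝ →ᵇ ℝ,
    (∀ z, B1 z = 2 * bx (abs2 z)) ∧ (∀ z, B2 z = 2 * by' (abs2 z)) ∧
    (∀ z, B0 z = bxx (abs2 z) + byy (abs2 z) + bx (abs2 z) ^ 2 + by' (abs2 z) ^ 2) ∧
    (∀ z, Em z = Real.exp (-b (abs2 z))) ∧ (∀ z, Ep z = Real.exp (b (abs2 z))) := by
  obtain ⟨C, hC⟩ := hb.bdd
  refine ⟨mkB (fun z => 2 * bx z) (continuousOn_const.mul hb.contx) ⟨2 * C, fun z hz => ?_⟩,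
    mkB (fun z => 2 * by' z) (continuousOn_const.mul hb.conty) ⟨2 * C, fun z hz => ?_⟩,
    mkB (fun z => bxx z + byy z + bx z ^ 2 + by' z ^ 2)
      (((hb.contxx.add hb.contyy).add (hb.contx.pow 2)).add (hb.conty.pow 2))
      ⟨C + C + C ^ 2 + C ^ 2, fun z hz => ?_⟩,
    mkB (fun z => Real.exp (-b z)) (Real.continuous_exp.comp_continuousOn hb.cont.neg)
      ⟨Real.exp C, fun z hz => ?_⟩,
    mkB (fun z => Real.exp (b z)) (Real.continuous_exp.comp_continuousOn hb.cont)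
      ⟨Real.exp C, fun z hz => ?_⟩, fun _ => rfl, fun _ => rfl, fun _ => rfl, fun _ => rfl,
      fun _ => rfl⟩
  · obtain ⟨a0, a1, a2, a3, a4⟩ := hC z hz
    rw [abs_mul, abs_two]; linarith
  · obtain ⟨a0, a1, a2, a3, a4⟩ := hC z hz
    rw [abs_mul, abs_two]; linarith
  · obtain ⟨a0, a1, a2, a3, a4⟩ := hC z hz
    have e1 : |bx z ^ 2| ≤ C ^ 2 := by
      rw [abs_pow]; exact pow_le_pow_left₀ (abs_nonneg _) a1 2
    have e2 : |by' z ^ 2| ≤ C ^ 2 := by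
      rw [abs_pow]; exact pow_le_pow_left₀ (abs_nonneg _) a2 2
    calc |bxx z + byy z + bx z ^ 2 + by' z ^ 2|
        ≤ |bxx z + byy z + bx z ^ 2| + |by' z ^ 2| := abs_add_le _ _
      _ ≤ |bxx z + byy z| + |bx z ^ 2| + |by' z ^ 2| := by gcongr; exact abs_add_le _ _
      _ ≤ |bxx z| + |byy z| + |bx z ^ 2| + |by' z ^ 2| := by gcongr; exact abs_add_le _ _
      _ ≤ C + C + C ^ 2 + C ^ 2 := by gcongr
  · obtain ⟨a0, a1, a2, a3, a4⟩ := hC z hz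
    rw [abs_of_pos (Real.exp_pos _)]
    exact Real.exp_le_exp.2 ((neg_le_abs _).trans a0)
  · obtain ⟨a0, a1, a2, a3, a4⟩ := hC z hz
    rw [abs_of_pos (Real.exp_pos _)]
    exact Real.exp_le_exp.2 ((le_abs_self _).trans a0)

end

/-- Specification of a solution operator for the Robin problem with zeroth order coefficient `m`
and boundary coefficient `β`. -/
structure RobinOp (β : ℝ → ℝ) (m : ℝ) (T : (ℝ × ℝ →ᵇ ℝ) → (ℝ × ℝ →ᵇ ℝ)) : Prop where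
  weak : ∀ g : ℝ × ℝ →ᵇ ℝ, ∃ ux uy : ℝ × ℝ → ℝ, C1bar (T g) ux uy ∧
    (∀ ψ ψx ψy : ℝ × ℝ → ℝ, Test ψ ψx ψy →
      (∫ z in Hset, (ux z * ψx z + uy z * ψy z)) + m * (∫ z in Hset, T g z * ψ z) +
        (∫ x, β x * T g (x, 0) * ψ (x, 0)) = ∫ z in Hset, g z * ψ z)
  sigma : ∀ (g : ℕ → (ℝ × ℝ →ᵇ ℝ)) (G : ℝ × ℝ →ᵇ ℝ) (C : ℝ), (∀ n, ‖g n‖ ≤ C) →
    (∀ z, Tendsto (fun n => g n z) atTop (𝓝 (G z))) →
    ∀ z, Tendsto (fun n => T (g n) z) atTop (𝓝 (T G z))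
  grad : ∃ C : ℝ, 0 ≤ C ∧ ∀ g : ℝ × ℝ →ᵇ ℝ, ∀ ux uy : ℝ × ℝ → ℝ, C1bar (T g) ux uy →
    ∀ z ∈ Hset, |ux z| ≤ C * ‖g‖ ∧ |uy z| ≤ C * ‖g‖
  even : ∀ g z, T g (abs2 z) = T g z

lemma lin_inj {a b c d : ℝ} (h : lin a b = lin c d) : a = c ∧ b = d := by
  have h1 := congrArg (fun L : ℝ × ℝ →L[ℝ] ℝ => L (1, 0)) h
  have h2 := congrArg (fun L : ℝ × ℝ →L[ℝ] ℝ => L (0, 1)) h
  simp only [lin_apply] at h1 h2
  constructor <;> linarith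

lemma C1bar.unique {u v ux uy vx vy : ℝ × ℝ → ℝ} (h1 : C1bar u ux uy) (h2 : C1bar v vx vy)
    (he : ∀ z ∈ Hset, u z = v z) {z : ℝ × ℝ} (hz : z ∈ Hset) : ux z = vx z ∧ uy z = vy z := by
  have e : u =ᶠ[𝓝 z] v := by
    filter_upwards [isOpen_Hset.mem_nhds hz] with w hw using he w hw
  exact lin_inj (((h1.deriv z hz).congr_of_eventuallyEq e.symm).unique (h2.deriv z hz))

end Pool.Agent.Lib.MP_1dc5fb
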