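import Pool.Agent.Lib.MP_1dc5fb_an.Euclid

/-!
The boundary function is continuously differentiable, and the boundary integral as a graph integral.
-/

set_option autoImplicit false

open MeasureTheory Set Filter Topology

namespace Pool.Agent.Lib.MP_1dc5fb

/-- horizontal coordinate of the boundary curve -/
noncomputable def Xb (t : ℝ) : ℝ := (hm (t, 0)).1

/-- derivative of the boundary function -/
noncomputable def phi' (X : ℝ) : ℝ := qq' (xi X 0, 0) / pp (xi X 0, 0)

lemma pp_bdry_ge (x : ℝ) : 1 ≤ pp (x, 0) := by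
  have h := u2_pos pe_pos (mem_bdry x)
  have hc := pc_pos
  unfold pp
  have : 0 ≤ pc * u2 pe (x, 0) := by positivity
  linarith

lemma hasDerivAt_hm_bdry (x : ℝ) : HasDerivAt (fun x : ℝ => hm (x, 0)) (pp (x, 0), qq' (x, 0)) x := by
  have h0 : HasDerivAt (fun x : ℝ => ((x, 0) : ℝ × ℝ)) (1, 0) x :=
    (hasDerivAt_id x).prodMk (hasDerivAt_const x 0)
  have h1 := (hasFDerivAt_hm (mem_bdry x)).comp_hasDerivAt x h0
  refine h1.congr_deriv ?_
  unfold dh pp qq'
  simp only [ContinuousLinearMap.prod_apply, lin_apply]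
  simp

lemma hasDerivAt_Xb (x : ℝ) : HasDerivAt Xb (pp (x, 0)) x :=
  (hasDerivAt_hm_bdry x).fst

lemma hasDerivAt_Yb (x : ℝ) : HasDerivAt (fun t => (hm (t, 0)).2) (qq' (x, 0)) x :=
  (hasDerivAt_hm_bdry x).snd

lemma xi_lip (X Y : ℝ) : |xi X 0 - xi Y 0| ≤ |X - Y| := by
  have h2 := hm_mono (mem_bdry (xi X 0)) (mem_bdry (xi Y 0))
  rw [xi_spec0, xi_spec0] at h2
  unfold dsq at h2
  simp only [sub_self, mul_zero, add_zero] at h2
  have h3 : |xi X 0 - xi Y 0| ^ 2 ≤ |X - Y| * |xi X 0 - xi Y 0| := by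
    rw [sq_abs, ← abs_mul]
    refine (le_trans ?_ (h2.trans (le_abs_self _)))
    simp
  rcases eq_or_lt_of_le (abs_nonneg (xi X 0 - xi Y 0)) with h4 | h4
  · rw [← h4]; positivity
  · nlinarith

lemma continuous_xi0 : Continuous (fun X => xi X 0) := by
  have : LipschitzWith 1 (fun X => xi X 0) := by
    refine LipschitzWith.of_dist_le_mul fun X Y => ?_
    rw [Real.dist_eq, Real.dist_eq, NNReal.coe_one, one_mul]
    exact xi_lip X Y
  exact this.continuous

lemma hasDerivAt_xi0 (X : ℝ) : HasDerivAt (fun X => xi X 0) (pp (xi X 0, 0))⁻¹ X := by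
  have hp := pp_bdry_ge (xi X 0)
  refine HasDerivAt.of_local_left_inverse continuous_xi0.continuousAt (hasDerivAt_Xb (xi X 0))
    (by positivity) (Eventually.of_forall fun Y => xi_spec0 Y)

lemma hasDerivAt_phi (X : ℝ) : HasDerivAt phi (phi' X) X := by
  have h := (hasDerivAt_Yb (xi X 0)).comp X (hasDerivAt_xi0 X)
  refine h.congr_deriv ?_
  unfold phi'
  rw [div_eq_mul_inv]

lemma continuous_phi' : Continuous phi' := by
  unfold phi'
  have h1 : Continuous (fun x : ℝ => pp (x, 0)) :=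
    continuousOn_pp.comp_continuous (by fun_prop) mem_bdry
  have h2 : Continuous (fun x : ℝ => qq' (x, 0)) :=
    continuousOn_qq'.comp_continuous (by fun_prop) mem_bdry
  refine (h2.comp continuous_xi0).div (h1.comp continuous_xi0) fun X => ?_
  exact (lt_of_lt_of_le one_pos (pp_bdry_ge (xi X 0))).ne'

lemma contDiff_phi : ContDiff ℝ 1 phi := by
  rw [contDiff_one_iff_deriv]
  refine ⟨fun X => (hasDerivAt_phi X).differentiableAt, ?_⟩
  have : deriv phi = phi' := funext fun X => (hasDerivAt_phi X).deriv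
  rw [this]
  exact continuous_phi'

lemma xi_Xb (t : ℝ) : xi (Xb t) 0 = t := by
  have h := same_X (mem_bdry (xi (Xb t) 0)) (mem_bdry t) (xi_spec0 (Xb t))
  unfold dsq at h
  simp only [sub_self, mul_zero] at h
  have h2 : (xi (Xb t) 0 - t) ^ 2 ≤ 0 := by nlinarith
  have : xi (Xb t) 0 - t = 0 := by
    have h3 : (xi (Xb t) 0 - t) ^ 2 = 0 := le_antisymm h2 (sq_nonneg _)
    exact pow_eq_zero_iff (two_ne_zero) |>.1 h3
  linarith

lemma range_Xb : range Xb = univ := by
  refine eq_univ_of_forall fun X => ⟨xi X 0, xi_spec0 X⟩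

lemma integral_Xb (F : ℝ → ℝ) : ∫ X, F X = ∫ t, pp (t, 0) * F (Xb t) := by
  have hinj : InjOn Xb univ := fun s _ t _ h => by
    have := congrArg (fun X => xi X 0) h
    simp only [xi_Xb] at this
    exact this
  have h := integral_image_eq_integral_abs_deriv_smul (s := (univ : Set ℝ)) (f := Xb)
    (f' := fun t => pp (t, 0)) MeasurableSet.univ
    (fun t _ => (hasDerivAt_Xb t).hasDerivWithinAt) hinj F
  rw [image_univ, range_Xb, Measure.restrict_univ] at h
  rw [h]
  refine integral_congr_ae (Eventually.of_forall fun t => ?_)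
  simp only [smul_eq_mul]
  rw [abs_of_pos (by linarith [pp_bdry_ge t])]

lemma density_eq (t : ℝ) : pp (t, 0) * Real.sqrt (1 + phi' (Xb t) ^ 2) = Real.sqrt (Gb t) := by
  have hp := pp_bdry_ge t
  unfold phi'
  rw [xi_Xb]
  have h1 : (pp (t, 0)) = Real.sqrt (pp (t, 0) ^ 2) := (Real.sqrt_sq (by linarith)).symm
  rw [h1, ← Real.sqrt_mul (sq_nonneg _), ← h1]
  congr 1
  rw [← Pf_bdry, ← pq_eq (mem_bdry t)]
  field_simp

lemma phi_Xb (t : ℝ) : phi (Xb t) = (hm (t, 0)).2 := phi_eq t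

lemma bdry_integral (g : ℝ × ℝ → ℝ) :
    ∫ t, Real.sqrt (Gb t) * g (hm (t, 0)) =
      ∫ X, g (X, phi X) * Real.sqrt (1 + phi' X ^ 2) := by
  rw [integral_Xb (fun X => g (X, phi X) * Real.sqrt (1 + phi' X ^ 2))]
  refine integral_congr_ae (Eventually.of_forall fun t => ?_)
  simp only
  have e : ((Xb t, phi (Xb t)) : ℝ × ℝ) = hm (t, 0) := by rw [phi_Xb]; rfl
  rw [e, ← density_eq]
  ring

end Pool.Agent.Lib.MP_1dc5fb
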