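import Pool.Agent.Lib.MP_1dc5fb_an.Iteration

/-!
Strict positivity of nonnegative supersolutions in the half plane.
-/

set_option autoImplicit false

open MeasureTheory Set Filter Topology

namespace Pool.Agent.Lib.MP_1dc5fb

/-- powers of positive parts of twice differentiable functions -/
lemma C2bar.posPow {q qx qy qxx qyy : ℝ × ℝ → ℝ} (h : C2bar q qx qy qxx qyy) (k : ℕ) :
    C2bar (fun z => (max (q z) 0) ^ (k + 3))
      (fun z => ((k : ℝ) + 3) * (max (q z) 0) ^ (k + 2) * qx z)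
      (fun z => ((k : ℝ) + 3) * (max (q z) 0) ^ (k + 2) * qy z)
      (fun z => ((k : ℝ) + 3) * (((k : ℝ) + 2) * (max (q z) 0) ^ (k + 1) * qx z) * qx z +
        ((k : ℝ) + 3) * (max (q z) 0) ^ (k + 2) * qxx z)
      (fun z => ((k : ℝ) + 3) * (((k : ℝ) + 2) * (max (q z) 0) ^ (k + 1) * qy z) * qy z +
        ((k : ℝ) + 3) * (max (q z) 0) ^ (k + 2) * qyy z) := by
  have d3 : ∀ t : ℝ, HasDerivAt (fun t : ℝ => (max t 0) ^ (k + 3))
      (((k : ℝ) + 3) * (max t 0) ^ (k + 2)) t := by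
    intro t
    refine (hasDerivAt_pos_pow (k + 1) t).congr_deriv ?_
    push_cast
    ring
  have d2 : ∀ t : ℝ, HasDerivAt (fun t : ℝ => (max t 0) ^ (k + 2))
      (((k : ℝ) + 2) * (max t 0) ^ (k + 1)) t := fun t => hasDerivAt_pos_pow k t
  have c0 : ContinuousOn (fun z => max (q z) 0) Hbar := ContinuousOn.sup h.cont continuousOn_const
  have h1 := h.toC1bar.comp (g := fun t => (max t 0) ^ (k + 3))
    (g' := fun t => ((k : ℝ) + 3) * (max t 0) ^ (k + 2)) d3 (by fun_prop)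
  refine ⟨h1, ?_, ?_, ?_, ?_⟩
  · exact ((continuousOn_const.mul ((continuousOn_const.mul (c0.pow _)).mul h.contx)).mul
      h.contx).add ((continuousOn_const.mul (c0.pow _)).mul h.contxx)
  · exact ((continuousOn_const.mul ((continuousOn_const.mul (c0.pow _)).mul h.conty)).mul
      h.conty).add ((continuousOn_const.mul (c0.pow _)).mul h.contyy)
  · intro z hz
    have a := (d2 (q (z.1, z.2))).comp z.1 (h.toC1bar.hasDerivAt_x hz)
    exact (a.const_mul ((k : ℝ) + 3)).mul (h.dxx z hz)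
  · intro z hz
    have a := (d2 (q (z.1, z.2))).comp z.2 (h.toC1bar.hasDerivAt_y hz)
    exact (a.const_mul ((k : ℝ) + 3)).mul (h.dyy z hz)

lemma C2bar.const_mul {q qx qy qxx qyy : ℝ × ℝ → ℝ} (h : C2bar q qx qy qxx qyy) (c : ℝ) :
    C2bar (fun z => c * q z) (fun z => c * qx z) (fun z => c * qy z) (fun z => c * qxx z)
      (fun z => c * qyy z) := by
  refine ⟨⟨continuousOn_const.mul h.cont, continuousOn_const.mul h.contx,
    continuousOn_const.mul h.conty, fun z hz => ?_⟩, continuousOn_const.mul h.contxx,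
    continuousOn_const.mul h.contyy, fun z hz => (h.dxx z hz).const_mul c,
    fun z hz => (h.dyy z hz).const_mul c⟩
  rw [← C1bar.smul_lin]
  exact (h.deriv z hz).const_mul c

/-- the paraboloid centred at `z1` -/
noncomputable def qc (z1 : ℝ × ℝ) (R : ℝ) (z : ℝ × ℝ) : ℝ :=
  1 - ((z.1 - z1.1) ^ 2 + (z.2 - z1.2) ^ 2) / R ^ 2

lemma c2_qc (z1 : ℝ × ℝ) (R : ℝ) : C2bar (qc z1 R) (fun z => -(2 * (z.1 - z1.1) / R ^ 2))
    (fun z => -(2 * (z.2 - z1.2) / R ^ 2)) (fun _ => -(2 / R ^ 2)) (fun _ => -(2 / R ^ 2)) := by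
  refine ⟨⟨?_, ?_, ?_, ?_⟩, continuousOn_const, continuousOn_const, ?_, ?_⟩
  · unfold qc; fun_prop
  · fun_prop
  · fun_prop
  · intro z _
    unfold qc
    have h1 : HasFDerivAt (fun z : ℝ × ℝ => (z.1 - z1.1) ^ 2 + (z.2 - z1.2) ^ 2)
        ((2 * (z.1 - z1.1)) • ContinuousLinearMap.fst ℝ ℝ ℝ +
          (2 * (z.2 - z1.2)) • ContinuousLinearMap.snd ℝ ℝ ℝ) z := by
      have a := ((hasFDerivAt_fst (𝕜 := ℝ) (p := z)).sub_const z1.1).pow 2
      have b := ((hasFDerivAt_snd (𝕜 := ℝ) (p := z)).sub_const z1.2).pow 2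
      refine ((a.add b).congr_fderiv ?_).congr_of_eventuallyEq
        (Eventually.of_forall fun _ => rfl)
      simp
    have h2 := (h1.mul_const ((R ^ 2)⁻¹)).const_sub 1
    refine (h2.congr_fderiv ?_).congr_of_eventuallyEq ?_
    · ext <;> simp [lin] <;> ring
    · exact Eventually.of_forall fun z => by simp only [div_eq_mul_inv]
  · intro z _
    have := ((((hasDerivAt_id z.1).sub_const z1.1).const_mul 2).div_const (R ^ 2)).neg
    refine this.congr_deriv ?_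
    simp
  · intro z _
    have := ((((hasDerivAt_id z.2).sub_const z1.2).const_mul 2).div_const (R ^ 2)).neg
    refine this.congr_deriv ?_
    simp

lemma qc_le_one (z1 : ℝ × ℝ) (R : ℝ) (z : ℝ × ℝ) : qc z1 R z ≤ 1 := by
  unfold qc
  have : 0 ≤ ((z.1 - z1.1) ^ 2 + (z.2 - z1.2) ^ 2) / R ^ 2 := by positivity
  linarith

lemma qc_bdry {z1 : ℝ × ℝ} {R : ℝ} (hR : 0 < R) (hRz : R < z1.2) (x : ℝ) : qc z1 R (x, 0) ≤ 0 := by
  unfold qc
  have h1 : R ^ 2 ≤ (x - z1.1) ^ 2 + (0 - z1.2) ^ 2 := by nlinarith [sq_nonneg (x - z1.1)]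
  have : 1 ≤ ((x - z1.1) ^ 2 + (0 - z1.2) ^ 2) / R ^ 2 := (one_le_div (by positivity)).2 h1
  linarith

/-- propagation of positivity -/
theorem propagate {β : ℝ → ℝ} (hβc : Continuous β) (hβ : ∀ x, 0 ≤ β x) {U Ux Uy : ℝ × ℝ → ℝ}
    (hU : C1bar U Ux Uy) (hpos : ∀ z ∈ Hbar, 0 ≤ U z)
    (hw : ∀ ψ ψx ψy : ℝ × ℝ → ℝ, Test ψ ψx ψy → (∀ z ∈ Hbar, 0 ≤ ψ z) →
      0 ≤ (∫ z in Hset, (Ux z * ψx z + Uy z * ψy z)) + ∫ x, β x * U (x, 0) * ψ (x, 0))
    {z1 : ℝ × ℝ} (h1 : 0 < U z1) {R : ℝ} (hR : 0 < R) (hRz : R < z1.2) :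
    ∀ z ∈ Hset, (z.1 - z1.1) ^ 2 + (z.2 - z1.2) ^ 2 < R ^ 2 → 0 < U z := by
  have hz1 : z1 ∈ Hset := show 0 < z1.2 by linarith
  -- lower bound on a small ball
  obtain ⟨r, hr, hrU⟩ : ∃ r : ℝ, 0 < r ∧ ∀ z : ℝ × ℝ, (z.1 - z1.1) ^ 2 + (z.2 - z1.2) ^ 2 < r ^ 2 →
      U z1 / 2 < U z := by
    have hc : ContinuousAt U z1 := (hU.deriv z1 hz1).continuousAt
    have he : ∀ᶠ z in 𝓝 z1, U z1 / 2 < U z := hc.eventually (lt_mem_nhds (by linarith))
    obtain ⟨r, hr, hball⟩ := Metric.eventually_nhds_iff.1 he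
    refine ⟨r, hr, fun z hz => hball ?_⟩
    rw [dist_eq_norm, Prod.norm_def]
    refine max_lt ?_ ?_
    · rw [Real.norm_eq_abs]
      refine abs_lt_of_sq_lt_sq ?_ hr.le
      change (z.1 - z1.1) ^ 2 < r ^ 2
      nlinarith [sq_nonneg (z.2 - z1.2)]
    · rw [Real.norm_eq_abs]
      refine abs_lt_of_sq_lt_sq ?_ hr.le
      change (z.2 - z1.2) ^ 2 < r ^ 2
      nlinarith [sq_nonneg (z.1 - z1.1)]
  set δ := U z1 / 2 with hδ
  have hδ0 : 0 < δ := by positivity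
  -- choice of the exponent
  have hA : 0 < r ^ 2 / R ^ 4 := by positivity
  obtain ⟨k, hk⟩ := exists_nat_ge ((4 / R ^ 2 + 1) / (4 * (r ^ 2 / R ^ 4)))
  have hk' : 4 / R ^ 2 + 1 ≤ 4 * (k + 2) * (r ^ 2 / R ^ 4) := by
    rw [div_le_iff₀ (by positivity)] at hk
    nlinarith
  have hκ := ((c2_qc z1 R).posPow k).const_mul δ
  set κ : ℝ × ℝ → ℝ := fun z => δ * (max (qc z1 R z) 0) ^ (k + 3) with hκdef
  have hm0 : ∀ z, 0 ≤ max (qc z1 R z) 0 := fun z => le_max_right _ _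
  have hm1 : ∀ z, max (qc z1 R z) 0 ≤ 1 := fun z => max_le (qc_le_one z1 R z) zero_le_one
  have hκ1 : ∀ z, κ z ≤ δ := by
    intro z
    have : (max (qc z1 R z) 0) ^ (k + 3) ≤ 1 := pow_le_one₀ (hm0 z) (hm1 z)
    calc κ z = δ * (max (qc z1 R z) 0) ^ (k + 3) := rfl
      _ ≤ δ * 1 := mul_le_mul_of_nonneg_left this hδ0.le
      _ = δ := mul_one δ
  have hcomp := comparison (β := β) hβ one_pos (hU.sub hκ.toC1bar) (M := δ) (fun z hz => ?_) ?_
  · -- conclusion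
    intro z hz hzR
    have h2 := hcomp z (Hset_subset_Hbar hz)
    have hq : 0 < qc z1 R z := by
      unfold qc
      have : ((z.1 - z1.1) ^ 2 + (z.2 - z1.2) ^ 2) / R ^ 2 < 1 := by
        rw [div_lt_one (by positivity)]; exact hzR
      linarith
    have h3 : 0 < δ * (max (qc z1 R z) 0) ^ (k + 3) := by
      rw [max_eq_left hq.le]; positivity
    linarith
  · have h2 := hpos z hz
    have h3 := hκ1 z
    change -δ ≤ U z - κ z
    linarith
  · intro ψ ψx ψy ht hψ hvan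
    have e1 := form_sub (m := 1) hβc hU hκ.toC1bar ht
    have e2 := form_c2 (m := 1) hβc hκ ht
    change 0 ≤ form β 1 (fun z => U z - κ z) _ _ ψ ψx ψy
    rw [e1, e2]
    have f1 : 0 ≤ form β 1 U Ux Uy ψ ψx ψy := by
      unfold form
      have g1 := hw ψ ψx ψy ht hψ
      have g2 : 0 ≤ ∫ z in Hset, U z * ψ z := by
        refine setIntegral_nonneg measurableSet_Hset fun z hz => ?_
        exact mul_nonneg (hpos z (Hset_subset_Hbar hz)) (hψ z (Hset_subset_Hbar hz))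
      linarith
    have f2 : (∫ x, (β x * (δ * (max (qc z1 R (x, 0)) 0) ^ (k + 3)) -
        δ * (((k : ℝ) + 3) * (max (qc z1 R (x, 0)) 0) ^ (k + 2) * -(2 * ((x, (0 : ℝ)).2 - z1.2) / R ^ 2))) *
          ψ (x, 0)) = 0 := by
      refine integral_eq_zero_of_ae (Eventually.of_forall fun x => ?_)
      simp only
      rw [max_eq_right (qc_bdry hR hRz x)]
      simp
    have f3 : (∫ z in Hset, (-(δ * (((k : ℝ) + 3) * (((k : ℝ) + 2) * (max (qc z1 R z) 0) ^ (k + 1) *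
          -(2 * (z.1 - z1.1) / R ^ 2)) * -(2 * (z.1 - z1.1) / R ^ 2) +
          ((k : ℝ) + 3) * (max (qc z1 R z) 0) ^ (k + 2) * -(2 / R ^ 2)) +
        δ * (((k : ℝ) + 3) * (((k : ℝ) + 2) * (max (qc z1 R z) 0) ^ (k + 1) *
          -(2 * (z.2 - z1.2) / R ^ 2)) * -(2 * (z.2 - z1.2) / R ^ 2) +
          ((k : ℝ) + 3) * (max (qc z1 R z) 0) ^ (k + 2) * -(2 / R ^ 2))) +
        1 * (δ * (max (qc z1 R z) 0) ^ (k + 3))) * ψ z) ≤ 0 := by
      refine setIntegral_nonpos measurableSet_Hset fun z hz => ?_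
      have hzb := Hset_subset_Hbar hz
      have hψz := hψ z hzb
      by_cases h0 : 0 ≤ U z - κ z
      · have := hvan z hzb h0
        rw [this, mul_zero]
      · push Not at h0
        have hlt : U z < κ z := by linarith
        have hq : 0 < qc z1 R z := by
          by_contra hcon
          push Not at hcon
          have : κ z = 0 := by
            change δ * (max (qc z1 R z) 0) ^ (k + 3) = 0
            rw [max_eq_right hcon]; simp
          have := hpos z hzb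
          linarith
        have hr2 : r ^ 2 ≤ (z.1 - z1.1) ^ 2 + (z.2 - z1.2) ^ 2 := by
          by_contra hcon
          push Not at hcon
          have := hrU z hcon
          have := hκ1 z
          linarith
        refine mul_nonpos_of_nonpos_of_nonneg ?_ hψz
        rw [max_eq_left hq.le]
        have hq1 := qc_le_one z1 R z
        set q := qc z1 R z
        set X := z.1 - z1.1
        set Y := z.2 - z1.2
        have hq2 : 0 < q ^ (k + 1) := by positivity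
        have key : q ^ 2 + (k + 3) * (4 / R ^ 2) * q ≤ (k + 3) * (k + 2) * (4 * (X ^ 2 + Y ^ 2) / R ^ 4) := by
          have t1 : q ^ 2 ≤ 1 := pow_le_one₀ hq.le hq1
          have t2 : ((k : ℝ) + 3) * (4 / R ^ 2) * q ≤ (k + 3) * (4 / R ^ 2) := by
            have : 0 ≤ ((k : ℝ) + 3) * (4 / R ^ 2) := by positivity
            nlinarith
          have t3 : (k + 3) * (k + 2) * (4 * r ^ 2 / R ^ 4) ≤
              ((k : ℝ) + 3) * (k + 2) * (4 * (X ^ 2 + Y ^ 2) / R ^ 4) := by gcongr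
          have t4 : ((k : ℝ) + 3) * (4 / R ^ 2 + 1) ≤ (k + 3) * (k + 2) * (4 * r ^ 2 / R ^ 4) := by
            have := mul_le_mul_of_nonneg_left hk' (by positivity : (0 : ℝ) ≤ (k : ℝ) + 3)
            calc ((k : ℝ) + 3) * (4 / R ^ 2 + 1) ≤ (k + 3) * (4 * (k + 2) * (r ^ 2 / R ^ 4)) := this
              _ = (k + 3) * (k + 2) * (4 * r ^ 2 / R ^ 4) := by ring
          have t5 : (0 : ℝ) ≤ k := Nat.cast_nonneg k
          nlinarith
        have e3 : (-(δ * (((k : ℝ) + 3) * (((k : ℝ) + 2) * q ^ (k + 1) *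
          -(2 * X / R ^ 2)) * -(2 * X / R ^ 2) +
          ((k : ℝ) + 3) * q ^ (k + 2) * -(2 / R ^ 2)) +
        δ * (((k : ℝ) + 3) * (((k : ℝ) + 2) * q ^ (k + 1) *
          -(2 * Y / R ^ 2)) * -(2 * Y / R ^ 2) +
          ((k : ℝ) + 3) * q ^ (k + 2) * -(2 / R ^ 2))) +
        1 * (δ * q ^ (k + 3))) = δ * q ^ (k + 1) * ((q ^ 2 + (k + 3) * (4 / R ^ 2) * q) -
          (k + 3) * (k + 2) * (4 * (X ^ 2 + Y ^ 2) / R ^ 4)) := by
          field_simp
          ring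
        rw [e3]
        exact mul_nonpos_of_nonneg_of_nonpos (by positivity) (by linarith)
    have f4 : (∫ (x : ℝ), (β x * (δ * (max (qc z1 R (x, 0)) 0) ^ (k + 3)) -
      δ * ((↑k + 3) * max (qc z1 R (x, 0)) 0 ^ (k + 2) * -(2 * ((x, (0:ℝ)).2 - z1.2) / R ^ 2))) * ψ (x, 0)) ≤ 0 :=
      f2.le
    linarith

/-- **Strong maximum principle.** -/
theorem strict_pos {β : ℝ → ℝ} (hβc : Continuous β) (hβ : ∀ x, 0 ≤ β x) {U Ux Uy : ℝ × ℝ → ℝ}
    (hU : C1bar U Ux Uy) (hpos : ∀ z ∈ Hbar, 0 ≤ U z)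
    (hw : ∀ ψ ψx ψy : ℝ × ℝ → ℝ, Test ψ ψx ψy → (∀ z ∈ Hbar, 0 ≤ ψ z) →
      0 ≤ (∫ z in Hset, (Ux z * ψx z + Uy z * ψy z)) + ∫ x, β x * U (x, 0) * ψ (x, 0))
    {z0 : ℝ × ℝ} (hz0 : z0 ∈ Hset) (h0 : 0 < U z0) : ∀ z ∈ Hset, 0 < U z := by
  have hcont : ContinuousOn U Hset := hU.cont.mono Hset_subset_Hbar
  set A : Set (ℝ × ℝ) := Hset ∩ U ⁻¹' (Ioi 0) with hA
  have hAo : IsOpen A := hcont.isOpen_inter_preimage isOpen_Hset isOpen_Ioi
  have key : closure A ∩ Hset ⊆ A := by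
    rintro z ⟨hzc, hz⟩
    refine ⟨hz, ?_⟩
    have hz' : 0 < z.2 := hz
    obtain ⟨z1, hz1A, hd⟩ := Metric.mem_closure_iff.1 hzc (z.2 / 4) (by positivity)
    have hd1 : |z.1 - z1.1| < z.2 / 4 := by
      have : dist z.1 z1.1 ≤ dist z z1 := by
        rw [Prod.dist_eq]; exact le_max_left _ _
      rw [Real.dist_eq] at this
      linarith
    have hd2 : |z.2 - z1.2| < z.2 / 4 := by
      have : dist z.2 z1.2 ≤ dist z z1 := by
        rw [Prod.dist_eq]; exact le_max_right _ _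
      rw [Real.dist_eq] at this
      linarith
    have hz1 : z.2 / 2 < z1.2 := by
      have := abs_lt.1 hd2
      linarith [this.2]
    refine propagate hβc hβ hU hpos hw (z1 := z1) hz1A.2 (R := z.2 / 2) (by positivity) hz1 z hz ?_
    have s1 : (z.1 - z1.1) ^ 2 < (z.2 / 4) ^ 2 := sq_lt_sq' (abs_lt.1 hd1).1 (abs_lt.1 hd1).2
    have s2 : (z.2 - z1.2) ^ 2 < (z.2 / 4) ^ 2 := sq_lt_sq' (abs_lt.1 hd2).1 (abs_lt.1 hd2).2
    nlinarith
  have := (convex_Hset.isPreconnected).subset_of_closure_inter_subset hAo ⟨z0, hz0, hz0, h0⟩ key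
  exact fun z hz => (this hz).2

end Pool.Agent.Lib.MP_1dc5fb
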