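import Pool.Agent.Lib.MP_1dc5fb_an.Conformal
import Pool.Agent.Lib.MP_1dc5fb_an.Curve

/-!
Transfer of half plane solutions to the epigraph (in the coordinate plane).
-/

set_option autoImplicit false

open MeasureTheory Set Filter Topology

namespace Pool.Agent.Lib.MP_1dc5fb

/-- entries of the derivative of the conformal map -/
noncomputable def pp (z : ℝ × ℝ) : ℝ := 1 + pc * u2 pe z
/-- entries of the derivative of the conformal map -/
noncomputable def qq' (z : ℝ × ℝ) : ℝ := pc * u1 pe z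

lemma continuousOn_pp : ContinuousOn pp Hbar := by
  unfold pp; exact continuousOn_const.add (continuousOn_const.mul (continuousOn_u2 pe_pos))
lemma continuousOn_qq' : ContinuousOn qq' Hbar := by
  unfold qq'; exact continuousOn_const.mul (continuousOn_u1 pe_pos)

lemma pq_eq {z : ℝ × ℝ} (hz : z ∈ Hbar) : pp z ^ 2 + qq' z ^ 2 = Pf z := (Pf_eq hz).symm

lemma pq_ge {z : ℝ × ℝ} (hz : z ∈ Hbar) : 1 ≤ pp z ^ 2 + qq' z ^ 2 := by
  rw [pq_eq hz]; exact Pf_ge_one hz

lemma continuousOn_hm : ContinuousOn hm Hbar :=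
  fun _ hz => (hasFDerivAt_hm hz).continuousAt.continuousWithinAt

/-- transferred function -/
noncomputable def tw (U : ℝ × ℝ → ℝ) (v : ℝ × ℝ) : ℝ := U (jm v)
/-- first partial derivative of the transferred function -/
noncomputable def twX (Ux Uy : ℝ × ℝ → ℝ) (v : ℝ × ℝ) : ℝ :=
  (pp (jm v) * Ux (jm v) - qq' (jm v) * Uy (jm v)) / (pp (jm v) ^ 2 + qq' (jm v) ^ 2)
/-- second partial derivative of the transferred function -/
noncomputable def twY (Ux Uy : ℝ × ℝ → ℝ) (v : ℝ × ℝ) : ℝ :=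
  (qq' (jm v) * Ux (jm v) + pp (jm v) * Uy (jm v)) / (pp (jm v) ^ 2 + qq' (jm v) ^ 2)

section
variable {U Ux Uy : ℝ × ℝ → ℝ}

lemma continuousOn_tw (hU : C1bar U Ux Uy) : ContinuousOn (tw U) Epic :=
  hU.cont.comp continuousOn_jm fun _ hv => jm_mem hv

lemma continuousOn_twX (hU : C1bar U Ux Uy) : ContinuousOn (twX Ux Uy) Epic := by
  have hj := continuousOn_jm
  have hm' : MapsTo jm Epic Hbar := fun _ hv => jm_mem hv
  have h1 := continuousOn_pp.comp hj hm'
  have h2 := continuousOn_qq'.comp hj hm'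
  have h3 := hU.contx.comp hj hm'
  have h4 := hU.conty.comp hj hm'
  exact ((h1.mul h3).sub (h2.mul h4)).div ((h1.pow 2).add (h2.pow 2)) fun v hv => by
    have h5 := pq_ge (jm_mem hv)
    exact (lt_of_lt_of_le one_pos h5).ne'

lemma continuousOn_twY (hU : C1bar U Ux Uy) : ContinuousOn (twY Ux Uy) Epic := by
  have hj := continuousOn_jm
  have hm' : MapsTo jm Epic Hbar := fun _ hv => jm_mem hv
  have h1 := continuousOn_pp.comp hj hm'
  have h2 := continuousOn_qq'.comp hj hm'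
  have h3 := hU.contx.comp hj hm'
  have h4 := hU.conty.comp hj hm'
  exact ((h2.mul h3).add (h1.mul h4)).div ((h1.pow 2).add (h2.pow 2)) fun v hv => by
    have h5 := pq_ge (jm_mem hv)
    exact (lt_of_lt_of_le one_pos h5).ne'

lemma hasFDerivAt_tw (hU : C1bar U Ux Uy) {v : ℝ × ℝ} (hv : v ∈ Epi) :
    HasFDerivAt (tw U) (lin (twX Ux Uy v) (twY Ux Uy v)) v := by
  have h1 := (hU.deriv (jm v) (jm_mem_Hset hv)).comp v (hasFDerivAt_jm hv)
  refine h1.congr_fderiv ?_
  have hpos : 0 < pp (jm v) ^ 2 + qq' (jm v) ^ 2 := by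
    linarith [pq_ge (Hset_subset_Hbar (jm_mem_Hset hv))]
  unfold twX twY
  unfold pp qq' at *
  unfold dhi
  ext
  · simp [lin]
    field_simp
    ring
  · simp [lin]
    field_simp

lemma tw_grad_le {C : ℝ} (hC : ∀ z ∈ Hset, |Ux z| ≤ C ∧ |Uy z| ≤ C) {v : ℝ × ℝ} (hv : v ∈ Epi) :
    twX Ux Uy v ^ 2 + twY Ux Uy v ^ 2 ≤ 2 * C ^ 2 := by
  have hz := jm_mem_Hset hv
  have h1 := pq_ge (Hset_subset_Hbar hz)
  obtain ⟨hx, hy⟩ := hC _ hz
  have e : twX Ux Uy v ^ 2 + twY Ux Uy v ^ 2 =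
      (Ux (jm v) ^ 2 + Uy (jm v) ^ 2) / (pp (jm v) ^ 2 + qq' (jm v) ^ 2) := by
    unfold twX twY
    field_simp
    ring
  rw [e]
  have h2 : Ux (jm v) ^ 2 ≤ C ^ 2 := by
    rw [← sq_abs]; exact pow_le_pow_left₀ (abs_nonneg _) hx 2
  have h3 : Uy (jm v) ^ 2 ≤ C ^ 2 := by
    rw [← sq_abs]; exact pow_le_pow_left₀ (abs_nonneg _) hy 2
  calc (Ux (jm v) ^ 2 + Uy (jm v) ^ 2) / (pp (jm v) ^ 2 + qq' (jm v) ^ 2)
      ≤ Ux (jm v) ^ 2 + Uy (jm v) ^ 2 := div_le_self (by positivity) h1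
    _ ≤ 2 * C ^ 2 := by linarith

/-- change of variables -/
lemma integral_Epi (F : ℝ × ℝ → ℝ) : ∫ v in Epi, F v = ∫ z in Hset, Pf z * F (hm z) := by
  rw [← hm_image, integral_image_eq_integral_abs_det_fderiv_smul volume measurableSet_Hset
    (fun z hz => (hasFDerivAt_hm (Hset_subset_Hbar hz)).hasFDerivWithinAt)
    (hm_injOn.mono Hset_subset_Hbar)]
  refine setIntegral_congr_fun measurableSet_Hset fun z hz => ?_
  have hzb := Hset_subset_Hbar hz
  simp only [smul_eq_mul]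
  rw [det_dh, ← Pf_eq hzb, abs_of_pos (by linarith [Pf_ge_one hzb])]

/-- the transferred weak equation -/
theorem weak_transfer (hU : HSol U Ux Uy) {ψ ψX ψY : ℝ × ℝ → ℝ} (hX : Continuous ψX)
    (hY : Continuous ψY) (hd : ∀ v, HasFDerivAt ψ (lin (ψX v) (ψY v)) v)
    (hs : ∃ M : ℝ, ∀ v, M ≤ dsq v (hm (0, 0)) → ψ v = 0 ∧ ψX v = 0 ∧ ψY v = 0) :
    (∫ v in Epi, (twX Ux Uy v * ψX v + twY Ux Uy v * ψY v)) +
      Real.pi * pc / 2 * (∫ x, Real.sqrt (Gb x) * (U (x, 0) * ψ (hm (x, 0)))) =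
      ∫ v in Epi, fr (tw U v) * ψ v := by
  have hψc : Continuous ψ := continuous_iff_continuousAt.2 fun v => (hd v).continuousAt
  have hh := continuousOn_hm
  have ht : Test (fun z => ψ (hm z)) (fun z => ψX (hm z) * pp z + ψY (hm z) * qq' z)
      (fun z => -(ψX (hm z) * qq' z) + ψY (hm z) * pp z) := by
    refine ⟨⟨hψc.comp_continuousOn hh, ?_, ?_, fun z hz => ?_⟩, ?_⟩
    · exact ((hX.comp_continuousOn hh).mul continuousOn_pp).add
        ((hY.comp_continuousOn hh).mul continuousOn_qq')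
    · exact ((hX.comp_continuousOn hh).mul continuousOn_qq').neg.add
        ((hY.comp_continuousOn hh).mul continuousOn_pp)
    · have h1 := (hd (hm z)).comp z (hasFDerivAt_hm (Hset_subset_Hbar hz))
      refine h1.congr_fderiv ?_
      unfold dh pp qq'
      ext <;> simp [lin]
    · obtain ⟨M, hM⟩ := hs
      refine ⟨max 1 M, fun z hz h => ?_⟩
      have h1 : max 1 M ≤ dsq z (0, 0) := by
        have hR : (1 : ℝ) ≤ max 1 M := le_max_left _ _
        have : max 1 M ≤ (max 1 M) ^ 2 := by nlinarith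
        refine this.trans ?_
        unfold dsq
        simp only [sub_zero]
        rcases h with h | h
        · have : (max 1 M) ^ 2 ≤ |z.1| ^ 2 := pow_le_pow_left₀ (by linarith) h 2
          rw [sq_abs] at this
          nlinarith [sq_nonneg z.2]
        · have : (max 1 M) ^ 2 ≤ z.2 ^ 2 := pow_le_pow_left₀ (by linarith) h 2
          nlinarith [sq_nonneg z.1]
      have h2 := hm_expand hz (mem_bdry 0)
      obtain ⟨a, b, c⟩ := hM (hm z) ((le_max_right 1 M).trans (h1.trans h2))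
      rw [a, b, c]
      simp
  have hw := hU.weak _ _ _ ht
  rw [integral_Epi, integral_Epi]
  have e1 : (∫ z in Hset, (Ux z * (ψX (hm z) * pp z + ψY (hm z) * qq' z) +
      Uy z * (-(ψX (hm z) * qq' z) + ψY (hm z) * pp z))) =
      ∫ z in Hset, Pf z * (twX Ux Uy (hm z) * ψX (hm z) + twY Ux Uy (hm z) * ψY (hm z)) := by
    refine setIntegral_congr_fun measurableSet_Hset fun z hz => ?_
    have hzb := Hset_subset_Hbar hz
    have hpos := pq_ge hzb
    unfold twX twY
    rw [jm_hm hzb, ← pq_eq hzb]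
    field_simp
    ring
  have e2 : (∫ x, bet x * U (x, 0) * ψ (hm (x, 0))) =
      Real.pi * pc / 2 * (∫ x, Real.sqrt (Gb x) * (U (x, 0) * ψ (hm (x, 0)))) := by
    rw [← integral_const_mul]
    refine integral_congr_ae (Eventually.of_forall fun x => ?_)
    simp only
    rw [bet_eq]; ring
  have e3 : (∫ z in Hset, Pf z * fr (U z) * ψ (hm z)) =
      ∫ z in Hset, Pf z * (fr (tw U (hm z)) * ψ (hm z)) := by
    refine setIntegral_congr_fun measurableSet_Hset fun z hz => ?_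
    have hzb := Hset_subset_Hbar hz
    unfold tw
    rw [jm_hm hzb]; ring
  rw [← e1, ← e2, ← e3]
  exact hw

end

end Pool.Agent.Lib.MP_1dc5fb
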