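import Pool.Agent.Lib.MP_1dc5fb_an.Barrier2

/-!
Two distinct solutions of the weighted problem in the half plane.
-/

set_option autoImplicit false

open MeasureTheory Set Filter Topology
open scoped BoundedContinuousFunction

namespace Pool.Agent.Lib.MP_1dc5fb

/-! ### The boundary coefficient -/

/-- a constant -/
noncomputable def ab : ℝ := 2 * pc * pe + pc ^ 2
/-- the weight on the boundary -/
noncomputable def Gb (x : ℝ) : ℝ := 1 + ab / (x ^ 2 + pe ^ 2)
/-- derivative -/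
noncomputable def Gb' (x : ℝ) : ℝ := -(2 * ab * x) / (x ^ 2 + pe ^ 2) ^ 2
/-- second derivative -/
noncomputable def Gb'' (x : ℝ) : ℝ :=
  (-(2 * ab) * (x ^ 2 + pe ^ 2) + 8 * ab * x ^ 2) / (x ^ 2 + pe ^ 2) ^ 3

lemma ab_pos : 0 < ab := by
  have := pc_pos
  have := pe_pos
  unfold ab; positivity

lemma D_pos (x : ℝ) : 0 < x ^ 2 + pe ^ 2 := by
  have := pe_pos
  positivity

lemma Pf_bdry (x : ℝ) : Pf (x, 0) = Gb x := by
  have hD := D_pos x
  have e : rr pe (x, 0) = x ^ 2 + pe ^ 2 := by unfold rr; ring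
  unfold Pf u2 Gb ab
  rw [e]
  field_simp
  ring

lemma one_le_Gb (x : ℝ) : 1 ≤ Gb x := by
  have := ab_pos
  have := D_pos x
  unfold Gb
  have : 0 ≤ ab / (x ^ 2 + pe ^ 2) := by positivity
  linarith

lemma hasDerivAt_D (x : ℝ) : HasDerivAt (fun x : ℝ => x ^ 2 + pe ^ 2) (2 * x) x := by
  have := ((hasDerivAt_id x).pow 2).add_const (pe ^ 2)
  exact this.congr_deriv (by simp)

lemma hasDerivAt_Gb (x : ℝ) : HasDerivAt Gb (Gb' x) x := by
  have hD := D_pos x
  have h := ((hasDerivAt_const x ab).div (hasDerivAt_D x) hD.ne').const_add 1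
  refine h.congr_deriv ?_
  unfold Gb'
  field_simp
  ring

lemma hasDerivAt_Gb' (x : ℝ) : HasDerivAt Gb' (Gb'' x) x := by
  have hD := D_pos x
  have h1 : HasDerivAt (fun x => -(2 * ab * x)) (-(2 * ab)) x := by
    have := ((hasDerivAt_id x).const_mul (2 * ab)).neg
    exact this.congr_deriv (by simp)
  have h2 : HasDerivAt (fun x : ℝ => (x ^ 2 + pe ^ 2) ^ 2) (2 * (x ^ 2 + pe ^ 2) * (2 * x)) x := by
    have := (hasDerivAt_D x).pow 2
    exact this.congr_deriv (by simp)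
  have h := h1.div h2 (by positivity)
  refine h.congr_deriv ?_
  unfold Gb''
  field_simp
  ring

lemma two_abs_le (x : ℝ) : 2 * |x| * pe ≤ x ^ 2 + pe ^ 2 := by
  nlinarith [sq_nonneg (|x| - pe), sq_abs x]

lemma Gb'_le (x : ℝ) : |Gb' x| ≤ ab / pe ^ 3 := by
  have hD := D_pos x
  have ha := ab_pos
  have he := pe_pos
  unfold Gb'
  rw [abs_div, abs_neg, abs_mul, abs_of_pos (by positivity : 0 < 2 * ab),
    abs_of_pos (by positivity : 0 < (x ^ 2 + pe ^ 2) ^ 2), div_le_div_iff₀ (by positivity)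
    (by positivity)]
  have h1 := two_abs_le x
  have h2 : pe ^ 2 ≤ x ^ 2 + pe ^ 2 := by nlinarith [sq_nonneg x]
  have h3 : 2 * |x| * pe * pe ^ 2 ≤ (x ^ 2 + pe ^ 2) * (x ^ 2 + pe ^ 2) :=
    mul_le_mul h1 h2 (by positivity) hD.le
  calc 2 * ab * |x| * pe ^ 3 = ab * (2 * |x| * pe * pe ^ 2) := by ring
    _ ≤ ab * ((x ^ 2 + pe ^ 2) * (x ^ 2 + pe ^ 2)) := mul_le_mul_of_nonneg_left h3 ha.le
    _ = ab * (x ^ 2 + pe ^ 2) ^ 2 := by ring

lemma Gb''_le (x : ℝ) : |Gb'' x| ≤ 10 * ab / pe ^ 4 := by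
  have hD := D_pos x
  have ha := ab_pos
  have he := pe_pos
  unfold Gb''
  rw [abs_div, abs_of_pos (by positivity : 0 < (x ^ 2 + pe ^ 2) ^ 3), div_le_div_iff₀ (by positivity)
    (by positivity)]
  have h2 : pe ^ 2 ≤ x ^ 2 + pe ^ 2 := by nlinarith [sq_nonneg x]
  have h3 : x ^ 2 ≤ x ^ 2 + pe ^ 2 := by nlinarith [sq_nonneg pe]
  have h4 : |-(2 * ab) * (x ^ 2 + pe ^ 2) + 8 * ab * x ^ 2| ≤ 10 * ab * (x ^ 2 + pe ^ 2) := by
    rw [abs_le]
    have h5 : 8 * ab * x ^ 2 ≤ 8 * ab * (x ^ 2 + pe ^ 2) :=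
      mul_le_mul_of_nonneg_left h3 (by positivity)
    have h6 : 0 ≤ 8 * ab * x ^ 2 := by positivity
    have h7 : 0 < ab * (x ^ 2 + pe ^ 2) := by positivity
    constructor <;> nlinarith
  have h5 : pe ^ 4 ≤ (x ^ 2 + pe ^ 2) ^ 2 := by
    calc pe ^ 4 = (pe ^ 2) ^ 2 := by ring
      _ ≤ _ := pow_le_pow_left₀ (by positivity) h2 2
  calc |-(2 * ab) * (x ^ 2 + pe ^ 2) + 8 * ab * x ^ 2| * pe ^ 4
      ≤ 10 * ab * (x ^ 2 + pe ^ 2) * (x ^ 2 + pe ^ 2) ^ 2 :=
        mul_le_mul h4 h5 (by positivity) (by positivity)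
    _ = 10 * ab * (x ^ 2 + pe ^ 2) ^ 3 := by ring

/-- derivative of the boundary coefficient -/
noncomputable def bet' (x : ℝ) : ℝ := Real.pi * pc / 2 * (Gb' x / (2 * Real.sqrt (Gb x)))
/-- second derivative of the boundary coefficient -/
noncomputable def bet'' (x : ℝ) : ℝ := Real.pi * pc / 2 * ((Gb'' x * (2 * Real.sqrt (Gb x)) -
  Gb' x * (2 * (Gb' x / (2 * Real.sqrt (Gb x))))) / (2 * Real.sqrt (Gb x)) ^ 2)

lemma bet_eq (x : ℝ) : bet x = Real.pi * pc / 2 * Real.sqrt (Gb x) := by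
  unfold bet; rw [Pf_bdry]

lemma one_le_sqrt_Gb (x : ℝ) : 1 ≤ Real.sqrt (Gb x) := by
  rw [Real.one_le_sqrt]; exact one_le_Gb x

lemma hasDerivAt_sqrtG (x : ℝ) :
    HasDerivAt (fun x => Real.sqrt (Gb x)) (Gb' x / (2 * Real.sqrt (Gb x))) x :=
  (hasDerivAt_Gb x).sqrt (by have := one_le_Gb x; positivity)

lemma hasDerivAt_bet (x : ℝ) : HasDerivAt bet (bet' x) x := by
  have h := (hasDerivAt_sqrtG x).const_mul (Real.pi * pc / 2)
  refine h.congr_of_eventuallyEq (Eventually.of_forall fun x => ?_)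
  exact bet_eq x

lemma hasDerivAt_bet' (x : ℝ) : HasDerivAt bet' (bet'' x) x := by
  have h1 := one_le_sqrt_Gb x
  exact ((hasDerivAt_Gb' x).div ((hasDerivAt_sqrtG x).const_mul 2) (by positivity)).const_mul
    (Real.pi * pc / 2)

lemma continuous_Gb : Continuous Gb := continuous_iff_continuousAt.2 fun x =>
  (hasDerivAt_Gb x).continuousAt
lemma continuous_Gb' : Continuous Gb' := continuous_iff_continuousAt.2 fun x =>
  (hasDerivAt_Gb' x).continuousAt
lemma continuous_Gb'' : Continuous Gb'' := by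
  unfold Gb''
  exact Continuous.div (by fun_prop) (by fun_prop) fun x => by have := D_pos x; positivity
lemma continuous_bet : Continuous bet := continuous_iff_continuousAt.2 fun x =>
  (hasDerivAt_bet x).continuousAt
lemma continuous_sqrtG : Continuous (fun x => Real.sqrt (Gb x)) :=
  Real.continuous_sqrt.comp continuous_Gb

lemma continuous_bet'' : Continuous bet'' := by
  have c0 := continuous_sqrtG
  have c1 := continuous_Gb'
  have c2 := continuous_Gb''
  have hne : ∀ x, 2 * Real.sqrt (Gb x) ≠ 0 := fun x => by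
    have := one_le_sqrt_Gb x; positivity
  have c3 : Continuous (fun x => Gb' x / (2 * Real.sqrt (Gb x))) :=
    c1.div (by fun_prop) hne
  unfold bet''
  refine continuous_const.mul (Continuous.div ?_ (by fun_prop) fun x => pow_ne_zero 2 (hne x))
  fun_prop

lemma bet_bounds : ∃ C : ℝ, 0 ≤ C ∧ ∀ x, |bet x| ≤ C ∧ |bet' x| ≤ C ∧ |bet'' x| ≤ C := by
  have ha := ab_pos
  have he := pe_pos
  have hc := pc_pos
  have hpi := Real.pi_pos
  set k := Real.pi * pc / 2 with hk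
  have hk0 : 0 < k := by positivity
  set C1 := ab / pe ^ 3 with hC1
  set C2 := 10 * ab / pe ^ 4 with hC2
  have hC10 : 0 ≤ C1 := by positivity
  have hC20 : 0 ≤ C2 := by positivity
  set C0 := Real.sqrt (1 + ab / pe ^ 2) with hC0
  have hC00 : 0 ≤ C0 := Real.sqrt_nonneg _
  refine ⟨k * (C0 + C1 + C2 + C1 ^ 2), by positivity, fun x => ?_⟩
  have h1 := one_le_sqrt_Gb x
  have g1 := Gb'_le x
  have g2 := Gb''_le x
  have b1 : |Gb' x / (2 * Real.sqrt (Gb x))| ≤ C1 := by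
    rw [abs_div, abs_of_pos (by positivity : 0 < 2 * Real.sqrt (Gb x))]
    rw [div_le_iff₀ (by positivity)]
    have : C1 ≤ C1 * (2 * Real.sqrt (Gb x)) := by nlinarith
    linarith
  refine ⟨?_, ?_, ?_⟩
  · rw [bet_eq, abs_mul, abs_of_pos hk0, abs_of_nonneg (Real.sqrt_nonneg _)]
    refine mul_le_mul_of_nonneg_left ?_ hk0.le
    have : Real.sqrt (Gb x) ≤ C0 := by
      apply Real.sqrt_le_sqrt
      unfold Gb
      have : ab / (x ^ 2 + pe ^ 2) ≤ ab / pe ^ 2 := by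
        apply div_le_div_of_nonneg_left ha.le (by positivity)
        nlinarith [sq_nonneg x]
      linarith
    nlinarith [sq_nonneg C1]
  · unfold bet'
    rw [abs_mul, abs_of_pos hk0]
    refine mul_le_mul_of_nonneg_left ?_ hk0.le
    nlinarith [sq_nonneg C1]
  · unfold bet''
    rw [abs_mul, abs_of_pos hk0]
    refine mul_le_mul_of_nonneg_left ?_ hk0.le
    rw [abs_div, abs_of_pos (by positivity : 0 < (2 * Real.sqrt (Gb x)) ^ 2),
      div_le_iff₀ (by positivity)]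
    have t1 : |Gb'' x * (2 * Real.sqrt (Gb x)) - Gb' x * (2 * (Gb' x / (2 * Real.sqrt (Gb x))))| ≤
        C2 * (2 * Real.sqrt (Gb x)) + C1 * (2 * C1) := by
      refine (abs_sub _ _).trans (add_le_add ?_ ?_)
      · rw [abs_mul, abs_of_pos (by positivity : 0 < 2 * Real.sqrt (Gb x))]
        exact mul_le_mul_of_nonneg_right g2 (by positivity)
      · rw [abs_mul, abs_mul, abs_two]
        exact mul_le_mul g1 (mul_le_mul_of_nonneg_left b1 (by norm_num)) (by positivity) hC10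
    set q := Real.sqrt (Gb x)
    have t2 : C2 * (2 * q) ≤ C2 * (2 * q) ^ 2 := by
      refine mul_le_mul_of_nonneg_left ?_ hC20
      nlinarith
    have t3 : C1 * (2 * C1) ≤ C1 ^ 2 * (2 * q) ^ 2 := by
      have : 0 ≤ C1 ^ 2 := sq_nonneg _
      nlinarith [mul_le_mul_of_nonneg_left (by nlinarith : (2 : ℝ) ≤ (2 * q) ^ 2) this]
    have t4 : 0 ≤ (C0 + C1) * (2 * q) ^ 2 := by positivity
    nlinarith

/-- the vertical cut-off -/
lemma hasDerivAt_ge (t : ℝ) : HasDerivAt (fun t : ℝ => 1 - Real.exp (-t)) (Real.exp (-t)) t := by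
  have := ((hasDerivAt_id t).neg.exp).const_sub 1
  exact this.congr_deriv (by simp)

lemma hasDerivAt_ge' (t : ℝ) : HasDerivAt (fun t : ℝ => Real.exp (-t)) (-Real.exp (-t)) t := by
  have := (hasDerivAt_id t).neg.exp
  exact this.congr_deriv (by simp)

theorem exists_T : ∃ h0 : ℝ, 0 < h0 ∧ ∀ h : ℝ, 0 < h → h ≤ h0 →
    ∃ T : (ℝ × ℝ →ᵇ ℝ) → (ℝ × ℝ →ᵇ ℝ), RobinOp bet (4 / h ^ 2) T := by
  have hx := C2bar.fst.comp hasDerivAt_bet hasDerivAt_bet' continuous_bet''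
  have hy := C2bar.snd.comp hasDerivAt_ge hasDerivAt_ge' (by fun_prop)
  have hb := hx.mul hy
  obtain ⟨C, hC0, hC⟩ := bet_bounds
  have key := exists_robinOp (b := fun z : ℝ × ℝ => bet z.1 * (1 - Real.exp (-z.2)))
    ⟨hb, fun x => by simp, 2 * C, fun z hz => ?_⟩
  · obtain ⟨h0, h0pos, h1⟩ := key
    refine ⟨h0, h0pos, fun h hpos hle => ?_⟩
    obtain ⟨T, hT⟩ := h1 h hpos hle
    refine ⟨T, ?_⟩
    have e : (fun x : ℝ => bet' ((x, (0 : ℝ)) : ℝ × ℝ).1 * 0 * (1 - Real.exp (-((x, (0 : ℝ)) : ℝ × ℝ).2)) +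
        bet ((x, (0 : ℝ)) : ℝ × ℝ).1 * (Real.exp (-((x, (0 : ℝ)) : ℝ × ℝ).2) * 1)) = bet := by
      funext x
      simp
    rw [e] at hT
    exact hT
  · obtain ⟨a0, a1, a2⟩ := hC z.1
    have hz' : 0 ≤ z.2 := hz
    have e0 : 0 < Real.exp (-z.2) := Real.exp_pos _
    have e1 : Real.exp (-z.2) ≤ 1 := Real.exp_le_one_iff.2 (by linarith)
    have e2 : |1 - Real.exp (-z.2)| ≤ 1 := by rw [abs_le]; constructor <;> linarith
    have e3 : |Real.exp (-z.2)| ≤ 1 := by rw [abs_le]; constructor <;> linarith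
    have gen : ∀ p q : ℝ, |p| ≤ C → |q| ≤ 1 → |p * q| ≤ 2 * C := by
      intro p q hp hq
      rw [abs_mul]
      calc |p| * |q| ≤ C * 1 := mul_le_mul hp hq (abs_nonneg _) hC0
        _ ≤ 2 * C := by linarith
    simp only [mul_zero, zero_mul, add_zero, zero_add, mul_one]
    refine ⟨gen _ _ a0 e2, gen _ _ a1 e2, gen _ _ a0 e3, gen _ _ a2 e2, gen _ _ a0 ?_⟩
    rw [abs_neg]; exact e3

/-! ### The semilinear problem -/

lemma continuousOn_Pf : ContinuousOn Pf Hbar := by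
  unfold Pf
  exact (continuousOn_const.add (continuousOn_const.mul (continuousOn_u2 pe_pos))).add
    (continuousOn_const.div continuous_rr.continuousOn fun z hz => (rr_pos pe_pos hz).ne')

lemma Pf_bdd : ∃ C : ℝ, ∀ z ∈ Hbar, |Pf z| ≤ C := by
  have hc := pc_pos
  have he := pe_pos
  refine ⟨1 + 2 * pc * (1 / pe) + pc ^ 2 / pe ^ 2, fun z hz => ?_⟩
  rw [abs_of_pos (by linarith [Pf_ge_one hz])]
  have hrr := rr_pos pe_pos hz
  have h1 := rr_ge pe_pos hz
  have h2 : u2 pe z ≤ 1 / pe := by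
    unfold u2
    rw [div_le_div_iff₀ hrr he]
    have h0 : 0 ≤ z.2 := hz
    unfold rr
    nlinarith [sq_nonneg z.1]
  have h3 : pc ^ 2 / rr pe z ≤ pc ^ 2 / pe ^ 2 :=
    div_le_div_of_nonneg_left (by positivity) (by positivity) h1
  unfold Pf
  have : 2 * pc * u2 pe z ≤ 2 * pc * (1 / pe) := mul_le_mul_of_nonneg_left h2 (by positivity)
  linarith

/-- the weight as a bounded continuous function -/
noncomputable def PB : ℝ × ℝ →ᵇ ℝ := mkB Pf continuousOn_Pf Pf_bdd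

lemma PB_eq {z : ℝ × ℝ} (hz : z ∈ Hbar) : PB z = Pf z := mkB_apply_of_mem _ _ hz

lemma PB_ge (z : ℝ × ℝ) : 1 ≤ PB z := by
  unfold PB
  rw [mkB_apply]
  exact Pf_ge_one (abs2_mem z)

/-- solutions of the weighted problem in the half plane -/
structure HSol (U Ux Uy : ℝ × ℝ → ℝ) : Prop where
  c1 : C1bar U Ux Uy
  pos : ∀ z ∈ Hset, 0 < U z
  le : ∀ z ∈ Hbar, U z ≤ 1
  grad : ∃ C : ℝ, ∀ z ∈ Hset, |Ux z| ≤ C ∧ |Uy z| ≤ C
  weak : ∀ ψ ψx ψy : ℝ × ℝ → ℝ, Test ψ ψx ψy →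
    (∫ z in Hset, (Ux z * ψx z + Uy z * ψy z)) + (∫ x, bet x * U (x, 0) * ψ (x, 0)) =
      ∫ z in Hset, Pf z * fr (U z) * ψ z

theorem exists_two : ∃ U Ux Uy V Vx Vy : ℝ × ℝ → ℝ, HSol U Ux Uy ∧ HSol V Vx Vy ∧
    V (0, 0) < U (0, 0) := by
  obtain ⟨L, hL0, hL⟩ := lip_fc
  obtain ⟨h0, h0pos, hT0⟩ := exists_T
  set h := min h0 (1 / (‖PB‖ * L + 1)) with hh
  have hPL : 0 ≤ ‖PB‖ * L := mul_nonneg (norm_nonneg _) hL0
  have hhpos : 0 < h := lt_min h0pos (by positivity)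
  obtain ⟨T, hT⟩ := hT0 h hhpos (min_le_left _ _)
  set m := 4 / h ^ 2 with hmdef
  have hm : 0 < m := by positivity
  have hmL : ‖PB‖ * L ≤ m := by
    have h1 : h ≤ 1 / (‖PB‖ * L + 1) := min_le_right _ _
    have h2 : h * (‖PB‖ * L + 1) ≤ 1 := by rwa [le_div_iff₀ (by positivity)] at h1
    rw [hmdef, le_div_iff₀ (by positivity)]
    have h3 : h ≤ 1 := by nlinarith
    have h4 : h ^ 2 ≤ h := by nlinarith
    calc ‖PB‖ * L * h ^ 2 ≤ (‖PB‖ * L + 1) * h := by nlinarith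
      _ ≤ 4 := by linarith
  have hN : NL m PB fc := by
    refine ⟨continuous_fc, bdd_fc, fun z s => mul_nonneg (by linarith [PB_ge z]) (fc_nonneg s),
      fun z s t hst => ?_⟩
    have h1 := hL s t
    rw [abs_of_nonpos (by linarith : s - t ≤ 0)] at h1
    have h2 : fc s - fc t ≤ L * -(s - t) := (le_abs_self _).trans h1
    have h3 : PB z ≤ ‖PB‖ := (le_abs_self _).trans (abs_bcf_le PB z)
    have h4 := PB_ge z
    have h5 : PB z * (fc s - fc t) ≤ PB z * (L * -(s - t)) :=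
      mul_le_mul_of_nonneg_left h2 (by linarith)
    have h6 : PB z * (L * -(s - t)) ≤ ‖PB‖ * (L * -(s - t)) :=
      mul_le_mul_of_nonneg_right h3 (mul_nonneg hL0 (by linarith))
    have h7 : ‖PB‖ * L * -(s - t) ≤ m * -(s - t) := mul_le_mul_of_nonneg_right hmL (by linarith)
    linarith
  -- the supersolutions
  have sup1 : ∀ u0 : ℝ × ℝ →ᵇ ℝ, (∀ z ∈ Hbar, u0 z ≤ 1) → ∀ z ∈ Hbar, T (rhs hN u0) z ≤ 1 := by
    intro u0 hu0
    refine hT.le_of_sup continuous_bet bet_nonneg hm (C2bar.const 1) (M := 0)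
      (fun _ _ => by norm_num) _ (fun z hz => ?_) (fun x => by simpa using bet_nonneg x)
    rw [rhs_apply]
    have h1 := hN.mono z _ _ (hu0 z (Hset_subset_Hbar hz))
    rw [fc_of_ge le_rfl] at h1
    linarith
  obtain ⟨Sx, Sy, Sxx, Syy, hS, hSint, hSbd⟩ := St_super
  have sup2 : ∀ u0 : ℝ × ℝ →ᵇ ℝ, (∀ z ∈ Hbar, u0 z ≤ St z) → ∀ z ∈ Hbar,
      T (rhs hN u0) z ≤ St z := by
    intro u0 hu0
    refine hT.le_of_sup continuous_bet bet_nonneg hm hS (M := 0)
      (fun z _ => by have := St_nonneg z; linarith) _ (fun z hz => ?_) hSbd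
    rw [rhs_apply]
    have hzb := Hset_subset_Hbar hz
    have h1 := hN.mono z _ _ (hu0 z hzb)
    have h2 := hSint z hz
    rw [PB_eq hzb] at h1 ⊢
    linarith
  -- subsolutions
  have sub_s1 : IsSub bet PB fc s1 := by
    obtain ⟨sx, sy, sxx, syy, a, b, c⟩ := s1_sub
    exact ⟨⟨1 / 2, fun z _ => s1_le z⟩, sx, sy, sxx, syy, a,
      fun z hz => by rw [PB_eq (Hset_subset_Hbar hz)]; exact b z hz, c⟩
  have sub_s2 : IsSub bet PB fc s2 := by
    obtain ⟨sx, sy, sxx, syy, a, b, c⟩ := s2_sub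
    refine ⟨⟨1, fun z hz => ?_⟩, sx, sy, sxx, syy, a,
      fun z hz => by rw [PB_eq (Hset_subset_Hbar hz)]; exact b z hz, c⟩
    have := (abs_le.1 (s2_range hz)).2
    linarith
  -- the general construction
  have build : ∀ u0 : ℝ × ℝ →ᵇ ℝ, (∀ z ∈ Hbar, 0 ≤ u0 z) → (∀ z ∈ Hbar, u0 z ≤ 1) →
      (∀ z ∈ Hbar, T (rhs hN u0) z ≤ u0 z) → (∀ z ∈ Hbar, s1 z ≤ u0 z) →
      ∃ U Ux Uy : ℝ × ℝ → ℝ, HSol U Ux Uy ∧ (∀ z ∈ Hbar, U z ≤ u0 z) ∧
        ∀ s, IsSub bet PB fc s → (∀ z ∈ Hbar, s z ≤ u0 z) → ∀ z ∈ Hbar, s z ≤ U z := by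
    intro u0 h0 h1 hsup hs1
    obtain ⟨U, Ux, Uy, hc1, hb, hw, hsub, hg⟩ :=
      exists_sol hT continuous_bet bet_nonneg hm hN u0 h0 hsup
    have hpos : ∀ z ∈ Hset, 0 < U z := by
      refine strict_pos continuous_bet bet_nonneg hc1 (fun z hz => (hb z hz).1) ?_
        (z0 := (0, 23)) (show (0 : ℝ) < 23 by norm_num) ?_
      · intro ψ ψx ψy ht hψ
        rw [hw ψ ψx ψy ht]
        refine setIntegral_nonneg measurableSet_Hset fun z hz => ?_
        exact mul_nonneg (hN.nonneg z _) (hψ z (Hset_subset_Hbar hz))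
      · have h23 : ((0, 23) : ℝ × ℝ) ∈ Hbar := (show (0 : ℝ) ≤ 23 by norm_num)
        have := hsub s1 sub_s1 hs1 _ h23
        rw [s1_centre] at this
        linarith
    refine ⟨U, Ux, Uy, ⟨hc1, hpos, fun z hz => (hb z hz).2.trans (h1 z hz), hg, ?_⟩,
      fun z hz => (hb z hz).2, hsub⟩
    intro ψ ψx ψy ht
    rw [hw ψ ψx ψy ht]
    refine setIntegral_congr_fun measurableSet_Hset fun z hz => ?_
    have hzb := Hset_subset_Hbar hz
    rw [PB_eq hzb, fc_eq (hb z hzb).1 ((hb z hzb).2.trans (h1 z hzb))]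
  -- the large solution
  obtain ⟨U, Ux, Uy, hU, hU1, hU2⟩ := build (BoundedContinuousFunction.const _ 1)
    (fun _ _ => zero_le_one) (fun _ _ => le_rfl) (sup1 _ fun _ _ => le_rfl)
    (fun z _ => (s1_le z).trans (by norm_num))
  -- the small solution
  have hcont : ContinuousOn (fun z => min 1 (St z)) Hbar :=
    ContinuousOn.inf continuousOn_const hS.cont
  have hbdd : ∃ C : ℝ, ∀ z ∈ Hbar, |min 1 (St z)| ≤ C := ⟨1, fun z _ => by
    rw [abs_of_nonneg (le_min zero_le_one (St_nonneg z))]; exact min_le_left _ _⟩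
  have hm0 : ∀ z ∈ Hbar, mkB _ hcont hbdd z = min 1 (St z) := fun z hz =>
    mkB_apply_of_mem _ _ hz
  obtain ⟨V, Vx, Vy, hV, hV1, hV2⟩ := build (mkB _ hcont hbdd)
    (fun z hz => by rw [hm0 z hz]; exact le_min zero_le_one (St_nonneg z))
    (fun z hz => by rw [hm0 z hz]; exact min_le_left _ _)
    (fun z hz => by
      rw [hm0 z hz]
      exact le_min (sup1 _ (fun z hz => by rw [hm0 z hz]; exact min_le_left _ _) z hz)
        (sup2 _ (fun z hz => by rw [hm0 z hz]; exact min_le_right _ _) z hz))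
    (fun z hz => by
      rw [hm0 z hz]
      refine le_min ((s1_le z).trans (by norm_num)) ?_
      rcases le_total (qc (0, 23) 22 z) 0 with h | h
      · have : s1 z = 0 := by unfold s1; rw [max_eq_right h]; simp
        rw [this]; exact St_nonneg z
      · have hlam : L1 ≤ lam pe z := by
          have h1 := Y_le_exp hz
          have h2 : 1 ≤ z.2 := by
            unfold qc at h
            have h3 : ((z.1 - 0) ^ 2 + (z.2 - 23) ^ 2) / 22 ^ 2 ≤ 1 := by linarith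
            rw [div_le_one (by norm_num)] at h3
            nlinarith [sq_nonneg (z.1 - 0)]
          have h3 := pe_pos
          have h4 : pc / 200 ≤ Real.exp (lam pe z) := by
            have : pc / 200 ≤ 1 := by unfold pc; norm_num
            linarith
          rw [← exp_L1] at h4
          exact Real.exp_le_exp.1 h4
        exact (s1_le z).trans ((by norm_num : (1 / 2 : ℝ) ≤ 1).trans (St_ge_one hlam)))
  refine ⟨U, Ux, Uy, V, Vx, Vy, hU, hV, ?_⟩
  have h00 : ((0, 0) : ℝ × ℝ) ∈ Hbar := le_refl (0 : ℝ)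
  have k1 : s2 (0, 0) ≤ U (0, 0) := hU2 s2 sub_s2 (fun z hz => by
    have := (abs_le.1 (s2_range hz)).2
    change s2 z ≤ 1
    linarith) _ h00
  have k2 := (abs_le.1 (s2_range h00)).1
  have k3 : V (0, 0) ≤ St (0, 0) := (hV1 _ h00).trans (by rw [hm0 _ h00]; exact min_le_right _ _)
  have k4 : St (0, 0) ≤ 1 / 2 := by
    have hlam : lam pe (0, 0) = L1 - 30 / pc := by
      unfold lam rr
      have : Real.log (((0, 0) : ℝ × ℝ).1 ^ 2 + (((0, 0) : ℝ × ℝ).2 + pe) ^ 2) = 2 * Real.log pe := by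
        simp only [zero_add]
        rw [show (0 : ℝ) ^ 2 + pe ^ 2 = pe ^ 2 by ring, Real.log_pow]
        push_cast; ring
      rw [this]
      unfold pe
      rw [Real.log_exp]
      ring
    unfold St
    have hT1 := gT_bounds (tau_abs (ε := pe) (0, 0)).le
    have hW : gW (lam pe (0, 0)) ≤ 1 / 2 := by
      rw [hlam]
      unfold gW
      have e1 : 9 / 10 * pc * (L1 - 30 / pc - L1) = -27 := by
        have := pc_pos
        field_simp
        ring
      rw [e1]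
      have e2 : Real.exp (-27) ≤ 1 / 10000000000 := by
        rw [Real.exp_neg, ← one_div]
        exact one_div_le_one_div_of_le (by norm_num) exp27
      have e3 : (9 / 10 : ℝ) ≤ max (1 - Real.exp (-27)) 0 := by
        refine le_max_of_le_left ?_
        have : (1 / 10000000000 : ℝ) ≤ 1 / 10 := by norm_num
        linarith
      have e4 : (9 / 10 : ℝ) ^ 3 ≤ (max (1 - Real.exp (-27)) 0) ^ 3 :=
        pow_le_pow_left₀ (by norm_num) e3 3
      nlinarith
    have hW0 := gW_ge (lam pe (0, 0))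
    calc gW (lam pe (0, 0)) * gT (tau pe (0, 0)) ≤ gW (lam pe (0, 0)) * 1 :=
          mul_le_mul_of_nonneg_left hT1.2 (by linarith)
      _ ≤ 1 / 2 := by rw [mul_one]; exact hW
  linarith

end Pool.Agent.Lib.MP_1dc5fb
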