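import Pool.Agent.Lib.MP_1dc5fb_an.Deriv

/-!
The weak equation satisfied by the ray averages of even functions, on the upper half plane.
-/

set_option autoImplicit false

open MeasureTheory Set Filter Topology
open scoped BoundedContinuousFunction

namespace Pool.Agent.Lib.MP_1dc5fb

lemma iadd {α : Type*} [MeasurableSpace α] {μ : Measure α} {f g : α → ℝ} (hf : Integrable f μ)
    (hg : Integrable g μ) : Integrable (fun a => f a + g a) μ := hf.add hg

lemma isub {α : Type*} [MeasurableSpace α] {μ : Measure α} {f g : α → ℝ} (hf : Integrable f μ)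
    (hg : Integrable g μ) : Integrable (fun a => f a - g a) μ := hf.sub hg

/-- the open upper half plane -/
def Hset : Set (ℝ × ℝ) := {z | 0 < z.2}
/-- the closed upper half plane -/
def Hbar : Set (ℝ × ℝ) := {z | 0 ≤ z.2}

lemma mem_Hset {z : ℝ × ℝ} : z ∈ Hset ↔ 0 < z.2 := Iff.rfl
lemma mem_Hbar {z : ℝ × ℝ} : z ∈ Hbar ↔ 0 ≤ z.2 := Iff.rfl

lemma isOpen_Hset : IsOpen Hset := isOpen_lt continuous_const continuous_snd
lemma isClosed_Hbar : IsClosed Hbar := isClosed_le continuous_const continuous_snd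
lemma measurableSet_Hset : MeasurableSet Hset := isOpen_Hset.measurableSet
lemma Hset_subset_Hbar : Hset ⊆ Hbar := fun z h => (show 0 ≤ z.2 from (show 0 < z.2 from h).le)

lemma Hset_eq_prod : Hset = (univ : Set ℝ) ×ˢ Ioi (0 : ℝ) := by
  ext z; simp [Hset]

/-- functions that are continuously differentiable up to the boundary of the half plane -/
structure C1bar (w wx wy : ℝ × ℝ → ℝ) : Prop where
  cont : ContinuousOn w Hbar
  contx : ContinuousOn wx Hbar
  conty : ContinuousOn wy Hbar
  deriv : ∀ z ∈ Hset, HasFDerivAt w (lin (wx z) (wy z)) z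

/-- test functions -/
structure Test (ψ ψx ψy : ℝ × ℝ → ℝ) : Prop extends C1bar ψ ψx ψy where
  supp : ∃ R : ℝ, ∀ z ∈ Hbar, (R ≤ |z.1| ∨ R ≤ z.2) → ψ z = 0 ∧ ψx z = 0 ∧ ψy z = 0

/-- reflection to the closed upper half plane -/
def abs2 (z : ℝ × ℝ) : ℝ × ℝ := (z.1, |z.2|)

lemma continuous_abs2 : Continuous abs2 := by unfold abs2; fun_prop
lemma abs2_mem (z : ℝ × ℝ) : abs2 z ∈ Hbar := (show 0 ≤ |z.2| from abs_nonneg _)
lemma abs2_of_mem {z : ℝ × ℝ} (hz : z ∈ Hbar) : abs2 z = z := by
  unfold abs2; rw [abs_of_nonneg hz]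

lemma continuous_comp_abs2 {w : ℝ × ℝ → ℝ} (hw : ContinuousOn w Hbar) :
    Continuous (fun z => w (abs2 z)) :=
  hw.comp_continuous continuous_abs2 abs2_mem

/-- the sign used for odd extensions -/
noncomputable def sg (y : ℝ) : ℝ := if 0 ≤ y then 1 else -1

lemma measurable_sg : Measurable sg := by
  unfold sg; exact Measurable.ite measurableSet_Ici measurable_const measurable_const

lemma abs_sg (y : ℝ) : |sg y| = 1 := by unfold sg; split_ifs <;> simp

/-- fundamental theorem of calculus on a half line, off a countable set -/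
lemma integral_Ioi_off_countable {f f' : ℝ → ℝ} {a m : ℝ} {s : Set ℝ} (hs : s.Countable)
    (hc : ContinuousOn f (Ici a)) (hd : ∀ x ∈ Ioi a \ s, HasDerivAt f (f' x) x)
    (hi : IntegrableOn f' (Ioi a)) (hf : Tendsto f atTop (𝓝 m)) :
    ∫ x in Ioi a, f' x = m - f a := by
  refine tendsto_nhds_unique (intervalIntegral_tendsto_integral_Ioi a hi tendsto_id) ?_
  refine Tendsto.congr' ?_ (hf.sub_const _)
  filter_upwards [Ioi_mem_atTop a] with x hx
  have h' : x ∈ Ioi a := hx
  symm
  refine integral_eq_of_hasDerivAt_off_countable_of_le f f' (le_of_lt h') hs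
    (hc.mono Icc_subset_Ici_self) ?_ ?_
  · intro y hy
    exact hd y ⟨hy.1.1, hy.2⟩
  · change IntervalIntegrable f' volume a x
    rw [intervalIntegrable_iff_integrableOn_Ioc_of_le (le_of_lt h')]
    exact hi.mono_set Ioc_subset_Ioi_self

lemma lin_neg_snd (a b : ℝ) : (lin a b).comp
    ((ContinuousLinearMap.fst ℝ ℝ ℝ).prod (-ContinuousLinearMap.snd ℝ ℝ ℝ)) = lin a (-b) := by
  ext <;> simp [lin]

/-- differentiability of the even extension off the axis -/
lemma C1bar.hasFDerivAt_abs2 {w wx wy : ℝ × ℝ → ℝ} (hw : C1bar w wx wy) {z : ℝ × ℝ}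
    (hz : z.2 ≠ 0) :
    HasFDerivAt (fun z => w (abs2 z)) (lin (wx (abs2 z)) (sg z.2 * wy (abs2 z))) z := by
  rcases lt_or_gt_of_ne hz with hz | hz
  · have h1 : HasFDerivAt (fun z : ℝ × ℝ => (z.1, -z.2))
        ((ContinuousLinearMap.fst ℝ ℝ ℝ).prod (-ContinuousLinearMap.snd ℝ ℝ ℝ)) z :=
      hasFDerivAt_fst.prodMk hasFDerivAt_snd.neg
    have h2 : abs2 z = (z.1, -z.2) := by unfold abs2; rw [abs_of_neg hz]
    have h3 := hw.deriv (z.1, -z.2) (by simpa [Hset] using hz)
    have h4 := h3.comp z h1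
    rw [lin_neg_snd] at h4
    have h5 : sg z.2 = -1 := by unfold sg; rw [if_neg (not_le.2 hz)]
    rw [h2, h5, neg_one_mul]
    refine h4.congr_of_eventuallyEq ?_
    filter_upwards [(isOpen_lt continuous_snd continuous_const).mem_nhds hz] with u hu
    simp only [Function.comp_def, abs2]
    rw [abs_of_neg (show u.2 < 0 from hu)]
  · have h2 : abs2 z = z := abs2_of_mem (le_of_lt hz)
    have h5 : sg z.2 = 1 := by unfold sg; rw [if_pos (le_of_lt hz)]
    rw [h2, h5, one_mul]
    refine (hw.deriv z hz).congr_of_eventuallyEq ?_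
    filter_upwards [isOpen_Hset.mem_nhds hz] with u hu
    rw [abs2_of_mem (Hset_subset_Hbar hu)]

/-- the even extension of a test function and its derivatives -/
lemma Test.bounds {ψ ψx ψy : ℝ × ℝ → ℝ} (h : Test ψ ψx ψy) :
    ∃ C : ℝ, 0 ≤ C ∧ ∀ z ∈ Hbar, |ψ z| ≤ C ∧ |ψx z| ≤ C ∧ |ψy z| ≤ C := by
  obtain ⟨R, hR⟩ := h.supp
  have hK : IsCompact (Icc (-R, (0 : ℝ)) (R, R)) := isCompact_Icc
  have hsub : Icc (-R, (0 : ℝ)) (R, R) ⊆ Hbar := fun z hz => hz.1.2
  obtain ⟨C1, h1⟩ := hK.exists_bound_of_continuousOn (h.cont.mono hsub)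
  obtain ⟨C2, h2⟩ := hK.exists_bound_of_continuousOn (h.contx.mono hsub)
  obtain ⟨C3, h3⟩ := hK.exists_bound_of_continuousOn (h.conty.mono hsub)
  refine ⟨max 0 (max C1 (max C2 C3)), le_max_left _ _, fun z hz => ?_⟩
  by_cases hz2 : z ∈ Icc (-R, (0 : ℝ)) (R, R)
  · have e1 := h1 z hz2
    have e2 := h2 z hz2
    have e3 := h3 z hz2
    rw [Real.norm_eq_abs] at e1 e2 e3
    refine ⟨e1.trans (by simp), e2.trans (by simp), e3.trans (by simp)⟩
  · have : R ≤ |z.1| ∨ R ≤ z.2 := by
      by_contra hcon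
      push Not at hcon
      apply hz2
      refine ⟨⟨?_, hz⟩, ⟨?_, hcon.2.le⟩⟩
      · exact (abs_lt.1 hcon.1).1.le
      · exact (abs_lt.1 hcon.1).2.le
    obtain ⟨a1, a2, a3⟩ := hR z hz this
    simp [a1, a2, a3]

lemma integrable_of_bounded_supp {w : ℝ × ℝ → ℝ} (hw : Measurable w) {C R : ℝ}
    (hC : ∀ z, |w z| ≤ C) (hR : ∀ z : ℝ × ℝ, (R ≤ |z.1| ∨ R ≤ |z.2|) → w z = 0) :
    Integrable w := by
  have hsub : Function.support w ⊆ Icc (-R, -R) (R, R) := by
    intro z hz
    by_contra hcon
    apply hz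
    apply hR
    by_contra hcon2
    push Not at hcon2
    apply hcon
    obtain ⟨a, b⟩ := hcon2
    exact ⟨⟨(abs_lt.1 a).1.le, (abs_lt.1 b).1.le⟩, ⟨(abs_lt.1 a).2.le, (abs_lt.1 b).2.le⟩⟩
  rw [← integrableOn_iff_integrable_of_support_subset hsub]
  refine Measure.integrableOn_of_bounded (M := C) ?_ hw.aestronglyMeasurable ?_
  · exact (isCompact_Icc.measure_lt_top).ne
  · exact Eventually.of_forall fun z => by rw [Real.norm_eq_abs]; exact hC z

/-- the point reached on a ray, forward version -/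
def shiftp (h : ℝ) (z : ℝ × ℝ) (p : ℝ × (ℝ × ℝ)) : ℝ × ℝ :=
  (z.1 + h * p.1 * p.2.1, z.2 + h * p.1 * p.2.2)

lemma continuous_shiftp (h : ℝ) :
    Continuous (fun q : (ℝ × ℝ) × (ℝ × (ℝ × ℝ)) => shiftp h q.1 q.2) := by
  unfold shiftp; fun_prop

lemma integrable_conv_meas {h : ℝ} {K : ℝ × (ℝ × ℝ) → ℝ} (hK : Integrable K rayMeasure)
    {G : ℝ × ℝ → ℝ} (hG : Measurable G) {C : ℝ} (hC : ∀ z, |G z| ≤ C) (z : ℝ × ℝ) :
    Integrable (fun p => K p * G (shiftp h z p)) rayMeasure := by
  refine Integrable.mono' (hK.norm.mul_const C) ?_ ?_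
  · refine hK.aestronglyMeasurable.mul (hG.comp ?_).aestronglyMeasurable
    unfold shiftp; fun_prop
  · refine Eventually.of_forall fun p => ?_
    rw [norm_mul, Real.norm_eq_abs (G _)]
    exact mul_le_mul_of_nonneg_left (hC _) (norm_nonneg _)

/-- duality between backward and forward averages -/
lemma conv_dual {h : ℝ} {K : ℝ × (ℝ × ℝ) → ℝ} (hK : Integrable K rayMeasure)
    (F : ℝ × ℝ →ᵇ ℝ) {G : ℝ × ℝ → ℝ} (hG : Measurable G) (hGi : Integrable G) :
    (∫ z, convFun h K F z * G z) = (∫ z, F z * ∫ p, K p * G (shiftp h z p) ∂rayMeasure) ∧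
    Integrable (fun z => F z * ∫ p, K p * G (shiftp h z p) ∂rayMeasure) := by
  -- first function on the product
  have i1 : Integrable (fun q : (ℝ × ℝ) × (ℝ × (ℝ × ℝ)) => K q.2 * F (shift h q.1 q.2) * G q.1)
      ((volume : Measure (ℝ × ℝ)).prod rayMeasure) := by
    have := (Integrable.mul_prod hGi hK).norm.mul_const ‖F‖
    refine Integrable.mono' this ?_ ?_
    · refine AEStronglyMeasurable.mul (AEStronglyMeasurable.mul ?_ ?_) ?_
      · exact hK.aestronglyMeasurable.comp_snd
      · exact (F.continuous.comp (continuous_shift h)).aestronglyMeasurable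
      · exact hGi.aestronglyMeasurable.comp_fst
    · refine Eventually.of_forall fun q => ?_
      rw [norm_mul, norm_mul, norm_mul]
      have := F.norm_coe_le_norm (shift h q.1 q.2)
      calc ‖K q.2‖ * ‖F (shift h q.1 q.2)‖ * ‖G q.1‖ ≤ ‖K q.2‖ * ‖F‖ * ‖G q.1‖ := by gcongr
        _ = _ := by ring
  have i2 : Integrable (fun q : (ℝ × (ℝ × ℝ)) × (ℝ × ℝ) => K q.1 * (F q.2 * G (shiftp h q.2 q.1)))
      (rayMeasure.prod (volume : Measure (ℝ × ℝ))) := by
    have hm : AEStronglyMeasurable
        (fun q : (ℝ × (ℝ × ℝ)) × (ℝ × ℝ) => K q.1 * (F q.2 * G (shiftp h q.2 q.1)))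
        (rayMeasure.prod (volume : Measure (ℝ × ℝ))) := by
      refine AEStronglyMeasurable.mul hK.aestronglyMeasurable.comp_fst
        (AEStronglyMeasurable.mul ?_ ?_)
      · exact (F.continuous.comp continuous_snd).aestronglyMeasurable
      · refine (hG.comp ?_).aestronglyMeasurable
        unfold shiftp; fun_prop
    have hslice : ∀ p : ℝ × (ℝ × ℝ), Integrable (fun z : ℝ × ℝ => G (shiftp h z p)) := by
      intro p
      have := hGi.comp_add_right (h * p.1 * p.2.1, h * p.1 * p.2.2)
      exact this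
    have hslice2 : ∀ p : ℝ × (ℝ × ℝ), ∫ z : ℝ × ℝ, ‖G (shiftp h z p)‖ = ∫ z, ‖G z‖ := by
      intro p
      exact integral_add_right_eq_self (fun z => ‖G z‖) (h * p.1 * p.2.1, h * p.1 * p.2.2)
    rw [integrable_prod_iff hm]
    constructor
    · refine Eventually.of_forall fun p => ?_
      have hh : Integrable (fun z : ℝ × ℝ => F z * G (shiftp h z p)) := ?_
      · exact hh.const_mul (K p)
      refine Integrable.mono' ((hslice p).norm.const_mul ‖F‖) ?_ ?_
      · have hFm : AEStronglyMeasurable (fun z : ℝ × ℝ => F z) volume :=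
          F.continuous.aestronglyMeasurable
        exact hFm.mul (hslice p).aestronglyMeasurable
      · refine Eventually.of_forall fun z => ?_
        rw [norm_mul]
        exact mul_le_mul_of_nonneg_right (F.norm_coe_le_norm _) (norm_nonneg _)
    · refine Integrable.mono' (hK.norm.mul_const (‖F‖ * ∫ z, ‖G z‖)) ?_ ?_
      · exact hm.norm.integral_prod_right'
      · refine Eventually.of_forall fun p => ?_
        rw [Real.norm_eq_abs, abs_of_nonneg (by positivity)]
        have : ∀ z : ℝ × ℝ, ‖K p * (F z * G (shiftp h z p))‖ ≤ ‖K p‖ * (‖F‖ * ‖G (shiftp h z p)‖) := by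
          intro z
          rw [norm_mul, norm_mul]
          have := F.norm_coe_le_norm z
          gcongr
        calc ∫ z : ℝ × ℝ, ‖K p * (F z * G (shiftp h z p))‖
            ≤ ∫ z : ℝ × ℝ, ‖K p‖ * (‖F‖ * ‖G (shiftp h z p)‖) := by
              refine integral_mono_of_nonneg (Eventually.of_forall fun z => norm_nonneg _) ?_
                (Eventually.of_forall this)
              exact ((hslice p).norm.const_mul _).const_mul _
          _ = ‖K p‖ * (‖F‖ * ∫ z, ‖G z‖) := by
              rw [integral_const_mul, integral_const_mul, hslice2]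
  constructor
  · calc (∫ z, convFun h K F z * G z)
        = ∫ z, ∫ p, K p * F (shift h z p) * G z ∂rayMeasure := by
          refine integral_congr_ae (Eventually.of_forall fun z => ?_)
          simp only [convFun]
          rw [integral_mul_const]
      _ = ∫ p, (∫ z : ℝ × ℝ, K p * F (shift h z p) * G z) ∂rayMeasure :=
          integral_integral_swap i1
      _ = ∫ p, (∫ z : ℝ × ℝ, K p * (F z * G (shiftp h z p))) ∂rayMeasure := by
          refine integral_congr_ae (Eventually.of_forall fun p => ?_)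
          simp only
          rw [← integral_add_right_eq_self (fun z => K p * F (shift h z p) * G z)
            (h * p.1 * p.2.1, h * p.1 * p.2.2)]
          refine integral_congr_ae (Eventually.of_forall fun z => ?_)
          simp only
          have e1 : shift h (z + (h * p.1 * p.2.1, h * p.1 * p.2.2)) p = z := by
            unfold shift; ext <;> simp
          have e2 : z + (h * p.1 * p.2.1, h * p.1 * p.2.2) = shiftp h z p := rfl
          rw [e1, e2, mul_assoc]
      _ = ∫ z, ∫ p, K p * (F z * G (shiftp h z p)) ∂rayMeasure := integral_integral_swap i2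
      _ = ∫ z, F z * ∫ p, K p * G (shiftp h z p) ∂rayMeasure := by
          refine integral_congr_ae (Eventually.of_forall fun z => ?_)
          simp only
          rw [← integral_const_mul]
          refine integral_congr_ae (Eventually.of_forall fun p => ?_)
          simp only
          ring
  · have := i2.integral_prod_right
    refine this.congr (Eventually.of_forall fun z => ?_)
    simp only
    rw [← integral_const_mul]
    refine integral_congr_ae (Eventually.of_forall fun p => ?_)
    simp only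
    ring

end Pool.Agent.Lib.MP_1dc5fb
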