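import Pool.Agent.Lib.MP_1dc5fb_an.Weak

/-!
The weak equation on the half plane for even data.
-/

set_option autoImplicit false

open MeasureTheory Set Filter Topology
open scoped BoundedContinuousFunction

namespace Pool.Agent.Lib.MP_1dc5fb

lemma Test.bounds_ext {ψ ψx ψy : ℝ × ℝ → ℝ} (h : Test ψ ψx ψy) :
    ∃ C : ℝ, 0 ≤ C ∧ ∀ z, |ψ (abs2 z)| ≤ C ∧ |ψx (abs2 z)| ≤ C ∧ |sg z.2 * ψy (abs2 z)| ≤ C := by
  obtain ⟨C, hC0, hC⟩ := h.bounds
  refine ⟨C, hC0, fun z => ?_⟩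
  obtain ⟨a, b, c⟩ := hC (abs2 z) (abs2_mem z)
  refine ⟨a, b, ?_⟩
  rw [abs_mul, abs_sg, one_mul]; exact c

lemma Test.measurable_ext {ψ ψx ψy : ℝ × ℝ → ℝ} (h : Test ψ ψx ψy) :
    Measurable (fun z => ψ (abs2 z)) ∧ Measurable (fun z => ψx (abs2 z)) ∧
      Measurable (fun z => sg z.2 * ψy (abs2 z)) := by
  refine ⟨(continuous_comp_abs2 h.cont).measurable, (continuous_comp_abs2 h.contx).measurable, ?_⟩
  exact (measurable_sg.comp measurable_snd).mul (continuous_comp_abs2 h.conty).measurable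

lemma Test.integrable_ext {ψ ψx ψy : ℝ × ℝ → ℝ} (h : Test ψ ψx ψy) :
    Integrable (fun z => ψ (abs2 z)) ∧ Integrable (fun z => ψx (abs2 z)) ∧
      Integrable (fun z => sg z.2 * ψy (abs2 z)) := by
  obtain ⟨C, hC0, hC⟩ := h.bounds_ext
  obtain ⟨m1, m2, m3⟩ := h.measurable_ext
  obtain ⟨R, hR⟩ := h.supp
  have key : ∀ z : ℝ × ℝ, (R ≤ |z.1| ∨ R ≤ |z.2|) →
      ψ (abs2 z) = 0 ∧ ψx (abs2 z) = 0 ∧ ψy (abs2 z) = 0 :=
    fun z hz => hR (abs2 z) (abs2_mem z) hz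
  refine ⟨integrable_of_bounded_supp m1 (fun z => (hC z).1) (fun z hz => (key z hz).1),
    integrable_of_bounded_supp m2 (fun z => (hC z).2.1) (fun z hz => (key z hz).2.1),
    integrable_of_bounded_supp (R := R) m3 (fun z => (hC z).2.2) (fun z hz => ?_)⟩
  rw [(key z hz).2.2, mul_zero]

/-- identity along a ray -/
lemma ray_identity {h : ℝ} (hh : h ≠ 0) {ψ ψx ψy : ℝ × ℝ → ℝ} (ht : Test ψ ψx ψy)
    (z : ℝ × ℝ) {ζ : ℝ × ℝ} (hζ : ζ.2 ≠ 0) :
    ∫ s in Ioi (0 : ℝ), ((-h * Real.exp (-s ^ 2)) * (ζ.1 * ψx (abs2 (shiftp h z (s, ζ))) +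
      ζ.2 * (sg (shiftp h z (s, ζ)).2 * ψy (abs2 (shiftp h z (s, ζ))))) +
      2 * (s * Real.exp (-s ^ 2)) * ψ (abs2 (shiftp h z (s, ζ)))) = ψ (abs2 z) := by
  obtain ⟨C, hC0, hC⟩ := ht.bounds_ext
  obtain ⟨m1, m2, m3⟩ := ht.measurable_ext
  have hcs : Continuous (fun s : ℝ => shiftp h z (s, ζ)) := by unfold shiftp; fun_prop
  have hcψ : Continuous (fun s : ℝ => ψ (abs2 (shiftp h z (s, ζ)))) :=
    (continuous_comp_abs2 ht.cont).comp hcs
  have i1 : IntegrableOn (fun s : ℝ => (-h * Real.exp (-s ^ 2)) *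
      (ζ.1 * ψx (abs2 (shiftp h z (s, ζ))) +
      ζ.2 * (sg (shiftp h z (s, ζ)).2 * ψy (abs2 (shiftp h z (s, ζ)))))) (Ioi 0) := by
    refine Integrable.integrableOn ?_
    refine Integrable.mono' ((int_gauss.const_mul |h|).mul_const ((|ζ.1| + |ζ.2|) * C)) ?_ ?_
    · refine Measurable.aestronglyMeasurable ?_
      refine Measurable.mul (by fun_prop) ?_
      exact ((m2.comp hcs.measurable).const_mul _).add ((m3.comp hcs.measurable).const_mul _)
    · refine Eventually.of_forall fun s => ?_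
      rw [norm_mul, norm_mul, norm_neg, Real.norm_eq_abs, Real.norm_eq_abs, Real.norm_eq_abs,
        abs_of_pos (Real.exp_pos _)]
      refine mul_le_mul_of_nonneg_left ?_ (by positivity)
      refine (abs_add_le _ _).trans ?_
      obtain ⟨-, b, c⟩ := hC (shiftp h z (s, ζ))
      rw [abs_mul, abs_mul ζ.2]
      have : |ζ.1| * |ψx (abs2 (shiftp h z (s, ζ)))| ≤ |ζ.1| * C :=
        mul_le_mul_of_nonneg_left b (abs_nonneg _)
      have : |ζ.2| * |sg (shiftp h z (s, ζ)).2 * ψy (abs2 (shiftp h z (s, ζ)))| ≤ |ζ.2| * C :=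
        mul_le_mul_of_nonneg_left c (abs_nonneg _)
      linarith
  have i2 : IntegrableOn (fun s : ℝ => 2 * (s * Real.exp (-s ^ 2)) *
      ψ (abs2 (shiftp h z (s, ζ)))) (Ioi 0) := by
    refine Integrable.integrableOn ?_
    refine Integrable.mono' ((int_xgauss.norm.const_mul 2).mul_const C) ?_ ?_
    · exact ((by fun_prop : Continuous fun s : ℝ => 2 * (s * Real.exp (-s ^ 2))).mul
        hcψ).aestronglyMeasurable
    · refine Eventually.of_forall fun s => ?_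
      rw [norm_mul, norm_mul, Real.norm_eq_abs (ψ _), Real.norm_of_nonneg (by norm_num : (0:ℝ) ≤ 2)]
      exact mul_le_mul_of_nonneg_left (hC _).1 (by positivity)
  have key := integral_Ioi_off_countable (a := 0) (m := 0)
    (f := fun s : ℝ => -(Real.exp (-s ^ 2) * ψ (abs2 (shiftp h z (s, ζ)))))
    (f' := fun s : ℝ => (-h * Real.exp (-s ^ 2)) * (ζ.1 * ψx (abs2 (shiftp h z (s, ζ))) +
      ζ.2 * (sg (shiftp h z (s, ζ)).2 * ψy (abs2 (shiftp h z (s, ζ))))) +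
      2 * (s * Real.exp (-s ^ 2)) * ψ (abs2 (shiftp h z (s, ζ))))
    (s := {s : ℝ | (shiftp h z (s, ζ)).2 = 0}) ?_ ?_ ?_ (i1.add i2) ?_
  · rw [key]
    simp [shiftp]
  · -- the exceptional set is a singleton
    refine Set.Subsingleton.countable ?_
    intro s hs t ht'
    change z.2 + h * s * ζ.2 = 0 at hs
    change z.2 + h * t * ζ.2 = 0 at ht'
    have : h * ζ.2 * (s - t) = 0 := by linarith
    rcases mul_eq_zero.1 this with h1 | h1
    · exact absurd (mul_eq_zero.1 h1) (by push Not; exact ⟨hh, hζ⟩)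
    · linarith
  · exact (((by fun_prop : Continuous fun s : ℝ => Real.exp (-s ^ 2)).mul
        hcψ).neg).continuousOn
  · intro s hs
    have hs2 : (shiftp h z (s, ζ)).2 ≠ 0 := hs.2
    have e1 : HasDerivAt (fun s : ℝ => Real.exp (-s ^ 2)) (Real.exp (-s ^ 2) * (-(2 * s))) s := by
      have := ((hasDerivAt_pow 2 s).neg).exp
      simpa using this
    have e2 : HasDerivAt (fun s : ℝ => shiftp h z (s, ζ)) (h * ζ.1, h * ζ.2) s := by
      unfold shiftp
      refine HasDerivAt.prodMk ?_ ?_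
      · have := (((hasDerivAt_id s).const_mul h).mul_const ζ.1).const_add z.1
        simpa using this
      · have := (((hasDerivAt_id s).const_mul h).mul_const ζ.2).const_add z.2
        simpa using this
    have e3 := (ht.toC1bar.hasFDerivAt_abs2 hs2).comp_hasDerivAt s e2
    refine ((e1.mul e3).neg).congr_deriv ?_
    simp only [lin_apply, Function.comp]
    ring
  · have t1 : Tendsto (fun s : ℝ => Real.exp (-s ^ 2)) atTop (𝓝 0) := by
      refine Real.tendsto_exp_atBot.comp ?_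
      exact tendsto_neg_atTop_atBot.comp (tendsto_pow_atTop (by norm_num))
    have t2 : Tendsto (fun s : ℝ => Real.exp (-s ^ 2) * ψ (abs2 (shiftp h z (s, ζ)))) atTop (𝓝 0) := by
      refine squeeze_zero_norm (a := fun s => Real.exp (-s ^ 2) * C) (fun s => ?_) ?_
      · rw [norm_mul, Real.norm_of_nonneg (Real.exp_pos _).le]
        exact mul_le_mul_of_nonneg_left (hC _).1 (Real.exp_pos _).le
      · simpa using t1.mul_const C
    simpa using t2.neg

lemma ae_snd_ne_zero : ∀ᵐ ζ : ℝ × ℝ, ζ.2 ≠ 0 := by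
  have h1 : ∀ᵐ y : ℝ, y ≠ 0 := by
    rw [ae_iff]; simp
  exact (Measure.quasiMeasurePreserving_snd (μ := (volume : Measure ℝ))
    (ν := (volume : Measure ℝ))).ae h1

lemma integral_Phi : ∫ ζ : ℝ × ℝ, Real.exp (-ζ.1 ^ 2) * Real.exp (-ζ.2 ^ 2) / Real.pi = 1 := by
  rw [integral_div]
  have := integral_prod_mul (μ := (volume : Measure ℝ)) (ν := (volume : Measure ℝ))
    (fun x : ℝ => Real.exp (-x ^ 2)) (fun x : ℝ => Real.exp (-x ^ 2))
  rw [integral_gauss, Real.mul_self_sqrt Real.pi_pos.le] at this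
  rw [show (volume : Measure (ℝ × ℝ)) = (volume : Measure ℝ).prod volume from rfl, this]
  exact div_self Real.pi_ne_zero

/-- the forward averages reproduce the test function -/
lemma fwd_identity {h : ℝ} (hh : h ≠ 0) {ψ ψx ψy : ℝ × ℝ → ℝ} (ht : Test ψ ψx ψy)
    (z : ℝ × ℝ) :
    (∫ p, K1 h p * ψx (abs2 (shiftp h z p)) ∂rayMeasure) +
    (∫ p, K2 h p * (sg (shiftp h z p).2 * ψy (abs2 (shiftp h z p))) ∂rayMeasure) +
    (4 / h ^ 2) * (∫ p, K0 h p * ψ (abs2 (shiftp h z p)) ∂rayMeasure) = ψ (abs2 z) := by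
  obtain ⟨C, hC0, hC⟩ := ht.bounds_ext
  obtain ⟨m1, m2, m3⟩ := ht.measurable_ext
  have i1 := integrable_conv_meas (h := h) (int_K1 h) m2 (fun z => (hC z).2.1) z
  have i2 := integrable_conv_meas (h := h) (int_K2 h) m3 (fun z => (hC z).2.2) z
  have i3 := (integrable_conv_meas (h := h) (int_K0 h) m1 (fun z => (hC z).1) z).const_mul (4 / h ^ 2)
  rw [← integral_const_mul, ← integral_add i1 i2, ← integral_add (iadd i1 i2) i3]
  have i4 := iadd (iadd i1 i2) i3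
  have e : (fun p : ℝ × (ℝ × ℝ) => K1 h p * ψx (abs2 (shiftp h z p)) +
      K2 h p * (sg (shiftp h z p).2 * ψy (abs2 (shiftp h z p))) +
      4 / h ^ 2 * (K0 h p * ψ (abs2 (shiftp h z p)))) =
      fun p => (Real.exp (-p.2.1 ^ 2) * Real.exp (-p.2.2 ^ 2) / Real.pi) *
      ((-h * Real.exp (-p.1 ^ 2)) * (p.2.1 * ψx (abs2 (shiftp h z (p.1, p.2))) +
      p.2.2 * (sg (shiftp h z (p.1, p.2)).2 * ψy (abs2 (shiftp h z (p.1, p.2))))) +
      2 * (p.1 * Real.exp (-p.1 ^ 2)) * ψ (abs2 (shiftp h z (p.1, p.2)))) := by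
    funext p
    unfold K0 K1 K2
    field_simp
    ring
  have i5 : Integrable (fun p : ℝ × (ℝ × ℝ) => (Real.exp (-p.2.1 ^ 2) * Real.exp (-p.2.2 ^ 2) / Real.pi) *
      ((-h * Real.exp (-p.1 ^ 2)) * (p.2.1 * ψx (abs2 (shiftp h z (p.1, p.2))) +
      p.2.2 * (sg (shiftp h z (p.1, p.2)).2 * ψy (abs2 (shiftp h z (p.1, p.2))))) +
      2 * (p.1 * Real.exp (-p.1 ^ 2)) * ψ (abs2 (shiftp h z (p.1, p.2))))) rayMeasure := by
    rw [← e]; exact i4
  have e' : (∫ p, (K1 h p * ψx (abs2 (shiftp h z p)) +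
      K2 h p * (sg (shiftp h z p).2 * ψy (abs2 (shiftp h z p))) +
      4 / h ^ 2 * (K0 h p * ψ (abs2 (shiftp h z p)))) ∂rayMeasure) = ∫ p,
      ((Real.exp (-p.2.1 ^ 2) * Real.exp (-p.2.2 ^ 2) / Real.pi) *
      ((-h * Real.exp (-p.1 ^ 2)) * (p.2.1 * ψx (abs2 (shiftp h z (p.1, p.2))) +
      p.2.2 * (sg (shiftp h z (p.1, p.2)).2 * ψy (abs2 (shiftp h z (p.1, p.2))))) +
      2 * (p.1 * Real.exp (-p.1 ^ 2)) * ψ (abs2 (shiftp h z (p.1, p.2))))) ∂rayMeasure := by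
    rw [e]
  rw [e']
  unfold rayMeasure at i5 ⊢
  rw [integral_prod_symm _ i5]
  have step : ∀ᵐ ζ : ℝ × ℝ, (∫ s in Ioi (0 : ℝ), (Real.exp (-ζ.1 ^ 2) * Real.exp (-ζ.2 ^ 2) / Real.pi) *
      ((-h * Real.exp (-s ^ 2)) * (ζ.1 * ψx (abs2 (shiftp h z (s, ζ))) +
      ζ.2 * (sg (shiftp h z (s, ζ)).2 * ψy (abs2 (shiftp h z (s, ζ))))) +
      2 * (s * Real.exp (-s ^ 2)) * ψ (abs2 (shiftp h z (s, ζ))))) =
      (Real.exp (-ζ.1 ^ 2) * Real.exp (-ζ.2 ^ 2) / Real.pi) * ψ (abs2 z) := by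
    filter_upwards [ae_snd_ne_zero] with ζ hζ
    rw [integral_const_mul, ray_identity hh ht z hζ]
  rw [integral_congr_ae step, integral_mul_const, integral_Phi, one_mul]

/-- full plane weak equation tested with even extensions -/
lemma weak_full {h : ℝ} (hh : h ≠ 0) (F : ℝ × ℝ →ᵇ ℝ) {ψ ψx ψy : ℝ × ℝ → ℝ}
    (ht : Test ψ ψx ψy) :
    (∫ z, V1 h F z * ψx (abs2 z)) + (∫ z, V2 h F z * (sg z.2 * ψy (abs2 z))) +
      (4 / h ^ 2) * (∫ z, V h F z * ψ (abs2 z)) = ∫ z, F z * ψ (abs2 z) := by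
  obtain ⟨m1, m2, m3⟩ := ht.measurable_ext
  obtain ⟨n1, n2, n3⟩ := ht.integrable_ext
  obtain ⟨a1, b1⟩ := conv_dual (h := h) (int_K1 h) F m2 n2
  obtain ⟨a2, b2⟩ := conv_dual (h := h) (int_K2 h) F m3 n3
  obtain ⟨a3, b3⟩ := conv_dual (h := h) (int_K0 h) F m1 n1
  simp only [V_apply, V1_apply, V2_apply]
  rw [a1, a2, a3, ← integral_const_mul, ← integral_add b1 b2,
    ← integral_add (iadd b1 b2) (b3.const_mul _)]
  refine integral_congr_ae (Eventually.of_forall fun z => ?_)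
  simp only
  rw [← fwd_identity hh ht z]
  ring

lemma mp_refl : MeasurePreserving (fun p : ℝ × (ℝ × ℝ) => (p.1, (p.2.1, -p.2.2)))
    rayMeasure rayMeasure := by
  unfold rayMeasure
  have h1 : MeasurePreserving (fun y : ℝ => -y) (volume : Measure ℝ) volume :=
    Measure.measurePreserving_neg volume
  exact (MeasurePreserving.id (volume.restrict (Ioi (0 : ℝ)))).prod
    ((MeasurePreserving.id (volume : Measure ℝ)).prod h1)

lemma convFun_refl {h : ℝ} {K : ℝ × (ℝ × ℝ) → ℝ} (F : ℝ × ℝ → ℝ) (x y : ℝ) :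
    convFun h K F (x, -y) =
      convFun h (fun p => K (p.1, (p.2.1, -p.2.2))) (fun z => F (z.1, -z.2)) (x, y) := by
  unfold convFun
  have hme : MeasurableEmbedding (fun p : ℝ × (ℝ × ℝ) => (p.1, (p.2.1, -p.2.2))) :=
    (MeasurableEquiv.prodCongr (MeasurableEquiv.refl ℝ)
      (MeasurableEquiv.prodCongr (MeasurableEquiv.refl ℝ)
        (MeasurableEquiv.neg ℝ))).measurableEmbedding
  rw [← mp_refl.integral_comp hme]
  refine integral_congr_ae (Eventually.of_forall fun p => ?_)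
  simp only [shift]
  congr 2
  ext
  · rfl
  · simp only; ring

/-- evenness -/
def Even2 (F : ℝ × ℝ → ℝ) : Prop := ∀ x y, F (x, -y) = F (x, y)

lemma V_even {h : ℝ} {F : ℝ × ℝ →ᵇ ℝ} (hF : Even2 F) : Even2 (V h F) := by
  intro x y
  rw [V_apply, V_apply, convFun_refl]
  unfold convFun
  refine integral_congr_ae (Eventually.of_forall fun p => ?_)
  simp only [K0, shift]
  rw [hF]
  ring_nf

lemma V1_even {h : ℝ} {F : ℝ × ℝ →ᵇ ℝ} (hF : Even2 F) : Even2 (V1 h F) := by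
  intro x y
  rw [V1_apply, V1_apply, convFun_refl]
  unfold convFun
  refine integral_congr_ae (Eventually.of_forall fun p => ?_)
  simp only [K1, shift]
  rw [hF]
  ring_nf

lemma V2_odd {h : ℝ} {F : ℝ × ℝ →ᵇ ℝ} (hF : Even2 F) (x y : ℝ) :
    V2 h F (x, -y) = - V2 h F (x, y) := by
  rw [V2_apply, V2_apply, convFun_refl]
  unfold convFun
  rw [← integral_neg]
  refine integral_congr_ae (Eventually.of_forall fun p => ?_)
  simp only [K2, shift]
  rw [hF]
  ring_nf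

lemma Even2.abs2 {F : ℝ × ℝ → ℝ} (hF : Even2 F) (z : ℝ × ℝ) : F (abs2 z) = F z := by
  unfold MP_1dc5fb.abs2
  rcases abs_choice z.2 with h | h <;> rw [h]
  rw [hF]

lemma V2_abs2 {h : ℝ} {F : ℝ × ℝ →ᵇ ℝ} (hF : Even2 F) (z : ℝ × ℝ) :
    V2 h F z * sg z.2 = V2 h F (abs2 z) := by
  unfold sg abs2
  split_ifs with h0
  · rw [abs_of_nonneg h0, mul_one]
  · rw [abs_of_neg (not_le.1 h0), V2_odd hF, mul_neg_one]

lemma integral_comp_abs2 {q : ℝ × ℝ → ℝ} (hq : Integrable (fun z => q (abs2 z))) :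
    ∫ z, q (abs2 z) = 2 * ∫ z in Hset, q z := by
  have h1 : IntegrableOn q Hset := by
    refine (hq.integrableOn (s := Hset)).congr_fun ?_ measurableSet_Hset
    intro z hz
    simp only
    rw [abs2_of_mem (Hset_subset_Hbar hz)]
  rw [Hset_eq_prod] at h1 ⊢
  rw [show (volume : Measure (ℝ × ℝ)) = (volume : Measure ℝ).prod volume from rfl] at hq h1 ⊢
  rw [integral_prod _ hq, setIntegral_prod _ h1, ← integral_const_mul]
  rw [setIntegral_univ]
  refine integral_congr_ae (Eventually.of_forall fun x => ?_)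
  simp only [MP_1dc5fb.abs2]
  exact integral_comp_abs (f := fun y => q (x, y))

/-- **Weak equation on the half plane**, for even data. -/
theorem weak_half {h : ℝ} (hh : h ≠ 0) {F : ℝ × ℝ →ᵇ ℝ} (hF : Even2 F) {ψ ψx ψy : ℝ × ℝ → ℝ}
    (ht : Test ψ ψx ψy) :
    ∫ z in Hset, (V1 h F z * ψx z + V2 h F z * ψy z + (4 / h ^ 2) * V h F z * ψ z) =
      ∫ z in Hset, F z * ψ z := by
  obtain ⟨m1, m2, m3⟩ := ht.measurable_ext
  obtain ⟨n1, n2, n3⟩ := ht.integrable_ext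
  have bd : ∀ (G : ℝ × ℝ →ᵇ ℝ) (w : ℝ × ℝ → ℝ), Integrable w → Integrable (fun z => G z * w z) := by
    intro G w hw
    refine Integrable.mono' (hw.norm.const_mul ‖G‖) ?_ ?_
    · have hGm : AEStronglyMeasurable (fun z : ℝ × ℝ => G z) volume :=
        G.continuous.aestronglyMeasurable
      exact hGm.mul hw.aestronglyMeasurable
    · refine Eventually.of_forall fun z => ?_
      rw [norm_mul]
      exact mul_le_mul_of_nonneg_right (G.norm_coe_le_norm _) (norm_nonneg _)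
  have j1 := bd (V1 h F) _ n2
  have j2 := bd (V2 h F) _ n3
  have j3 := (bd (V h F) _ n1).const_mul (4 / h ^ 2)
  have j4 := bd F _ n1
  have hw := weak_full hh F ht
  rw [← integral_const_mul, ← integral_add j1 j2, ← integral_add (iadd j1 j2) j3] at hw
  have e1 : (fun z : ℝ × ℝ => V1 h F z * ψx (abs2 z) + V2 h F z * (sg z.2 * ψy (abs2 z)) +
      4 / h ^ 2 * (V h F z * ψ (abs2 z))) =
      fun z => (fun z => V1 h F z * ψx z + V2 h F z * ψy z + (4 / h ^ 2) * V h F z * ψ z) (abs2 z) := by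
    funext z
    simp only
    rw [(V1_even hF).abs2, (V_even hF).abs2, ← V2_abs2 hF]
    ring
  have e2 : (fun z : ℝ × ℝ => F z * ψ (abs2 z)) = fun z => (fun z => F z * ψ z) (abs2 z) := by
    funext z
    simp only
    rw [hF.abs2]
  have j5 : Integrable (fun z : ℝ × ℝ => V1 h F z * ψx (abs2 z) + V2 h F z * (sg z.2 * ψy (abs2 z)) +
      4 / h ^ 2 * (V h F z * ψ (abs2 z))) := iadd (iadd j1 j2) j3
  rw [e1] at j5 hw
  rw [e2] at j4 hw
  have k1 := integral_comp_abs2 (q := fun z => V1 h F z * ψx z + V2 h F z * ψy z +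
    (4 / h ^ 2) * V h F z * ψ z) j5
  have k2 := integral_comp_abs2 (q := fun z => F z * ψ z) j4
  have k3 : 2 * (∫ z in Hset, (V1 h F z * ψx z + V2 h F z * ψy z +
      (4 / h ^ 2) * V h F z * ψ z)) = 2 * ∫ z in Hset, F z * ψ z := by
    rw [← k1, ← k2]; exact hw
  linarith

end Pool.Agent.Lib.MP_1dc5fb
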